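import Pool.Agent.Lib_helper84.JO6.N0

/-!
# Project JO, part E6, block CHM: constant terms as functions of the height
-/

set_option autoImplicit false

namespace Pool.Agent.JO

open Complex MeasureTheory Filter Topology Set ModularGroup
open UpperHalfPlane hiding I
open scoped MatrixGroups ComplexConjugate ContDiff

theorem chm_ofC : Measurable (fun z : ℂ => (UpperHalfPlane.ofComplex z : ℍ)) := by
  have h : Measurable (fun z : ℂ => ((UpperHalfPlane.ofComplex z : ℍ) : ℂ)) := by
    have h1 : (fun z : ℂ => ((UpperHalfPlane.ofComplex z : ℍ) : ℂ)) =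
        fun z => if 0 < z.im then z else ((Classical.choice inferInstance : ℍ) : ℂ) := by
      funext z
      rw [UpperHalfPlane.ofComplex_apply_eq_ite]
      split_ifs <;> rfl
    rw [h1]
    exact Measurable.ite (measurableSet_lt measurable_const Complex.measurable_im)
      measurable_id measurable_const
  exact measurable_comap_iff.2 h

theorem chm_int {h : ℍ → ℂ} (hm : Measurable h) :
    Measurable (fun y : ℝ => ∫ t in (0 : ℝ)..1, h (UpperHalfPlane.ofComplex (t + y * Complex.I))) := by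
  simp_rw [intervalIntegral.integral_of_le (zero_le_one : (0 : ℝ) ≤ 1)]
  have h1 : StronglyMeasurable (fun p : ℝ × ℝ =>
      h (UpperHalfPlane.ofComplex ((p.2 : ℂ) + (p.1 : ℂ) * Complex.I))) := by
    have h2 : Measurable (fun p : ℝ × ℝ => ((p.2 : ℂ) + (p.1 : ℂ) * Complex.I)) := by fun_prop
    exact (hm.comp (chm_ofC.comp h2)).stronglyMeasurable
  exact (h1.integral_prod_right' (ν := volume.restrict (Ioc (0 : ℝ) 1))).measurable

section

variable {N : ℕ} [NeZero N]

theorem ch_meas_pr {f : QN N → ℍ → ℂ} (hf : SqH f) (v : ZMod N × ZMod N) :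
    Measurable (cH f v) := by
  unfold cH
  refine Measurable.const_mul ?_ _
  refine Finset.measurable_sum _ fun s _ => ?_
  by_cases hs : bot s = v
  · simp only [if_pos hs]
    exact chm_int (hf.meas s)
  · simp only [if_neg hs]
    exact measurable_const

theorem ch_one_pr {v : ZMod N × ZMod N} (hv : v ∈ PV N) {y : ℝ} (hy : 0 < y) (c : ℂ) :
    cH (N := N) (fun _ _ => c) v y = c := by
  have h := CF_one (x := 1) hv
  unfold CF at h
  simp only [intervalIntegral.integral_const, sub_zero, one_smul] at h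
  unfold cH
  simp only [intervalIntegral.integral_const, sub_zero, one_smul]
  have h1 : (∑ s : QN N, if bot s = v then c else 0) =
      (∑ s : QN N, if bot s = v then (1 : ℂ) else 0) * c := by
    rw [Finset.sum_mul]
    refine Finset.sum_congr rfl fun s _ => ?_
    split_ifs <;> simp
  rw [h1, ← mul_assoc, h, one_mul]

theorem chm_one : SqF (fun (_ : QN N) _ => (1 : ℂ)) :=
  SqF_of_bdd (C := 1) ⟨fun _ _ _ => rfl, fun _ => measurable_const⟩ (fun _ _ => by simp)

theorem chm_mean {F : QN N → SL(2, ℝ) → ℂ} (hF : SqF F) :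
    mean (fun s g => 1 * F s g + (-mean F) * 1) = 0 := by
  obtain ⟨V, hV, hV1⟩ := ip_one (N := N)
  have h1 := (ip_cs hF (chm_one (N := N))).1
  have h2 := (ip_cs (chm_one (N := N)) (chm_one (N := N))).1
  have h3 : ip (fun s g => 1 * F s g + (-mean F) * 1) (fun _ _ => 1) =
      ip F (fun _ _ => 1) + (-mean F) * ip (N := N) (fun _ _ => 1) (fun _ _ => 1) := by
    unfold ip
    rw [Finset.mul_sum, ← Finset.sum_add_distrib]
    refine Finset.sum_congr rfl fun s _ => ?_
    rw [← integral_const_mul, ← integral_add (h1 s) ((h2 s).const_mul _)]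
    refine integral_congr_ae (Eventually.of_forall fun p => ?_)
    simp only
    ring
  have h4 : ip (N := N) (fun _ _ => 1) (fun _ _ => 1) ≠ 0 := by
    rw [hV1]
    exact ofReal_ne_zero.2 hV.ne'
  have h5 : mean F * ip (N := N) (fun _ _ => 1) (fun _ _ => 1) = ip F (fun _ _ => 1) := by
    unfold mean
    exact div_mul_cancel₀ _ h4
  have h6 : ip (fun s g => 1 * F s g + (-mean F) * 1) (fun _ _ => 1) = 0 := by
    rw [h3, neg_mul, h5, add_neg_cancel]
  show ip (fun s g => 1 * F s g + (-mean F) * 1) (fun _ _ => 1) / _ = 0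
  rw [h6, zero_div]

theorem ch_sq_pr {f : QN N → ℍ → ℂ} (hf : SqH f) {v : ZMod N × ZMod N} (hv : v ∈ PV N) :
    IntegrableOn (fun y : ℝ => ‖cH f v y - meanH f‖ ^ 2 / y ^ 2) (Ioi 0) := by
  obtain ⟨hF, hm, -⟩ := liftH_sq hf
  have h1 : SqF (fun s g => 1 * liftH f s g + (-mean (liftH f)) * 1) :=
    SqF_lin hF (chm_one (N := N)) 1 (-mean (liftH f))
  have h2 := (CF_SqL h1 (chm_mean hF)).1.sq v hv
  have h3 := CF_lin hF (chm_one (N := N)) 1 (-mean (liftH f))
  have h0 : ∀ᵐ x : ℂ, x ≠ 0 := by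
    have : ({0} : Set ℂ)ᶜ ∈ ae (volume : Measure ℂ) := compl_mem_ae_iff.2 (measure_singleton 0)
    exact this
  have h4 : Integrable (fun x : ℂ => ‖cH f v (‖x‖ ^ 2)⁻¹ - meanH f‖ ^ 2) := by
    refine h2.congr ?_
    filter_upwards [h3, h0] with x hx hx0
    rw [hx v, CF_one hv, CF_liftH f hx0 v, hm, Complex.normSq_eq_norm_sq]
    congr 2
    ring
  have h5 := (integrable_fun_norm_addHaar (volume : Measure ℂ)
    (f := fun r : ℝ => ‖cH f v (r ^ 2)⁻¹ - meanH f‖ ^ 2)).1 h4
  refine (integrableOn_Ioi_comp_rpow_iff' _ (p := -2) (by norm_num)).1 ?_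
  refine h5.congr_fun ?_ measurableSet_Ioi
  intro x hx
  have hx0 : (0 : ℝ) < x := hx
  have e1 : x ^ (-2 : ℝ) = (x ^ 2)⁻¹ := by
    rw [Real.rpow_neg hx0.le]
    norm_num
  have e2 : x ^ (-2 - 1 : ℝ) = (x ^ 3)⁻¹ := by
    have : (-2 - 1 : ℝ) = -((3 : ℕ) : ℝ) := by norm_num
    rw [this, Real.rpow_neg hx0.le, Real.rpow_natCast]
  simp only [smul_eq_mul, Complex.finrank_real_complex]
  rw [e1, e2, show (2 - 1 : ℕ) = 1 from rfl, pow_one]
  field_simp

theorem ch_mel_pr {f : QN N → ℍ → ℂ} (hf : SqH f) (hb : ∃ B : ℝ, ∀ s z, ‖f s z‖ ≤ B)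
    {v : ZMod N × ZMod N} (hv : v ∈ PV N) : MelOK (fun y => cH f v y - meanH f) := by
  obtain ⟨B, hB⟩ := hb
  have hB0 : 0 ≤ B := (norm_nonneg _).trans (hB 1 UpperHalfPlane.I)
  refine ⟨(ch_meas_pr hf v).sub_const _, ch_sq_pr hf hv, ?_⟩
  refine ⟨‖(N : ℂ)⁻¹‖ * ∑ s : QN N, B + ‖meanH f‖, fun y _ => ?_⟩
  refine (norm_sub_le _ _).trans (add_le_add ?_ le_rfl)
  unfold cH
  rw [norm_mul]
  refine mul_le_mul_of_nonneg_left ?_ (norm_nonneg _)
  refine norm_sum_le_of_le _ fun s _ => ?_
  split_ifs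
  · have := intervalIntegral.norm_integral_le_of_norm_le_const (a := (0 : ℝ)) (b := 1) (C := B)
      (f := fun t : ℝ => f s (UpperHalfPlane.ofComplex (t + y * Complex.I))) (fun t _ => hB _ _)
    simpa using this
  · simpa using hB0

end

end Pool.Agent.JO
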