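import Pool.Agent.Lib_helper84.JO6.N1

/-!
# Project JO, part E6, block CPI: the constant term of the dual family
-/

set_option autoImplicit false

namespace Pool.Agent.JO

open Complex MeasureTheory Filter Topology Set ModularGroup
open UpperHalfPlane hiding I
open Pool.Agent.Lib_helper37.JO (HJ)
open scoped MatrixGroups ComplexConjugate ContDiff

/-! ## The horizontal line -/

/-- the point `t + i y` -/
noncomputable def cpi_z (y : ℝ) (hy : 0 < y) (t : ℝ) : ℍ := ⟨(t : ℂ) + y * I, by simpa using hy⟩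

theorem cpi_of {y : ℝ} (hy : 0 < y) (t : ℝ) :
    UpperHalfPlane.ofComplex ((t : ℂ) + y * Complex.I) = cpi_z y hy t :=
  ofComplex_apply_of_im_pos _

theorem cpi_z_cont {y : ℝ} (hy : 0 < y) : Continuous (cpi_z y hy) := by
  rw [isOpenEmbedding_coe.isEmbedding.continuous_iff]
  show Continuous (fun t : ℝ => (t : ℂ) + y * I)
  fun_prop

theorem cpi_smul_cont {y : ℝ} (hy : 0 < y) (γ : SL(2, ℤ)) :
    Continuous (fun t : ℝ => ((γ • cpi_z y hy t : ℍ) : ℂ)) := by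
  have h1 : Continuous (fun z : ℍ => γ • z) :=
    continuous_const_smul (Matrix.SpecialLinearGroup.map (Int.castRingHom ℝ) γ : SL(2, ℝ))
  exact isOpenEmbedding_coe.continuous.comp (h1.comp (cpi_z_cont hy))

theorem cpi_sa_cont {α : ℝ → ℂ} (hα : TB α) {y : ℝ} (hy : 0 < y) (γ : SL(2, ℤ)) :
    Continuous (fun t : ℝ => sa α (Complex.arg ((γ • cpi_z y hy t : ℍ) : ℂ))) := by
  have h1 : Continuous (sa α) := by
    unfold sa
    have := hα.smooth.continuous
    fun_prop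
  apply h1.comp
  rw [continuous_iff_continuousAt]
  intro t
  have h2 : ((γ • cpi_z y hy t : ℍ) : ℂ) ∈ slitPlane := by
    right
    exact (γ • cpi_z y hy t : ℍ).im_ne_zero
  exact ContinuousAt.comp (f := fun t : ℝ => ((γ • cpi_z y hy t : ℍ) : ℂ)) (g := Complex.arg)
    (Complex.continuousAt_arg h2) (cpi_smul_cont hy γ).continuousAt

/-- the integral over one period -/
noncomputable def cpi_I (α : ℝ → ℂ) (y : ℝ) (hy : 0 < y) (γ : SL(2, ℤ)) : ℂ :=
  ∫ t in (0 : ℝ)..1, sa α (Complex.arg ((γ • cpi_z y hy t : ℍ) : ℂ))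

theorem cpi_fin {α : ℝ → ℂ} (hα : TB α) {y : ℝ} (hy : 0 < y) : ∃ Γ₀ : Finset SL(2, ℤ),
    ∀ γ ∉ Γ₀, ∀ t ∈ Icc (0 : ℝ) 1, sa α (Complex.arg ((γ • cpi_z y hy t : ℍ) : ℂ)) = 0 := by
  have hK : IsCompact (cpi_z y hy '' Icc (0 : ℝ) 1) := isCompact_Icc.image (cpi_z_cont hy)
  have h := pia_fin hα hK
  refine ⟨h.toFinset, fun γ hγ t ht => ?_⟩
  rw [Set.Finite.mem_toFinset] at hγ
  by_contra hcon
  apply hγ
  refine ⟨cpi_z y hy t, ⟨t, ht, rfl⟩, ?_⟩
  intro h0
  apply hcon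
  unfold sa
  rw [h0, mul_zero]

/-! ## The substitution `t = y cot θ` -/

theorem cpi_cot {α : ℝ → ℂ} (hα : TB α) {y : ℝ} (hy : 0 < y) {ε : ℝ} (hε : ε ^ 2 = 1)
    {E : ℝ → ℝ} (hE : ∀ θ ∈ Ioo 0 Real.pi, E (ε * (y * (Real.cos θ / Real.sin θ))) = θ) :
    Integrable (fun t : ℝ => sa α (E t)) ∧
      ∫ t : ℝ, sa α (E t) = y * ∫ θ in Ioo 0 Real.pi, α θ := by
  obtain ⟨F, hF⟩ : ∃ F : ℝ → ℝ, F = fun θ => ε * (y * (Real.cos θ / Real.sin θ)) := ⟨_, rfl⟩
  have hE' : ∀ θ ∈ Ioo 0 Real.pi, E (F θ) = θ := by rw [hF]; exact hE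
  have hεabs : |ε| = 1 := by
    have : |ε| ^ 2 = 1 := by rw [sq_abs]; exact hε
    nlinarith [abs_nonneg ε]
  have hder : ∀ θ ∈ Ioo 0 Real.pi,
      HasDerivWithinAt F (ε * (y * (-(1 / Real.sin θ ^ 2)))) (Ioo 0 Real.pi) θ := by
    intro θ hθ
    have hs := (Real.sin_pos_of_mem_Ioo hθ).ne'
    have h1 := (Real.hasDerivAt_cos θ).div (Real.hasDerivAt_sin θ) hs
    have h2 : (-Real.sin θ * Real.sin θ - Real.cos θ * Real.cos θ) / Real.sin θ ^ 2 =
        -(1 / Real.sin θ ^ 2) := by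
      have := Real.sin_sq_add_cos_sq θ
      rw [← neg_div]
      congr 1
      nlinarith
    rw [h2] at h1
    rw [hF]
    exact ((h1.const_mul y).const_mul ε).hasDerivWithinAt
  have hinj : InjOn F (Ioo 0 Real.pi) := by
    intro a ha b hb hab
    rw [← hE' a ha, ← hE' b hb, hab]
  have himg : F '' Ioo 0 Real.pi = univ := by
    apply Set.eq_univ_of_forall
    intro t
    obtain ⟨w, hw⟩ : ∃ w : ℍ, w = cpi_z y hy (ε * t) := ⟨_, rfl⟩
    have hwc : (w : ℂ) = ((ε * t : ℝ) : ℂ) + y * I := by rw [hw]; rfl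
    have him : 0 < (w : ℂ).im := w.im_pos
    have harg : Complex.arg (w : ℂ) ∈ Ioo 0 Real.pi := by
      refine ⟨lt_of_le_of_ne (Complex.arg_nonneg_iff.2 him.le) ?_,
        lt_of_le_of_ne (Complex.arg_le_pi _) ?_⟩
      · intro h0
        have := (Complex.arg_eq_zero_iff.1 h0.symm).2
        exact him.ne' this
      · intro h0
        have := (Complex.arg_eq_pi_iff.1 h0).2
        exact him.ne' this
    refine ⟨Complex.arg (w : ℂ), harg, ?_⟩
    have hne : (w : ℂ) ≠ 0 := w.ne_zero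
    have hn : 0 < ‖(w : ℂ)‖ := norm_pos_iff.2 hne
    have hre : (w : ℂ).re = ε * t := by rw [hwc]; simp
    have himy : (w : ℂ).im = y := by rw [hwc]; simp
    have hcos := Complex.norm_mul_cos_arg (w : ℂ)
    have hsin := Complex.norm_mul_sin_arg (w : ℂ)
    rw [hre] at hcos
    rw [himy] at hsin
    have hs := Real.sin_pos_of_mem_Ioo harg
    rw [hF]
    simp only
    have e1 : Real.cos (Complex.arg (w : ℂ)) / Real.sin (Complex.arg (w : ℂ)) = ε * t / y := by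
      rw [div_eq_div_iff hs.ne' hy.ne']
      have := hn.ne'
      apply mul_left_cancel₀ this
      linear_combination y * hcos - (ε * t) * hsin
    rw [e1]
    field_simp
    linear_combination t * hε
  have hpt : ∀ θ ∈ Ioo 0 Real.pi, |ε * (y * (-(1 / Real.sin θ ^ 2)))| • sa α (E (F θ)) =
      (y : ℂ) * α θ := by
    intro θ hθ
    have hs := Real.sin_pos_of_mem_Ioo hθ
    rw [hE' θ hθ, abs_mul, abs_mul, abs_neg, hεabs, one_mul, abs_of_pos hy,
      abs_of_pos (by positivity : (0 : ℝ) < 1 / Real.sin θ ^ 2), Complex.real_smul]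
    unfold sa
    rw [← mul_assoc, ← Complex.ofReal_mul, mul_assoc y, one_div,
      inv_mul_cancel₀ (pow_ne_zero 2 hs.ne'), mul_one]
  constructor
  · rw [← integrableOn_univ, ← himg, integrableOn_image_iff_integrableOn_abs_deriv_smul
      measurableSet_Ioo hder hinj]
    have h1 : IntegrableOn (fun θ => (y : ℂ) * α θ) (Ioo 0 Real.pi) := by
      apply IntegrableOn.mono_set _ Ioo_subset_Icc_self
      apply ContinuousOn.integrableOn_compact isCompact_Icc
      have := hα.smooth.continuous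
      fun_prop
    exact h1.congr_fun (fun θ hθ => (hpt θ hθ).symm) measurableSet_Ioo
  · rw [← setIntegral_univ, ← himg, integral_image_eq_integral_abs_deriv_smul
      measurableSet_Ioo hder hinj, setIntegral_congr_fun measurableSet_Ioo hpt,
      integral_const_mul]

/-! ## The integral over the whole line -/

theorem cpi_coe (γ : SL(2, ℤ)) (z : ℍ) : ((γ • z : ℍ) : ℂ) =
    (((γ 0 0 : ℤ) : ℂ) * z + ((γ 0 1 : ℤ) : ℂ)) / (((γ 1 0 : ℤ) : ℂ) * z + ((γ 1 1 : ℤ) : ℂ)) := by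
  rw [coe_specialLinearGroup_apply]
  simp

theorem cpi_det (γ : SL(2, ℤ)) : γ 0 0 * γ 1 1 - γ 0 1 * γ 1 0 = 1 := by
  have := γ.det_coe
  rwa [Matrix.det_fin_two] at this

theorem cpi_den (γ : SL(2, ℤ)) (z : ℍ) :
    ((γ 1 0 : ℤ) : ℂ) * z + ((γ 1 1 : ℤ) : ℂ) ≠ 0 := by
  intro h
  have him : (((γ 1 0 : ℤ) : ℂ) * z + ((γ 1 1 : ℤ) : ℂ)).im = (γ 1 0 : ℝ) * z.im := by
    simp
  rw [h] at him
  have h1 : (γ 1 0 : ℝ) * z.im = 0 := by rw [← him]; simp
  have h2 : (γ 1 0 : ℝ) = 0 := (mul_eq_zero.1 h1).resolve_right z.im_pos.ne'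
  have h3 : γ 1 0 = 0 := by exact_mod_cast h2
  rw [h3] at h
  have h4 : γ 1 1 = 0 := by
    have : ((γ 1 1 : ℤ) : ℂ) = 0 := by simpa using h
    exact_mod_cast this
  have := cpi_det γ
  rw [h3, h4] at this
  simp at this

theorem cpi_J {α : ℝ → ℂ} (hα : TB α) (h0 : ∫ t in Ioo 0 Real.pi, α t = 0) {y : ℝ} (hy : 0 < y)
    (γ : SL(2, ℤ)) : Integrable (fun t : ℝ => sa α (Complex.arg ((γ • cpi_z y hy t : ℍ) : ℂ))) ∧
    ∫ t : ℝ, sa α (Complex.arg ((γ • cpi_z y hy t : ℍ) : ℂ)) =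
      if γ 0 0 * γ 1 0 ≠ 0 then ((|((γ 0 0 : ℤ) * (γ 1 0 : ℤ) : ℝ)|⁻¹ : ℝ) : ℂ) *
        jj (if 0 < γ 0 0 * γ 1 0 then -1 else 1) α (y * |((γ 0 0 : ℤ) * (γ 1 0 : ℤ) : ℝ)|) else 0 := by
  have hdet := cpi_det γ
  by_cases hac : γ 0 0 * γ 1 0 = 0
  · rw [if_neg (not_not.2 hac)]
    rcases mul_eq_zero.1 hac with ha | hc
    · -- `a = 0`
      obtain ⟨m, hm⟩ : ∃ m : ℤ, m = γ 1 0 * γ 1 1 := ⟨_, rfl⟩
      have hbc : γ 0 1 * γ 1 0 = -1 := by rw [ha] at hdet; linarith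
      obtain ⟨E, hE⟩ : ∃ E : ℝ → ℝ, E = fun t : ℝ => Complex.arg (-1 / ((t : ℂ) + y * I)) :=
        ⟨_, rfl⟩
      have hEt : ∀ θ ∈ Ioo 0 Real.pi, E (-1 * (y * (Real.cos θ / Real.sin θ))) = θ := by
        intro θ hθ
        have hs := Real.sin_pos_of_mem_Ioo hθ
        have hsc : ((Real.sin θ : ℝ) : ℂ) ≠ 0 := by exact_mod_cast hs.ne'
        have hyc : (y : ℂ) ≠ 0 := by exact_mod_cast hy.ne'
        rw [hE]
        simp only
        have e0 : ((Real.cos θ : ℝ) : ℂ) ^ 2 + ((Real.sin θ : ℝ) : ℂ) ^ 2 = 1 := by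
          have := Real.cos_sq_add_sin_sq θ
          exact_mod_cast this
        have e1 : (((-1 * (y * (Real.cos θ / Real.sin θ)) : ℝ) : ℂ) + y * I) =
            (((y / Real.sin θ : ℝ) : ℝ) : ℂ) * (-((Real.cos θ : ℝ) : ℂ) +
              ((Real.sin θ : ℝ) : ℂ) * I) := by
          rw [Complex.ofReal_div, Complex.ofReal_mul, Complex.ofReal_mul, Complex.ofReal_div]
          field_simp
          push_cast
          ring
        have e2 : (-((Real.cos θ : ℝ) : ℂ) + ((Real.sin θ : ℝ) : ℂ) * I) *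
            (-(((Real.cos θ : ℝ) : ℂ) + ((Real.sin θ : ℝ) : ℂ) * I)) = 1 := by
          linear_combination e0 - ((Real.sin θ : ℝ) : ℂ) ^ 2 * Complex.I_sq
        have e2ne : (-((Real.cos θ : ℝ) : ℂ) + ((Real.sin θ : ℝ) : ℂ) * I) ≠ 0 :=
          left_ne_zero_of_mul (by rw [e2]; exact one_ne_zero)
        have e3 : -1 / (((-1 * (y * (Real.cos θ / Real.sin θ)) : ℝ) : ℂ) + y * I) =
            (((Real.sin θ / y : ℝ) : ℝ) : ℂ) * (Complex.cos θ + Complex.sin θ * I) := by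
          have hys : (((y / Real.sin θ : ℝ) : ℝ) : ℂ) ≠ 0 := by
            exact_mod_cast (div_pos hy hs).ne'
          rw [e1, div_eq_iff (mul_ne_zero hys e2ne)]
          have e4 : (((Real.sin θ / y : ℝ) : ℝ) : ℂ) * (((y / Real.sin θ : ℝ) : ℝ) : ℂ) = 1 := by
            rw [← Complex.ofReal_mul]
            have : Real.sin θ / y * (y / Real.sin θ) = 1 := by field_simp
            rw [this, Complex.ofReal_one]
          rw [← Complex.ofReal_cos, ← Complex.ofReal_sin]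
          linear_combination (-(-((Real.cos θ : ℝ) : ℂ) + ((Real.sin θ : ℝ) : ℂ) * I) *
            (((Real.cos θ : ℝ) : ℂ) + ((Real.sin θ : ℝ) : ℂ) * I)) * e4 + e2
        rw [e3]
        exact Complex.arg_mul_cos_add_sin_mul_I (div_pos hs hy)
          ⟨by linarith [hθ.1, Real.pi_pos], hθ.2.le⟩
      obtain ⟨i1, i2⟩ := cpi_cot hα hy (ε := -1) (by norm_num) hEt
      have hfun : ∀ t : ℝ, sa α (Complex.arg ((γ • cpi_z y hy t : ℍ) : ℂ)) =
          sa α (E (t + (m : ℝ))) := by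
        intro t
        rw [hE]
        simp only
        congr 2
        rw [cpi_coe]
        have hz : ((cpi_z y hy t : ℍ) : ℂ) = (t : ℂ) + y * I := rfl
        have hden := cpi_den γ (cpi_z y hy t)
        rw [hz] at hden ⊢
        have hb2 : ((γ 0 1 : ℤ) : ℂ) * ((γ 1 0 : ℤ) : ℂ) = -1 := by exact_mod_cast hbc
        have hc2 : ((γ 1 0 : ℤ) : ℂ) * ((γ 1 0 : ℤ) : ℂ) = 1 := by
          have h1 : γ 1 0 * γ 1 0 = 1 := by
            have : γ 1 0 = 1 ∨ γ 1 0 = -1 :=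
              Int.eq_one_or_neg_one_of_mul_eq_one (v := -γ 0 1) (by linarith)
            rcases this with h | h <;> rw [h] <;> norm_num
          exact_mod_cast h1
        have hden2 : ((t + (m : ℝ) : ℝ) : ℂ) + y * I =
            ((γ 1 0 : ℤ) : ℂ) * (((γ 1 0 : ℤ) : ℂ) * ((t : ℂ) + y * I) + ((γ 1 1 : ℤ) : ℂ)) := by
          rw [hm]
          push_cast
          linear_combination (-((t : ℂ) + y * I)) * hc2
        have hcne : ((γ 1 0 : ℤ) : ℂ) ≠ 0 := left_ne_zero_of_mul (by rw [hc2]; exact one_ne_zero)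
        rw [hden2, ha, Int.cast_zero, zero_mul, zero_add, div_eq_div_iff hden
          (mul_ne_zero hcne hden)]
        linear_combination (((γ 1 0 : ℤ) : ℂ) * ((t : ℂ) + y * I) + ((γ 1 1 : ℤ) : ℂ)) * hb2
      simp only [hfun]
      constructor
      · exact i1.comp_add_right (m : ℝ)
      · rw [integral_add_right_eq_self (fun t : ℝ => sa α (E t)) (m : ℝ), i2, h0, mul_zero]
    · -- `c = 0`
      obtain ⟨m, hm⟩ : ∃ m : ℤ, m = γ 0 1 * γ 1 1 := ⟨_, rfl⟩
      have had : γ 0 0 * γ 1 1 = 1 := by rw [hc] at hdet; linarith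
      obtain ⟨E, hE⟩ : ∃ E : ℝ → ℝ, E = fun t : ℝ => Complex.arg ((t : ℂ) + y * I) :=
        ⟨_, rfl⟩
      have hEt : ∀ θ ∈ Ioo 0 Real.pi, E (1 * (y * (Real.cos θ / Real.sin θ))) = θ := by
        intro θ hθ
        have hs := Real.sin_pos_of_mem_Ioo hθ
        have hsc : ((Real.sin θ : ℝ) : ℂ) ≠ 0 := by exact_mod_cast hs.ne'
        rw [hE]
        simp only
        have e3 : (((1 * (y * (Real.cos θ / Real.sin θ)) : ℝ) : ℂ) + y * I) =
            (((y / Real.sin θ : ℝ) : ℝ) : ℂ) * (Complex.cos θ + Complex.sin θ * I) := by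
          rw [← Complex.ofReal_cos, ← Complex.ofReal_sin, Complex.ofReal_div, Complex.ofReal_mul,
            Complex.ofReal_mul, Complex.ofReal_div]
          field_simp
          push_cast
          ring
        rw [e3]
        exact Complex.arg_mul_cos_add_sin_mul_I (div_pos hy hs)
          ⟨by linarith [hθ.1, Real.pi_pos], hθ.2.le⟩
      obtain ⟨i1, i2⟩ := cpi_cot hα hy (ε := 1) (by norm_num) hEt
      have hfun : ∀ t : ℝ, sa α (Complex.arg ((γ • cpi_z y hy t : ℍ) : ℂ)) =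
          sa α (E (t + (m : ℝ))) := by
        intro t
        rw [hE]
        simp only
        congr 2
        rw [cpi_coe]
        have hz : ((cpi_z y hy t : ℍ) : ℂ) = (t : ℂ) + y * I := rfl
        have hden := cpi_den γ (cpi_z y hy t)
        rw [hz] at hden ⊢
        have ha2 : ((γ 0 0 : ℤ) : ℂ) * ((γ 1 1 : ℤ) : ℂ) = 1 := by exact_mod_cast had
        have hd2 : ((γ 1 1 : ℤ) : ℂ) * ((γ 1 1 : ℤ) : ℂ) = 1 := by
          have h1 : γ 1 1 * γ 1 1 = 1 := by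
            have : γ 1 1 = 1 ∨ γ 1 1 = -1 :=
              Int.eq_one_or_neg_one_of_mul_eq_one (v := γ 0 0) (by linarith)
            rcases this with h | h <;> rw [h] <;> norm_num
          exact_mod_cast h1
        rw [hc] at hden ⊢
        rw [div_eq_iff hden, hm]
        push_cast
        linear_combination (((t : ℂ) + y * I) * ((γ 1 1 : ℤ) : ℂ)) * ha2 +
          (-((γ 0 0 : ℤ) : ℂ) * ((t : ℂ) + y * I) - ((γ 0 1 : ℤ) : ℂ)) * hd2
      simp only [hfun]
      constructor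
      · exact i1.comp_add_right (m : ℝ)
      · rw [integral_add_right_eq_self (fun t : ℝ => sa α (E t)) (m : ℝ), i2, h0, mul_zero]
  · -- `a c ≠ 0`
    rw [if_pos hac]
    obtain ⟨σ, hσ⟩ : ∃ σ : ℝ, σ = if 0 < γ 0 0 * γ 1 0 then -1 else 1 := ⟨_, rfl⟩
    rw [← hσ]
    obtain ⟨A, hA⟩ : ∃ A : ℝ, A = |((γ 0 0 : ℤ) * (γ 1 0 : ℤ) : ℝ)| := ⟨_, rfl⟩
    rw [← hA]
    have hacr : ((γ 0 0 : ℤ) * (γ 1 0 : ℤ) : ℝ) ≠ 0 := by exact_mod_cast hac
    have hA0 : 0 < A := by rw [hA]; exact abs_pos.2 hacr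
    have hσA : σ * A = -((γ 0 0 : ℤ) * (γ 1 0 : ℤ) : ℝ) := by
      rw [hσ, hA]
      split_ifs with h
      · have h' : (0 : ℝ) < ((γ 0 0 : ℤ) * (γ 1 0 : ℤ) : ℝ) := by exact_mod_cast h
        rw [abs_of_pos h']; ring
      · have h' : ((γ 0 0 : ℤ) * (γ 1 0 : ℤ) : ℝ) < 0 := by
          have : γ 0 0 * γ 1 0 < 0 := lt_of_le_of_ne (not_lt.1 h) hac
          exact_mod_cast this
        rw [abs_of_neg h']; ring
    have hσ2 : σ ^ 2 = 1 := by rw [hσ]; split_ifs <;> norm_num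
    have hc : γ 1 0 ≠ 0 := right_ne_zero_of_mul hac
    have hcr : (γ 1 0 : ℝ) ≠ 0 := by exact_mod_cast hc
    obtain ⟨q, hq⟩ : ∃ q : ℝ, q = (γ 1 1 : ℝ) / (γ 1 0 : ℝ) := ⟨_, rfl⟩
    have hfun : ∀ t : ℝ, sa α (Complex.arg ((γ • cpi_z y hy t : ℍ) : ℂ)) =
        sa α (thA σ (A * (t + q)) (y * A)) := by
      intro t
      congr 1
      unfold thA
      have hz : ((cpi_z y hy t : ℍ) : ℂ) = (t : ℂ) + y * I := rfl
      have hden := cpi_den γ (cpi_z y hy t)
      rw [hz] at hden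
      have hcc : ((γ 1 0 : ℤ) : ℂ) ≠ 0 := by exact_mod_cast hc
      have hAc : (A : ℂ) ≠ 0 := by exact_mod_cast hA0.ne'
      have hr : 0 < (γ 1 0 : ℝ) ^ 2 / A := by positivity
      rw [← Complex.arg_real_mul ((γ • cpi_z y hy t : ℍ) : ℂ) hr, cpi_coe, hz]
      congr 1
      have hdetc : ((γ 0 0 : ℤ) : ℂ) * ((γ 1 1 : ℤ) : ℂ) -
          ((γ 0 1 : ℤ) : ℂ) * ((γ 1 0 : ℤ) : ℂ) = 1 := by exact_mod_cast hdet
      have hσAc : (σ : ℂ) * (A : ℂ) = -(((γ 0 0 : ℤ) : ℂ) * ((γ 1 0 : ℤ) : ℂ)) := by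
        exact_mod_cast congrArg (fun x : ℝ => (x : ℂ)) hσA
      have e1 : ((A * (t + q) : ℝ) : ℂ) + ((y * A : ℝ) : ℂ) * I =
          (A : ℂ) * ((((γ 1 0 : ℤ) : ℂ) * ((t : ℂ) + y * I) + ((γ 1 1 : ℤ) : ℂ)) /
            ((γ 1 0 : ℤ) : ℂ)) := by
        rw [hq]
        push_cast
        field_simp
        ring
      rw [e1]
      have e2 : -(σ : ℂ) = (((γ 0 0 : ℤ) : ℂ) * ((γ 1 0 : ℤ) : ℂ)) / (A : ℂ) := by
        rw [eq_div_iff hAc]
        linear_combination -hσAc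
      rw [e2]
      push_cast
      field_simp
      linear_combination -hdetc
    simp only [hfun]
    have hyA : 0 < y * A := by positivity
    obtain ⟨-, hint⟩ := jj_cont hσ2 hα
    have hi := hint (y * A) hyA
    constructor
    · have h1 : Integrable (fun t : ℝ => sa α (thA σ (A * t) (y * A))) :=
        hi.comp_mul_left' hA0.ne'
      exact h1.comp_add_right q
    · rw [integral_add_right_eq_self (fun t : ℝ => sa α (thA σ (A * t) (y * A))) q,
        Measure.integral_comp_mul_left (fun t : ℝ => sa α (thA σ t (y * A))) A, abs_inv,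
        abs_of_pos hA0, Complex.real_smul]
      rfl

/-! ## The sum over the columns -/

section

variable {N : ℕ} [NeZero N]

theorem cpi_bot (γ : SL(2, ℤ)) (v : ZMod N × ZMod N) : bot ((red N γ)⁻¹) = v ↔
    ((γ 0 0 : ℤ) : ZMod N) = v.2 ∧ ((γ 1 0 : ℤ) : ZMod N) = -v.1 := by
  have h1 : bot ((red N γ)⁻¹) = (-((γ 1 0 : ℤ) : ZMod N), ((γ 0 0 : ℤ) : ZMod N)) := by
    unfold bot red
    rw [Matrix.SpecialLinearGroup.SL2_inv_expl]
    simp
  rw [h1, Prod.ext_iff]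
  constructor
  · rintro ⟨h2, h3⟩
    exact ⟨h3, by rw [← h2]; simp⟩
  · rintro ⟨h2, h3⟩
    exact ⟨by simp only; rw [h3]; ring, h2⟩

theorem cpi_T {y : ℝ} (hy : 0 < y) (n : ℤ) (t : ℝ) :
    ModularGroup.T ^ n • cpi_z y hy t = cpi_z y hy (t + n) := by
  rw [modular_T_zpow_smul]
  apply UpperHalfPlane.ext
  rw [coe_vadd]
  show ((n : ℝ) : ℂ) + ((t : ℂ) + y * I) = (((t + n : ℝ)) : ℂ) + y * I
  push_cast
  ring

/-- the elements with a given first column -/
theorem cpi_fiber (g : SL(2, ℤ)) (f : SL(2, ℤ) → ℂ) :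
    ∑' b : ↑((fun γ : SL(2, ℤ) => ((γ 0 0 : ℤ), (γ 1 0 : ℤ))) ⁻¹' {((g 0 0 : ℤ), (g 1 0 : ℤ))}),
      f b = ∑' n : ℤ, f (g * ModularGroup.T ^ n) := by
  have hmul : ∀ n : ℤ, (g * ModularGroup.T ^ n) 0 0 = g 0 0 ∧
      (g * ModularGroup.T ^ n) 1 0 = g 1 0 ∧ (g * ModularGroup.T ^ n) 0 1 = g 0 0 * n + g 0 1 ∧
      (g * ModularGroup.T ^ n) 1 1 = g 1 0 * n + g 1 1 := by
    intro n
    have hT : ((ModularGroup.T ^ n : SL(2, ℤ)) : Matrix (Fin 2) (Fin 2) ℤ) = !![1, n; 0, 1] :=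
      ModularGroup.coe_T_zpow n
    refine ⟨?_, ?_, ?_, ?_⟩ <;>
    · rw [Matrix.SpecialLinearGroup.coe_mul, hT, Matrix.mul_apply]
      simp
  have hbij : Function.Bijective (fun n : ℤ =>
      (⟨g * ModularGroup.T ^ n, by
        show ((g * ModularGroup.T ^ n) 0 0, (g * ModularGroup.T ^ n) 1 0) = _
        rw [(hmul n).1, (hmul n).2.1]⟩ :
        ↑((fun γ : SL(2, ℤ) => ((γ 0 0 : ℤ), (γ 1 0 : ℤ))) ⁻¹'
          {((g 0 0 : ℤ), (g 1 0 : ℤ))}))) := by
    constructor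
    · intro n m hnm
      have h1 : g * ModularGroup.T ^ n = g * ModularGroup.T ^ m := congrArg Subtype.val hnm
      have h2 : ModularGroup.T ^ n = ModularGroup.T ^ m := mul_left_cancel h1
      have h3 : ((ModularGroup.T ^ n : SL(2, ℤ)) : Matrix (Fin 2) (Fin 2) ℤ) 0 1 =
          ((ModularGroup.T ^ m : SL(2, ℤ)) : Matrix (Fin 2) (Fin 2) ℤ) 0 1 := by rw [h2]
      rw [ModularGroup.coe_T_zpow, ModularGroup.coe_T_zpow] at h3
      simpa using h3
    · rintro ⟨γ, hγ⟩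
      have hγ' : ((γ 0 0 : ℤ), (γ 1 0 : ℤ)) = ((g 0 0 : ℤ), (g 1 0 : ℤ)) := hγ
      have ha : γ 0 0 = g 0 0 := (Prod.ext_iff.1 hγ').1
      have hc : γ 1 0 = g 1 0 := (Prod.ext_iff.1 hγ').2
      have d1 := cpi_det γ
      have d2 := cpi_det g
      rw [ha, hc] at d1
      refine ⟨g 1 1 * γ 0 1 - g 0 1 * γ 1 1, ?_⟩
      apply Subtype.ext
      show g * ModularGroup.T ^ (g 1 1 * γ 0 1 - g 0 1 * γ 1 1) = γ
      obtain ⟨m1, m2, m3, m4⟩ := hmul (g 1 1 * γ 0 1 - g 0 1 * γ 1 1)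
      apply Matrix.SpecialLinearGroup.ext
      intro i j
      fin_cases i <;> fin_cases j
      · exact m1.trans ha.symm
      · refine m3.trans ?_
        show g 0 0 * (g 1 1 * γ 0 1 - g 0 1 * γ 1 1) + g 0 1 = γ 0 1
        linear_combination (γ 0 1) * d2 - (g 0 1) * d1
      · exact m2.trans hc.symm
      · refine m4.trans ?_
        show g 1 0 * (g 1 1 * γ 0 1 - g 0 1 * γ 1 1) + g 1 1 = γ 1 1
        linear_combination (γ 1 1) * d2 - (g 1 1) * d1
  rw [← (Equiv.ofBijective _ hbij).tsum_eq]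
  rfl

open scoped Classical in
theorem cpi_pr {α : ℝ → ℂ} (hα : TB α) (h0 : ∫ t in Ioo 0 Real.pi, α t = 0) {v : ZMod N × ZMod N}
    (hv : v ∈ PV N) {y : ℝ} (hy : 0 < y) :
    cH (PiA N α) v y = (1 / (4 * Real.pi * N) : ℝ) * ∑' p : ℤ × ℤ,
      if IsCoprime p.1 p.2 ∧ (p.1 : ZMod N) = v.2 ∧ (p.2 : ZMod N) = -v.1 ∧ p.1 * p.2 ≠ 0 then
        ((|(p.1 * p.2 : ℝ)|⁻¹ : ℝ) : ℂ) *
          jj (if 0 < p.1 * p.2 then -1 else 1) α (y * |(p.1 * p.2 : ℝ)|) else 0 := by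
  obtain ⟨Γ₀, hΓ⟩ := cpi_fin hα hy
  -- the integral over one period
  have hI0 : ∀ γ ∉ Γ₀, cpi_I α y hy γ = 0 := by
    intro γ hγ
    unfold cpi_I
    rw [intervalIntegral.integral_congr (g := fun _ => (0 : ℂ))]
    · simp
    · intro t ht
      rw [uIcc_of_le zero_le_one] at ht
      exact hΓ γ hγ t ht
  have hB : ∀ s : QN N, ∫ t in (0 : ℝ)..1, PiA N α s (UpperHalfPlane.ofComplex (t + y * Complex.I)) =
      (1 / (4 * Real.pi)) * ∑ γ ∈ Γ₀, if red N γ * s = 1 then cpi_I α y hy γ else 0 := by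
    intro s
    have h1 : ∫ t in (0 : ℝ)..1, PiA N α s (UpperHalfPlane.ofComplex (t + y * Complex.I)) =
        ∫ t in (0 : ℝ)..1, (1 / (4 * Real.pi)) * ∑ γ ∈ Γ₀, (if red N γ * s = 1 then
          sa α (Complex.arg ((γ • cpi_z y hy t : ℍ) : ℂ)) else 0) := by
      apply intervalIntegral.integral_congr
      intro t ht
      rw [uIcc_of_le zero_le_one] at ht
      simp only
      rw [cpi_of hy]
      unfold PiA
      congr 1
      refine (tsum_eq_sum ?_).trans (Finset.sum_congr rfl fun γ _ => rfl)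
      intro γ hγ
      have := hΓ γ hγ t ht
      unfold sa at this
      rw [this]
      simp
    rw [h1, intervalIntegral.integral_const_mul, intervalIntegral.integral_finsetSum]
    · congr 1
      apply Finset.sum_congr rfl
      intro γ _
      by_cases hγ : red N γ * s = 1
      · simp only [if_pos hγ]
        rfl
      · simp only [if_neg hγ]
        simp
    · intro γ _
      by_cases hγ : red N γ * s = 1
      · simp only [if_pos hγ]
        exact (cpi_sa_cont hα hy γ).intervalIntegrable _ _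
      · simp only [if_neg hγ]
        exact intervalIntegrable_const
  obtain ⟨G, hG⟩ : ∃ G : SL(2, ℤ) → ℂ, G = fun γ =>
    if ((γ 0 0 : ℤ) : ZMod N) = v.2 ∧ ((γ 1 0 : ℤ) : ZMod N) = -v.1 then cpi_I α y hy γ else 0 :=
    ⟨_, rfl⟩
  have hC : cH (PiA N α) v y = (1 / (4 * Real.pi * N) : ℝ) * ∑ γ ∈ Γ₀, G γ := by
    unfold cH
    simp only [hB]
    have h1 : ∀ s : QN N, (if bot s = v then (1 / (4 * (Real.pi : ℂ))) * ∑ γ ∈ Γ₀,
        (if red N γ * s = 1 then cpi_I α y hy γ else 0) else 0) =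
        (1 / (4 * (Real.pi : ℂ))) * ∑ γ ∈ Γ₀, (if bot s = v then
          (if red N γ * s = 1 then cpi_I α y hy γ else 0) else 0) := by
      intro s
      by_cases h : bot s = v
      · simp only [if_pos h]
      · simp only [if_neg h]
        simp
    simp only [h1]
    rw [← Finset.mul_sum, Finset.sum_comm]
    have h2 : ∀ γ ∈ Γ₀, ∑ s : QN N, (if bot s = v then
        (if red N γ * s = 1 then cpi_I α y hy γ else 0) else 0) = G γ := by
      intro γ _
      rw [Finset.sum_eq_single ((red N γ)⁻¹)]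
      · rw [hG]
        simp only
        by_cases h : bot ((red N γ)⁻¹) = v
        · rw [if_pos h, if_pos (mul_inv_cancel _), if_pos ((cpi_bot γ v).1 h)]
        · rw [if_neg h, if_neg (fun h' => h ((cpi_bot γ v).2 h'))]
      · intro s _ hs
        have : red N γ * s ≠ 1 := by
          intro h
          exact hs (eq_inv_of_mul_eq_one_right h)
        rw [if_neg this, ite_self]
      · intro h
        exact absurd (Finset.mem_univ _) h
    rw [Finset.sum_congr rfl h2]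
    have hN : (N : ℂ) ≠ 0 := by exact_mod_cast NeZero.ne N
    have hpi : (Real.pi : ℂ) ≠ 0 := by exact_mod_cast Real.pi_ne_zero
    push_cast
    field_simp
  rw [hC]
  congr 1
  have hsum : HasSum G (∑ γ ∈ Γ₀, G γ) := by
    apply hasSum_sum_of_ne_finset_zero
    intro γ hγ
    rw [hG]
    simp only
    rw [hI0 γ hγ, ite_self]
  have hfib := hsum.tsum_fiberwise (fun γ : SL(2, ℤ) => ((γ 0 0 : ℤ), (γ 1 0 : ℤ)))
  rw [← hfib.tsum_eq]
  apply tsum_congr
  intro p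
  by_cases hcop : IsCoprime p.1 p.2
  · obtain ⟨g, hg0, hg1⟩ := hcop.exists_SL2_col 0
    have hp : p = ((g 0 0 : ℤ), (g 1 0 : ℤ)) := Prod.ext hg0.symm hg1.symm
    rw [hp, cpi_fiber g G]
    have hterm : ∀ n : ℤ, G (g * ModularGroup.T ^ n) =
        if ((g 0 0 : ℤ) : ZMod N) = v.2 ∧ ((g 1 0 : ℤ) : ZMod N) = -v.1 then
          ∫ t in (0 : ℝ)..1, sa α (Complex.arg ((g • cpi_z y hy (t + n) : ℍ) : ℂ)) else 0 := by
      intro n
      have hT : ((ModularGroup.T ^ n : SL(2, ℤ)) : Matrix (Fin 2) (Fin 2) ℤ) = !![1, n; 0, 1] :=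
        ModularGroup.coe_T_zpow n
      have m1 : (g * ModularGroup.T ^ n) 0 0 = g 0 0 := by
        rw [Matrix.SpecialLinearGroup.coe_mul, hT, Matrix.mul_apply]
        simp
      have m2 : (g * ModularGroup.T ^ n) 1 0 = g 1 0 := by
        rw [Matrix.SpecialLinearGroup.coe_mul, hT, Matrix.mul_apply]
        simp
      rw [hG]
      simp only
      rw [m1, m2]
      unfold cpi_I
      simp only [mul_smul, cpi_T hy n]
    simp only [hterm]
    by_cases hcl : ((g 0 0 : ℤ) : ZMod N) = v.2 ∧ ((g 1 0 : ℤ) : ZMod N) = -v.1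
    · simp only [if_pos hcl]
      obtain ⟨j1, j2⟩ := cpi_J hα h0 hy g
      have h3 := j1.hasSum_intervalIntegral_comp_add_int
      rw [h3.tsum_eq, j2]
      by_cases hac : g 0 0 * g 1 0 ≠ 0
      · have hcop' : IsCoprime (g 0 0) (g 1 0) := by rw [hp] at hcop; exact hcop
        have hcond : IsCoprime (g 0 0) (g 1 0) ∧ ((g 0 0 : ℤ) : ZMod N) = v.2 ∧
          ((g 1 0 : ℤ) : ZMod N) = -v.1 ∧ g 0 0 * g 1 0 ≠ 0 := ⟨hcop', hcl.1, hcl.2, hac⟩
        rw [if_pos hac]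
        exact (if_pos hcond).symm
      · rw [if_neg hac, if_neg (fun h => hac h.2.2.2)]
    · simp only [if_neg hcl]
      rw [tsum_zero, if_neg (fun h => hcl ⟨h.2.1, h.2.2.1⟩)]
  · rw [if_neg (fun h => hcop h.1)]
    have hemp : IsEmpty ↑((fun γ : SL(2, ℤ) => ((γ 0 0 : ℤ), (γ 1 0 : ℤ))) ⁻¹' {p}) := by
      constructor
      rintro ⟨γ, hγ⟩
      apply hcop
      have hγ' : ((γ 0 0 : ℤ), (γ 1 0 : ℤ)) = p := hγ
      have ha : γ 0 0 = p.1 := by rw [← hγ']
      have hc : γ 1 0 = p.2 := by rw [← hγ']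
      have d := cpi_det γ
      rw [← ha, ← hc]
      exact ⟨γ 1 1, -γ 0 1, by linarith⟩
    exact tsum_empty

end

end Pool.Agent.JO
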