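import Pool.Agent.Lib_helper84.JO6.N2

/-!
# Project JO, part E6: the Mellin transform of the constant term of the dual family
-/

set_option autoImplicit false

namespace Pool.Agent.JO

open Complex MeasureTheory Filter Topology Set ModularGroup
open UpperHalfPlane hiding I
open Pool.Agent.Lib_helper37.JO (HJ)
open scoped MatrixGroups ComplexConjugate ContDiff

section

variable {N : ℕ} [NeZero N]

theorem mlp_cH_bdd {f : QN N → ℍ → ℂ} {B : ℝ} (hb : ∀ s z, ‖f s z‖ ≤ B) (v : ZMod N × ZMod N)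
    (y : ℝ) : ‖cH f v y‖ ≤ ‖(N : ℂ)⁻¹‖ * ((Fintype.card (QN N) : ℝ) * B) := by
  have hB : 0 ≤ B := (norm_nonneg _).trans (hb 1 UpperHalfPlane.I)
  unfold cH
  rw [norm_mul]
  refine mul_le_mul_of_nonneg_left ?_ (norm_nonneg _)
  refine (norm_sum_le _ _).trans ?_
  have h1 : ∀ s ∈ (Finset.univ : Finset (QN N)), ‖(if bot s = v then
      ∫ t in (0 : ℝ)..1, f s (UpperHalfPlane.ofComplex (t + y * Complex.I)) else 0)‖ ≤ B := by
    intro s _
    split_ifs
    · have h2 := intervalIntegral.norm_integral_le_of_norm_le_const (a := (0 : ℝ)) (b := 1)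
        (f := fun t => f s (UpperHalfPlane.ofComplex (t + y * Complex.I))) (C := B)
        (fun t _ => hb s _)
      simpa using h2
    · simpa using hB
  refine (Finset.sum_le_sum h1).trans ?_
  rw [Finset.sum_const, nsmul_eq_mul]
  rfl

theorem mlp_vanish {α : ℝ → ℂ} (hα : TB α) (h0 : ∫ t in Ioo 0 Real.pi, α t = 0)
    {v : ZMod N × ZMod N} (hv : v ∈ PV N) : ∃ Y : ℝ, 0 < Y ∧ ∀ y : ℝ, Y ≤ y →
      cH (PiA N α) v y = 0 := by
  classical
  obtain ⟨Y₁, hY₁, h1⟩ := jj_supp (σ := 1) (by norm_num) hα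
  obtain ⟨Y₂, hY₂, h2⟩ := jj_supp (σ := -1) (by norm_num) hα
  refine ⟨max Y₁ Y₂, lt_max_of_lt_left hY₁, fun y hy => ?_⟩
  have hy0 : 0 < y := (lt_max_of_lt_left hY₁).trans_le hy
  rw [cpi hα h0 hv hy0]
  have h3 : (fun p : ℤ × ℤ => if IsCoprime p.1 p.2 ∧ (p.1 : ZMod N) = v.2 ∧
      (p.2 : ZMod N) = -v.1 ∧ p.1 * p.2 ≠ 0 then
        ((|(p.1 * p.2 : ℝ)|⁻¹ : ℝ) : ℂ) *
          jj (if 0 < p.1 * p.2 then -1 else 1) α (y * |(p.1 * p.2 : ℝ)|) else 0) =
      fun _ => 0 := by
    funext p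
    split_ifs with h4 h5
    · have h6 : (1 : ℝ) ≤ |(p.1 * p.2 : ℝ)| := by
        have : (1 : ℤ) ≤ |p.1 * p.2| := Int.one_le_abs h4.2.2.2
        exact_mod_cast this
      rw [h2 _ ((le_max_right _ _).trans (hy.trans (le_mul_of_one_le_right hy0.le h6))), mul_zero]
    · have h6 : (1 : ℝ) ≤ |(p.1 * p.2 : ℝ)| := by
        have : (1 : ℤ) ≤ |p.1 * p.2| := Int.one_le_abs h4.2.2.2
        exact_mod_cast this
      rw [h1 _ ((le_max_left _ _).trans (hy.trans (le_mul_of_one_le_right hy0.le h6))), mul_zero]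
    · rfl
  rw [h3, tsum_zero, mul_zero]

theorem mlp_conv {c : ℝ → ℂ} (hm : Measurable c) {B Y : ℝ} (hb : ∀ y, ‖c y‖ ≤ B) (hY0 : 0 < Y)
    (hY : ∀ y, Y ≤ y → c y = 0) {w : ℂ} (hw : w.re < 0) : MellinConvergent c (-w) := by
  unfold MellinConvergent
  have hB : 0 ≤ B := (norm_nonneg _).trans (hb 0)
  have h1 : IntegrableOn (fun t : ℝ => t ^ (-w.re - 1)) (Ioc 0 Y) := by
    rw [← intervalIntegrable_iff_integrableOn_Ioc_of_le hY0.le]
    exact intervalIntegral.intervalIntegrable_rpow' (by linarith)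
  have h2 : IntegrableOn (fun t : ℝ => (t : ℂ) ^ (-w - 1) • c t) (Ioc 0 Y) := by
    refine (h1.const_mul B).mono' ?_ ?_
    · exact ((Complex.measurable_ofReal.pow_const _).smul hm).aestronglyMeasurable
    · refine (ae_restrict_iff' measurableSet_Ioc).2 (Filter.Eventually.of_forall fun t ht => ?_)
      rw [norm_smul, Complex.norm_cpow_eq_rpow_re_of_pos ht.1, mul_comm]
      have : (-w - 1).re = -w.re - 1 := by simp
      rw [this]
      exact mul_le_mul_of_nonneg_right (hb t) (Real.rpow_nonneg ht.1.le _)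
  have h3 : IntegrableOn (fun t : ℝ => (t : ℂ) ^ (-w - 1) • c t) (Ioi Y) := by
    refine (integrableOn_zero).congr_fun (fun t ht => ?_) measurableSet_Ioi
    simp only
    rw [hY t (le_of_lt ht), smul_zero]
  rw [← Ioc_union_Ioi_eq_Ioi hY0.le]
  exact h2.union h3

open scoped Classical in
/-- the Mellin transform to the left of `0` -/
theorem mlp_left_pr {α : ℝ → ℂ} (hα : TB α) (h0 : ∫ t in Ioo 0 Real.pi, α t = 0)
    {v : ZMod N × ZMod N} (hv : v ∈ PV N) {w : ℂ} (hw : w.re < 0) :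
    MellinConvergent (cH (PiA N α) v) (-w) ∧
    mellin (cH (PiA N α) v) (-w) = (1 / (4 * Real.pi * N) : ℝ) *
      (ZN v 1 (1 - w) * (∫ θ in Ioo 0 Real.pi, α θ * FS 1 (1 - w) θ) +
        ZN v (-1) (1 - w) * ∫ θ in Ioo 0 Real.pi, α θ * FS (-1) (1 - w) θ) := by
  have hsq := pia_sq (N := N) hα h0
  obtain ⟨B, hB⟩ := pia_bdd (N := N) hα h0
  obtain ⟨Y, hY0, hY⟩ := mlp_vanish hα h0 hv
  refine ⟨mlp_conv (ch_meas hsq v) (fun y => mlp_cH_bdd hB v y) hY0 hY hw, ?_⟩
  -- the terms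
  set s : ℂ := 1 - w with hs
  have hsre : 1 < s.re := by
    rw [hs]
    simp only [sub_re, one_re]
    linarith
  set cnd : ℤ × ℤ → Prop := fun p => IsCoprime p.1 p.2 ∧ (p.1 : ZMod N) = v.2 ∧
      (p.2 : ZMod N) = -v.1 ∧ p.1 * p.2 ≠ 0 with hcnd
  set sg : ℤ × ℤ → ℝ := fun p => if 0 < p.1 * p.2 then -1 else 1 with hsg
  set n : ℤ × ℤ → ℝ := fun p => |(p.1 * p.2 : ℝ)| with hn
  have hsg2 : ∀ p, sg p ^ 2 = 1 := by
    intro p
    simp only [hsg]
    split_ifs <;> norm_num
  have hn1 : ∀ p, cnd p → 1 ≤ n p := by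
    intro p hp
    have : (1 : ℤ) ≤ |p.1 * p.2| := Int.one_le_abs hp.2.2.2
    simp only [hn]
    exact_mod_cast this
  set F : ℤ × ℤ → ℝ → ℂ := fun p y => if cnd p then
      (((n p)⁻¹ : ℝ) : ℂ) * ((y : ℂ) ^ (-w - 1) * jj (sg p) α (y * n p)) else 0 with hF
  -- one term
  have hMel : ∀ σ : ℝ, σ ^ 2 = 1 → MellinConvergent (jj σ α) (-w) ∧
      mellin (jj σ α) (-w) = ∫ θ in Ioo 0 Real.pi, α θ * FS σ s θ := by
    intro σ hσ
    have h := jj_mel hσ hα (s := s) (by linarith)
    have h1 : s - 1 = -w := by rw [hs]; ring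
    rwa [h1] at h
  have hterm : ∀ p, cnd p → IntegrableOn (F p) (Ioi 0) ∧
      ∫ y in Ioi (0 : ℝ), F p y = (n p : ℂ) ^ (-s) * mellin (jj (sg p) α) (-w) ∧
      ∫ y in Ioi (0 : ℝ), ‖F p y‖ = ‖(n p : ℂ) ^ (-s)‖ *
        ∫ y in Ioi (0 : ℝ), ‖(y : ℂ) ^ (-w - 1) * jj (sg p) α y‖ := by
    intro p hp
    have hnp : 0 < n p := by linarith [hn1 p hp]
    have hFe : ∀ y ∈ Ioi (0 : ℝ), F p y = ((n p : ℂ) ^ w) * (((y * n p : ℝ) : ℂ) ^ (-w - 1) *
        jj (sg p) α (y * n p)) := by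
      intro y hy
      have hy0 : (0 : ℝ) < y := hy
      simp only [hF, if_pos hp]
      have h1 : (((y * n p : ℝ)) : ℂ) ^ (-w - 1) = (y : ℂ) ^ (-w - 1) * (n p : ℂ) ^ (-w - 1) := by
        push_cast
        exact Complex.mul_cpow_ofReal_nonneg hy0.le hnp.le _
      have h2 : (n p : ℂ) ^ w * (n p : ℂ) ^ (-w - 1) = (((n p)⁻¹ : ℝ) : ℂ) := by
        rw [← Complex.cpow_add _ _ (by exact_mod_cast hnp.ne')]
        rw [show w + (-w - 1) = -1 by ring, Complex.cpow_neg_one, Complex.ofReal_inv]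
      rw [h1, ← h2]
      ring
    have hG : IntegrableOn (fun y : ℝ => (y : ℂ) ^ (-w - 1) * jj (sg p) α y) (Ioi 0) := by
      have := (hMel _ (hsg2 p)).1
      unfold MellinConvergent at this
      simpa only [smul_eq_mul] using this
    have hG2 : IntegrableOn (fun y : ℝ => ((y * n p : ℝ) : ℂ) ^ (-w - 1) *
        jj (sg p) α (y * n p)) (Ioi 0) := by
      have := (integrableOn_Ioi_comp_mul_right_iff
        (fun y : ℝ => (y : ℂ) ^ (-w - 1) * jj (sg p) α y) 0 hnp).2
      simp only [zero_mul] at this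
      exact this hG
    have hns : (n p : ℂ) ^ w * ((n p)⁻¹ : ℝ) = (n p : ℂ) ^ (-s) := by
      rw [hs, show -(1 - w) = w + (-1) by ring,
        Complex.cpow_add _ _ (by exact_mod_cast hnp.ne'), Complex.cpow_neg_one, Complex.ofReal_inv]
    refine ⟨?_, ?_, ?_⟩
    · have h5 : IntegrableOn (fun y : ℝ => ((n p : ℂ) ^ w) * (((y * n p : ℝ) : ℂ) ^ (-w - 1) *
        jj (sg p) α (y * n p))) (Ioi 0) := hG2.const_mul _
      exact h5.congr_fun (fun y hy => (hFe y hy).symm) measurableSet_Ioi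
    · rw [setIntegral_congr_fun measurableSet_Ioi hFe, integral_const_mul]
      have h3 := integral_comp_mul_right_Ioi
        (fun y : ℝ => (y : ℂ) ^ (-w - 1) * jj (sg p) α y) 0 hnp
      rw [h3]
      simp only [zero_mul]
      rw [← hns]
      unfold mellin
      simp only [smul_eq_mul, Complex.real_smul]
      ring
    · have h4 : ∀ y ∈ Ioi (0 : ℝ), ‖F p y‖ = ‖(n p : ℂ) ^ w‖ * ‖((y * n p : ℝ) : ℂ) ^ (-w - 1) *
          jj (sg p) α (y * n p)‖ := by
        intro y hy
        rw [hFe y hy, norm_mul]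
      rw [setIntegral_congr_fun measurableSet_Ioi h4, integral_const_mul]
      have h3 := integral_comp_mul_right_Ioi
        (fun y : ℝ => ‖(y : ℂ) ^ (-w - 1) * jj (sg p) α y‖) 0 hnp
      rw [h3]
      simp only [zero_mul]
      rw [← hns, norm_mul, Complex.norm_real, smul_eq_mul,
        Real.norm_of_nonneg (inv_nonneg.2 hnp.le)]
      ring
  -- the Dirichlet series
  have hZ : ∀ σ : ℝ, σ ^ 2 = 1 → Summable (fun p : ℤ × ℤ => ‖if cnd p ∧ sg p = σ then
      (n p : ℂ) ^ (-s) else 0‖) ∧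
      ∑' p : ℤ × ℤ, (if cnd p ∧ sg p = σ then (n p : ℂ) ^ (-s) else 0) = ZN v σ s := by
    intro σ hσ
    have h := zsr (N := N) hsre hv hσ
    have h1 : ∀ p : ℤ × ℤ, (IsCoprime p.1 p.2 ∧ (p.1 : ZMod N) = v.2 ∧
        (p.2 : ZMod N) = -v.1 ∧ σ * (p.1 * p.2 : ℝ) < 0) ↔ (cnd p ∧ sg p = σ) := by
      intro p
      have hσ' : σ = 1 ∨ σ = -1 := by
        have h9 : (σ - 1) * (σ + 1) = 0 := by nlinarith
        rcases mul_eq_zero.1 h9 with h10 | h10
        · left; linarith
        · right; linarith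
      simp only [hcnd, hsg]
      constructor
      · rintro ⟨h2, h3, h4, h5⟩
        refine ⟨⟨h2, h3, h4, ?_⟩, ?_⟩
        · intro h6
          have h7 : (p.1 * p.2 : ℝ) = 0 := by exact_mod_cast h6
          rw [h7, mul_zero] at h5
          exact lt_irrefl _ h5
        · rcases hσ' with h6 | h6
          · rw [h6, one_mul] at h5
            have h7 : p.1 * p.2 < 0 := by exact_mod_cast h5
            rw [if_neg (not_lt.2 h7.le), h6]
          · rw [h6] at h5
            have h7 : 0 < p.1 * p.2 := by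
              have : (0 : ℝ) < (p.1 * p.2 : ℝ) := by linarith
              exact_mod_cast this
            rw [if_pos h7, h6]
      · rintro ⟨⟨h2, h3, h4, h5⟩, h6⟩
        refine ⟨h2, h3, h4, ?_⟩
        rcases lt_or_gt_of_ne h5 with h7 | h7
        · rw [if_neg (not_lt.2 h7.le)] at h6
          rw [← h6, one_mul]
          exact_mod_cast h7
        · rw [if_pos h7] at h6
          rw [← h6]
          have : (0 : ℝ) < (p.1 * p.2 : ℝ) := by exact_mod_cast h7
          linarith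
    simp only [h1] at h
    exact h
  -- summability of the norms
  have hsum : Summable fun p : ℤ × ℤ => ∫ y in Ioi (0 : ℝ), ‖F p y‖ := by
    have h1 := (hZ 1 (by norm_num)).1.mul_right
      (∫ y in Ioi (0 : ℝ), ‖(y : ℂ) ^ (-w - 1) * jj 1 α y‖)
    have h2 := (hZ (-1) (by norm_num)).1.mul_right
      (∫ y in Ioi (0 : ℝ), ‖(y : ℂ) ^ (-w - 1) * jj (-1) α y‖)
    refine (h1.add h2).congr fun p => ?_
    by_cases hp : cnd p
    · rw [(hterm p hp).2.2]
      by_cases h3 : 0 < p.1 * p.2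
      · have h4 : sg p = -1 := by simp only [hsg, if_pos h3]
        have h5 : ¬ (-1 : ℝ) = 1 := by norm_num
        rw [h4]
        simp only [hp, h5, true_and, if_true, if_false, norm_zero, zero_mul, zero_add]
      · have h4 : sg p = 1 := by simp only [hsg, if_neg h3]
        have h5 : ¬ (1 : ℝ) = -1 := by norm_num
        rw [h4]
        simp only [hp, h5, true_and, if_true, if_false, norm_zero, zero_mul, add_zero]
    · have h6 : ∀ y, F p y = 0 := fun y => by simp only [hF, if_neg hp]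
      simp only [hp, false_and, if_false, norm_zero, zero_mul, add_zero, h6, integral_zero]
  have hint : ∀ p, Integrable (F p) (volume.restrict (Ioi 0)) := by
    intro p
    by_cases hp : cnd p
    · exact (hterm p hp).1
    · have h6 : F p = fun _ => 0 := by
        funext y
        simp only [hF, if_neg hp]
      rw [h6]
      exact integrable_zero _ _ _
  have hmain := hasSum_integral_of_summable_integral_norm hint hsum
  -- the left side
  have hL : mellin (cH (PiA N α) v) (-w) = (1 / (4 * Real.pi * N) : ℝ) *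
      ∫ y in Ioi (0 : ℝ), ∑' p : ℤ × ℤ, F p y := by
    unfold mellin
    rw [← integral_const_mul]
    refine setIntegral_congr_fun measurableSet_Ioi fun y hy => ?_
    rw [cpi hα h0 hv hy, smul_eq_mul]
    rw [← mul_assoc, mul_comm ((y : ℂ) ^ (-w - 1)), mul_assoc, ← tsum_mul_left]
    congr 1
    refine tsum_congr fun p => ?_
    simp only [hF, hcnd, hsg, hn]
    split_ifs <;> ring
  rw [hL, ← hmain.tsum_eq]
  congr 1
  rw [← (hZ 1 (by norm_num)).2, ← (hZ (-1) (by norm_num)).2, ← tsum_mul_right, ← tsum_mul_right,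
    ← Summable.tsum_add ((hZ 1 (by norm_num)).1.of_norm.mul_right _)
      ((hZ (-1) (by norm_num)).1.of_norm.mul_right _)]
  refine tsum_congr fun p => ?_
  by_cases hp : cnd p
  · rw [(hterm p hp).2.1]
    by_cases h3 : 0 < p.1 * p.2
    · have h4 : sg p = -1 := by simp only [hsg, if_pos h3]
      have h5 : ¬ (-1 : ℝ) = 1 := by norm_num
      rw [h4, (hMel (-1) (by norm_num)).2]
      simp only [hp, h5, true_and, if_true, if_false, zero_mul, zero_add]
    · have h4 : sg p = 1 := by simp only [hsg, if_neg h3]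
      have h5 : ¬ (1 : ℝ) = -1 := by norm_num
      rw [h4, (hMel 1 (by norm_num)).2]
      simp only [hp, h5, true_and, if_true, if_false, zero_mul, add_zero]
  · have h6 : ∀ y, F p y = 0 := fun y => by simp only [hF, if_neg hp]
    simp only [hp, false_and, if_false, zero_mul, add_zero, h6, integral_zero]

end

end Pool.Agent.JO
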