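import Pool.Agent.Lib_helper84.JO6.E6A
import Pool.Agent.Lib_helper84.JO.SETop
import Pool.Agent.Lib_helper32.JO.CONB

/-!
# Project JO, part E6: the main identity
-/

set_option autoImplicit false

namespace Pool.Agent.JO

open Complex MeasureTheory Filter Topology Set ModularGroup
open UpperHalfPlane hiding I
open Pool.Agent.Lib_helper37.JO (HJ)
open scoped MatrixGroups ComplexConjugate ContDiff

/-- the transform of `α` -/
noncomputable def MS (σ : ℝ) (α : ℝ → ℂ) (s : ℂ) : ℂ := ∫ θ in Ioo 0 Real.pi, α θ * FS σ s θ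

theorem ms_TD {σ : ℝ} (hσ : σ ^ 2 = 1) {b : ℝ → ℂ} (hb : TB b) {s : ℂ} (hs : 0 < s.re) :
    MS σ (TD b) s = -(s * (1 - s)) * MS σ b s := fs_td hσ hb hs

theorem ms_TD3 {σ : ℝ} (hσ : σ ^ 2 = 1) {b : ℝ → ℂ} (hb : TB b) {s : ℂ} (hs : 0 < s.re) :
    MS σ (TD (TD (TD b))) s = (-(s * (1 - s))) ^ 3 * MS σ b s := by
  rw [ms_TD hσ (td_tb (td_tb hb)) hs, ms_TD hσ (td_tb hb) hs, ms_TD hσ hb hs]
  ring

theorem ms_diff {σ : ℝ} (hσ : σ ^ 2 = 1) {b : ℝ → ℂ} (hb : TB b) :
    DifferentiableOn ℂ (MS σ b) {s | 0 < s.re} := jj_mel_diff hσ hb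

section

variable {N : ℕ} [NeZero N]

/-- the candidate for the Mellin transform at `-w` -/
noncomputable def GM (N : ℕ) [NeZero N] (α : ℝ → ℂ) (v : ZMod N × ZMod N) (w : ℂ) : ℂ :=
  (1 / (4 * Real.pi * N) : ℝ) *
    (ZN v 1 (1 - w) * MS 1 α (1 - w) + ZN v (-1) (1 - w) * MS (-1) α (1 - w))

theorem gm_term_diff {σ : ℝ} (hσ : σ ^ 2 = 1) {b : ℝ → ℂ} (hb : TB b) (v : ZMod N × ZMod N) :
    DifferentiableOn ℂ (fun w : ℂ => w * (ZN v σ (1 - w) * MS σ (TD (TD (TD b))) (1 - w)))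
      {w | w.re < 1 / 2} := by
  set g : ℂ → ℂ := fun w => w * (ZN v σ (1 - w) * MS σ (TD (TD (TD b))) (1 - w)) with hg
  have hbT : TB (TD (TD (TD b))) := td_tb (td_tb (td_tb hb))
  have hopen : IsOpen {w : ℂ | w.re < 1 / 2} := isOpen_lt Complex.continuous_re continuous_const
  -- off zero
  have h1 : ∀ w : ℂ, w.re < 1 / 2 → w ≠ 0 → DifferentiableAt ℂ g w := by
    intro w hw hw0
    have hre : (1 - w).re = 1 - w.re := by simp
    have hne : (1 : ℂ) - w ≠ 1 := by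
      intro h
      apply hw0
      linear_combination -h
    have h2 : DifferentiableAt ℂ (ZN (N := N) v σ) (1 - w) := by
      refine (zan_diff v σ).differentiableAt (IsOpen.mem_nhds ?_ ⟨by rw [hre]; linarith, hne⟩)
      exact (isOpen_lt continuous_const Complex.continuous_re).inter isOpen_ne
    have h3 : DifferentiableAt ℂ (MS σ (TD (TD (TD b)))) (1 - w) := by
      refine (ms_diff hσ hbT).differentiableAt (IsOpen.mem_nhds ?_
        (show 0 < (1 - w).re by rw [hre]; linarith))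
      exact isOpen_lt continuous_const Complex.continuous_re
    have h4 : DifferentiableAt ℂ (fun w : ℂ => 1 - w) w := by fun_prop
    exact differentiableAt_id.mul ((h2.comp w h4).mul (h3.comp w h4))
  -- near zero
  obtain ⟨C, r, hr, hC⟩ := zan_pole (N := N) v σ
  have hMb : ContinuousAt (fun w : ℂ => MS σ b (1 - w)) 0 := by
    have h2 : DifferentiableAt ℂ (MS σ b) (1 - 0) := by
      refine (ms_diff hσ hb).differentiableAt (IsOpen.mem_nhds
        (isOpen_lt continuous_const Complex.continuous_re) ?_)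
      simp
    have h4 : DifferentiableAt ℂ (fun w : ℂ => 1 - w) 0 := by fun_prop
    exact (h2.comp 0 h4).continuousAt
  have hbd : ∀ᶠ w : ℂ in 𝓝 0, ‖g w‖ ≤ (|C| * 8 * (‖MS σ b (1 - 0)‖ + 1)) * ‖w‖ := by
    have h2 : ∀ᶠ w : ℂ in 𝓝 0, ‖MS σ b (1 - w)‖ < ‖MS σ b (1 - 0)‖ + 1 := by
      have := hMb.norm
      exact this.eventually_lt_const (by linarith)
    have h3 : ∀ᶠ w : ℂ in 𝓝 0, ‖w‖ < min r (1 / 2) := by
      have : Metric.ball (0 : ℂ) (min r (1 / 2)) ∈ 𝓝 (0 : ℂ) :=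
        Metric.ball_mem_nhds _ (lt_min hr (by norm_num))
      filter_upwards [this] with w hw
      simpa using hw
    filter_upwards [h2, h3] with w h4 h5
    rcases eq_or_ne w 0 with rfl | hw0
    · simp [hg]
    · have hwr : ‖w‖ < r := h5.trans_le (min_le_left _ _)
      have hw2 : ‖w‖ < 1 / 2 := h5.trans_le (min_le_right _ _)
      have hre : |w.re| < 1 / 2 := (Complex.abs_re_le_norm w).trans_lt hw2
      have hsre : 0 < (1 - w).re := by
        simp only [sub_re, one_re]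
        linarith [abs_lt.1 hre |>.2]
      have hne : (1 : ℂ) - w ≠ 1 := by
        intro h
        apply hw0
        linear_combination -h
      have e1 : ‖(1 : ℂ) - w - 1‖ = ‖w‖ := by
        rw [show (1 : ℂ) - w - 1 = -w by ring, norm_neg]
      have h6 := hC (1 - w) hne (by rw [e1]; exact hwr)
      rw [e1] at h6
      have h7 : ‖(1 : ℂ) - w‖ ≤ 2 := by
        calc ‖(1 : ℂ) - w‖ ≤ ‖(1 : ℂ)‖ + ‖w‖ := norm_sub_le _ _
          _ ≤ 2 := by rw [norm_one]; linarith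
      have hw' : 0 < ‖w‖ := norm_pos_iff.2 hw0
      simp only [hg]
      rw [ms_TD3 hσ hb hsre, norm_mul, norm_mul, norm_mul, norm_pow, norm_neg, norm_mul,
        show (1 : ℂ) - (1 - w) = w by ring]
      calc ‖w‖ * (‖ZN v σ (1 - w)‖ * ((‖(1 : ℂ) - w‖ * ‖w‖) ^ 3 * ‖MS σ b (1 - w)‖))
          ≤ ‖w‖ * ((|C| / ‖w‖ ^ 2) * ((2 * ‖w‖) ^ 3 * (‖MS σ b (1 - 0)‖ + 1))) := by
            gcongr
            exact h6.trans (by gcongr; exact le_abs_self _)
        _ = (|C| * 8 * (‖MS σ b (1 - 0)‖ + 1)) * ‖w‖ ^ 2 := by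
            field_simp
            ring
        _ ≤ (|C| * 8 * (‖MS σ b (1 - 0)‖ + 1)) * ‖w‖ := by
            refine mul_le_mul_of_nonneg_left ?_ (by positivity)
            nlinarith
  have hcont : ContinuousAt g 0 := by
    have h2 : g 0 = 0 := by simp [hg]
    unfold ContinuousAt
    rw [h2]
    refine squeeze_zero_norm' hbd ?_
    have : Tendsto (fun w : ℂ => (|C| * 8 * (‖MS σ b (1 - 0)‖ + 1)) * ‖w‖) (𝓝 0)
        (𝓝 ((|C| * 8 * (‖MS σ b (1 - 0)‖ + 1)) * ‖(0 : ℂ)‖)) :=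
      (continuous_const.mul continuous_norm).tendsto 0
    simpa using this
  have hzero : DifferentiableAt ℂ g 0 := by
    refine (Complex.analyticAt_of_differentiable_on_punctured_nhds_of_continuousAt ?_
      hcont).differentiableAt
    have h2 : ∀ᶠ w : ℂ in 𝓝[≠] 0, w.re < 1 / 2 := by
      have h5 : {w : ℂ | w.re < 1 / 2} ∈ 𝓝 (0 : ℂ) := hopen.mem_nhds (by simp)
      exact nhdsWithin_le_nhds h5
    filter_upwards [h2, self_mem_nhdsWithin] with w hw hw0
    exact h1 w hw hw0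
  intro w hw
  rcases eq_or_ne w 0 with rfl | hw0
  · exact hzero.differentiableWithinAt
  · exact (h1 w hw hw0).differentiableWithinAt

/-- the residue at `0` of the Mellin transform is the mean value -/
theorem mean_lim {c : ℝ → ℂ} (hcm : Measurable c) {m : ℂ}
    (hsq : IntegrableOn (fun y : ℝ => ‖c y - m‖ ^ 2 / y ^ 2) (Ioi 0)) {Bc Y : ℝ}
    (hcb : ∀ y, ‖c y‖ ≤ Bc) (hY : ∀ y, Y ≤ y → c y = 0) :
    ∃ A : ℝ, ∀ t : ℝ, 0 < t → t < 1 / 4 →
      ‖(t : ℂ) * mellin (fun y => c y - m) (-(t : ℂ)) + m‖ ≤ t * A := by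
  have hBc0 : 0 ≤ Bc := (norm_nonneg _).trans (hcb 0)
  set Y' : ℝ := max Y 1 with hY'
  set A₁ : ℝ := ∫ y in Ioc (0 : ℝ) 1, y ^ (-(5 / 4) : ℝ) * ‖c y - m‖ with hA₁
  have hi1 : IntegrableOn (fun y : ℝ => y ^ (-(5 / 4) : ℝ) * ‖c y - m‖) (Ioc 0 1) := by
    have h1 : IntegrableOn (fun y : ℝ => ‖c y - m‖ ^ 2 / y ^ 2) (Ioc 0 1) :=
      hsq.mono_set Ioc_subset_Ioi_self
    have h2 : IntegrableOn (fun y : ℝ => y ^ (-(1 / 2) : ℝ)) (Ioc 0 1) := by
      rw [← intervalIntegrable_iff_integrableOn_Ioc_of_le zero_le_one]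
      exact intervalIntegral.intervalIntegrable_rpow' (by norm_num)
    refine (h1.add h2).mono' ?_ ?_
    · exact ((Measurable.pow_const measurable_id _).mul
        (hcm.sub_const m).norm).aestronglyMeasurable
    · refine (ae_restrict_iff' measurableSet_Ioc).2 (Filter.Eventually.of_forall fun y hy => ?_)
      have hy0 : 0 < y := hy.1
      rw [Real.norm_of_nonneg (by positivity)]
      simp only [Pi.add_apply]
      have e1 : y ^ (-(5 / 4) : ℝ) = y⁻¹ * y ^ (-(1 / 4) : ℝ) := by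
        rw [← Real.rpow_neg_one, ← Real.rpow_add hy0]
        norm_num
      have e2 : y ^ (-(1 / 2) : ℝ) = (y ^ (-(1 / 4) : ℝ)) ^ 2 := by
        rw [← Real.rpow_natCast, ← Real.rpow_mul hy0.le]
        norm_num
      have e3 : ‖c y - m‖ ^ 2 / y ^ 2 = ‖c y - m‖ ^ 2 * (y⁻¹) ^ 2 := by
        rw [inv_pow]
        rfl
      rw [e1, e2, e3]
      have h5 : 0 < y⁻¹ := inv_pos.2 hy0
      have h6 : 0 < y ^ (-(1 / 4) : ℝ) := Real.rpow_pos_of_pos hy0 _
      generalize y ^ (-(1 / 4) : ℝ) = q at h6 ⊢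
      generalize y⁻¹ = p at h5 ⊢
      have h7 := norm_nonneg (c y - m)
      generalize ‖c y - m‖ = r at h7 ⊢
      nlinarith [sq_nonneg (r * p - q), mul_nonneg (mul_nonneg h5.le h6.le) h7]
  refine ⟨A₁ + Bc * (Y' - 1), fun t ht0 ht1 => ?_⟩
  have hY1 : (1 : ℝ) ≤ Y' := le_max_right _ _
  set F : ℝ → ℂ := fun y => (y : ℂ) ^ (-(t : ℂ) - 1) • (c y - m) with hF
  have hFm : Measurable F := (Complex.measurable_ofReal.pow_const _).smul (hcm.sub_const m)
  have hre : (-(t : ℂ) - 1).re = -t - 1 := by simp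
  have hb1 : ∀ y ∈ Ioc (0 : ℝ) 1, ‖F y‖ ≤ y ^ (-(5 / 4) : ℝ) * ‖c y - m‖ := by
    intro y hy
    simp only [hF]
    rw [norm_smul, Complex.norm_cpow_eq_rpow_re_of_pos hy.1, hre]
    exact mul_le_mul_of_nonneg_right
      (Real.rpow_le_rpow_of_exponent_ge hy.1 hy.2 (by linarith)) (norm_nonneg _)
  have hF1 : IntegrableOn F (Ioc 0 1) :=
    hi1.mono' hFm.aestronglyMeasurable
      ((ae_restrict_iff' measurableSet_Ioc).2 (Filter.Eventually.of_forall hb1))
  have hn1 : ‖∫ y in Ioc (0 : ℝ) 1, F y‖ ≤ A₁ :=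
    norm_integral_le_of_norm_le hi1
      ((ae_restrict_iff' measurableSet_Ioc).2 (Filter.Eventually.of_forall hb1))
  -- the part at infinity
  have hc2 : IntegrableOn (fun y : ℝ => (y : ℂ) ^ (-(t : ℂ) - 1) * c y) (Ioi 1) ∧
      ‖∫ y in Ioi (1 : ℝ), (y : ℂ) ^ (-(t : ℂ) - 1) * c y‖ ≤ Bc * (Y' - 1) := by
    have hb2 : ∀ y ∈ Ioi (1 : ℝ), ‖(y : ℂ) ^ (-(t : ℂ) - 1) * c y‖ ≤
        (Ioc 1 Y').indicator (fun _ => Bc) y := by
      intro y hy
      have hy1 : (1 : ℝ) < y := hy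
      by_cases hyY : y ≤ Y'
      · rw [indicator_of_mem (show y ∈ Ioc 1 Y' from ⟨hy1, hyY⟩), norm_mul,
          Complex.norm_cpow_eq_rpow_re_of_pos (by linarith), hre]
        calc y ^ (-t - 1) * ‖c y‖ ≤ 1 * Bc := by
              refine mul_le_mul ?_ (hcb y) (norm_nonneg _) zero_le_one
              exact Real.rpow_le_one_of_one_le_of_nonpos hy1.le (by linarith)
          _ = Bc := one_mul _
      · have h3 : c y = 0 := hY y ((le_max_left _ _).trans (not_le.1 hyY).le)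
        rw [h3, mul_zero, norm_zero]
        exact indicator_nonneg (fun _ _ => hBc0) _
    have hi2 : IntegrableOn ((Ioc 1 Y').indicator (fun _ => Bc)) (Ioi 1) := by
      refine Integrable.integrableOn ?_
      rw [integrable_indicator_iff measurableSet_Ioc]
      exact integrableOn_const (by simp)
    have hm2 : AEStronglyMeasurable (fun y : ℝ => (y : ℂ) ^ (-(t : ℂ) - 1) * c y)
        (volume.restrict (Ioi 1)) :=
      ((Complex.measurable_ofReal.pow_const _).mul hcm).aestronglyMeasurable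
    refine ⟨hi2.mono' hm2 ((ae_restrict_iff' measurableSet_Ioi).2
      (Filter.Eventually.of_forall hb2)), ?_⟩
    refine (norm_integral_le_of_norm_le hi2 ((ae_restrict_iff' measurableSet_Ioi).2
      (Filter.Eventually.of_forall hb2))).trans ?_
    rw [setIntegral_indicator measurableSet_Ioc,
      inter_eq_right.2 (Ioc_subset_Ioi_self), setIntegral_const]
    simp only [Measure.real, Real.volume_Ioc, smul_eq_mul]
    rw [ENNReal.toReal_ofReal (by linarith), mul_comm]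
  have hre2 : (-(t : ℂ) - 1).re < -1 := by
    rw [hre]
    linarith
  have hm2 := integrableOn_Ioi_cpow_of_lt hre2 one_pos
  have hm3 := integral_Ioi_cpow_of_lt hre2 one_pos
  have ht : (t : ℂ) ≠ 0 := by exact_mod_cast ht0.ne'
  have hF2 : IntegrableOn F (Ioi 1) ∧ ∫ y in Ioi (1 : ℝ), F y =
      (∫ y in Ioi (1 : ℝ), (y : ℂ) ^ (-(t : ℂ) - 1) * c y) - m / t := by
    have e1 : F = fun y : ℝ => (y : ℂ) ^ (-(t : ℂ) - 1) * c y - (y : ℂ) ^ (-(t : ℂ) - 1) * m := by
      funext y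
      simp only [hF, smul_eq_mul, mul_sub]
    rw [e1]
    refine ⟨hc2.1.sub (hm2.mul_const m), ?_⟩
    rw [integral_sub hc2.1 (hm2.mul_const m), integral_mul_const, hm3]
    congr 1
    simp only [ofReal_one, one_cpow]
    rw [show -(t : ℂ) - 1 + 1 = -t by ring]
    field_simp
  have hsplit : mellin (fun y => c y - m) (-(t : ℂ)) =
      (∫ y in Ioc (0 : ℝ) 1, F y) + ∫ y in Ioi (1 : ℝ), F y := by
    unfold mellin
    rw [← Ioc_union_Ioi_eq_Ioi zero_le_one, setIntegral_union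
      (Ioc_disjoint_Ioi le_rfl) measurableSet_Ioi hF1 hF2.1]
  rw [hsplit, hF2.2]
  have e2 : (t : ℂ) * ((∫ y in Ioc (0 : ℝ) 1, F y) +
      ((∫ y in Ioi (1 : ℝ), (y : ℂ) ^ (-(t : ℂ) - 1) * c y) - m / t)) + m =
      t * ((∫ y in Ioc (0 : ℝ) 1, F y) +
        ∫ y in Ioi (1 : ℝ), (y : ℂ) ^ (-(t : ℂ) - 1) * c y) := by
    field_simp
    ring
  rw [e2, norm_mul, Complex.norm_real, Real.norm_of_nonneg ht0.le]
  exact mul_le_mul_of_nonneg_left ((norm_add_le _ _).trans (add_le_add hn1 hc2.2)) ht0.le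

/-- the function `w G(w)` -/
theorem gm_diff {b : ℝ → ℂ} (hb : TB b) (v : ZMod N × ZMod N) :
    DifferentiableOn ℂ (fun w : ℂ => w * GM N (TD (TD (TD b))) v w) {w | w.re < 1 / 2} := by
  have h1 := gm_term_diff (σ := 1) (by norm_num) hb v
  have h2 := gm_term_diff (σ := -1) (by norm_num) hb v
  have h3 := ((h1.add h2).const_mul (((1 / (4 * Real.pi * N) : ℝ)) : ℂ))
  refine h3.congr fun w _ => ?_
  unfold GM
  simp only [Pi.add_apply]
  ring

theorem gm_cont {b : ℝ → ℂ} (hb : TB b) (v : ZMod N × ZMod N) (κ : ℝ) :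
    ContinuousWithinAt (GM N (TD (TD (TD b))) v) {s : ℂ | 0 < s.re ∧ s.re < 1 / 2}
      ((1 / 2 : ℝ) + (κ : ℂ) * I) := by
  have hbT : TB (TD (TD (TD b))) := td_tb (td_tb (td_tb hb))
  have hM : ∀ σ : ℝ, σ ^ 2 = 1 → ContinuousWithinAt (fun w : ℂ => MS σ (TD (TD (TD b))) (1 - w))
      {s : ℂ | 0 < s.re ∧ s.re < 1 / 2} ((1 / 2 : ℝ) + (κ : ℂ) * I) := by
    intro σ hσ
    refine ContinuousAt.continuousWithinAt ?_
    have h2 : DifferentiableAt ℂ (MS σ (TD (TD (TD b)))) (1 - ((1 / 2 : ℝ) + (κ : ℂ) * I)) := by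
      refine (ms_diff hσ hbT).differentiableAt (IsOpen.mem_nhds
        (isOpen_lt continuous_const Complex.continuous_re) ?_)
      show 0 < (1 - (((1 / 2 : ℝ) : ℂ) + (κ : ℂ) * I)).re
      simp
      norm_num
    have h4 : DifferentiableAt ℂ (fun w : ℂ => 1 - w) ((1 / 2 : ℝ) + (κ : ℂ) * I) := by fun_prop
    exact (h2.comp _ h4).continuousAt
  unfold GM
  exact continuousWithinAt_const.mul (((zan_bd v 1 κ).mul (hM 1 (by norm_num))).add
    ((zan_bd v (-1) κ).mul (hM (-1) (by norm_num))))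

/-- the Mellin transform in the strip and the mean value -/
theorem e6_strip {b : ℝ → ℂ} (hb : TB b) {v : ZMod N × ZMod N} (hv : v ∈ PV N) :
    meanH (PiA N (TD (TD (TD b)))) = 0 ∧ ∀ s : ℂ, 0 < s.re → s.re < 1 / 2 →
      mellin (cH (PiA N (TD (TD (TD b)))) v) (-s) = GM N (TD (TD (TD b))) v s := by
  set α : ℝ → ℂ := TD (TD (TD b)) with hα'
  have hα : TB α := td_tb (td_tb (td_tb hb))
  have h0 : ∫ t in Ioo 0 Real.pi, α t = 0 := td_int0 (td_tb (td_tb hb))
  set m : ℂ := meanH (PiA N α) with hm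
  have hsq := pia_sq (N := N) hα h0
  obtain ⟨B₀, hB₀⟩ := pia_bdd (N := N) hα h0
  obtain ⟨Y, hY0, hY⟩ := mlp_vanish (N := N) hα h0 hv
  set c : ℝ → ℂ := cH (PiA N α) v with hc
  have hcm : Measurable c := ch_meas hsq v
  have hok : MelOK fun y => c y - m := ch_mel hsq ⟨B₀, hB₀⟩ hv
  set Bc : ℝ := ‖(N : ℂ)⁻¹‖ * ((Fintype.card (QN N) : ℝ) * B₀) with hBc
  have hcb : ∀ y, ‖c y‖ ≤ Bc := fun y => mlp_cH_bdd hB₀ v y
  have hBc0 : 0 ≤ Bc := (norm_nonneg _).trans (hcb 0)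
  obtain ⟨B, hBd, hBl, hBr⟩ := con_mel_pr hok ⟨Bc, fun y _ => hcb y⟩
    ⟨Bc * Real.exp Y, 1, one_pos, fun y hy => by
      rcases le_or_gt Y y with h1 | h1
      · rw [hY y h1, norm_zero]
        positivity
      · refine (hcb y).trans ?_
        rw [mul_assoc, ← Real.exp_add]
        exact le_mul_of_one_le_right hBc0 (Real.one_le_exp (by linarith))⟩
  -- identity theorem
  have hopen : IsOpen {w : ℂ | w.re < 1 / 2} := isOpen_lt Complex.continuous_re continuous_const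
  have hpre : IsPreconnected {w : ℂ | w.re < 1 / 2} :=
    (convex_halfSpace_re_lt (1 / 2)).isPreconnected
  have hEq : EqOn B (fun w : ℂ => w * GM N α v w) {w : ℂ | w.re < 1 / 2} := by
    refine (hBd.analyticOnNhd hopen).eqOn_of_preconnected_of_eventuallyEq
      ((gm_diff hb v).analyticOnNhd hopen) hpre (z₀ := -1) ?_ ?_
    · show (-1 : ℂ).re < 1 / 2
      norm_num
    · have h1 : {w : ℂ | w.re < 0} ∈ 𝓝 (-1 : ℂ) :=
        (isOpen_lt Complex.continuous_re continuous_const).mem_nhds (by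
          show (-1 : ℂ).re < 0
          norm_num)
      filter_upwards [h1] with w hw
      rw [hBl w hw, (mlp_left_pr (N := N) hα h0 hv hw).2]
      rfl
  -- the value at zero
  have hB0 : B 0 = 0 := by
    rw [hEq (show (0 : ℂ).re < 1 / 2 by norm_num)]
    simp
  have hlim : Tendsto (fun t : ℝ => B (t : ℂ)) (𝓝[>] 0) (𝓝 (B 0)) := by
    have h1 : ContinuousAt B 0 :=
      (hBd.differentiableAt (hopen.mem_nhds (by simp))).continuousAt
    have h2 : Tendsto (fun t : ℝ => (t : ℂ)) (𝓝[>] 0) (𝓝 0) := by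
      have : Tendsto (fun t : ℝ => (t : ℂ)) (𝓝 0) (𝓝 ((0 : ℝ) : ℂ)) :=
        Complex.continuous_ofReal.tendsto 0
      rw [Complex.ofReal_zero] at this
      exact this.mono_left nhdsWithin_le_nhds
    exact h1.tendsto.comp h2
  have hlim2 : Tendsto (fun t : ℝ => B (t : ℂ)) (𝓝[>] 0) (𝓝 (-m)) := by
    obtain ⟨A, hA⟩ := mean_lim hcm hok.sq hcb hY
    rw [tendsto_iff_norm_sub_tendsto_zero]
    have h3 : Tendsto (fun t : ℝ => t * A) (𝓝[>] 0) (𝓝 0) := by
      have : Tendsto (fun t : ℝ => t * A) (𝓝 0) (𝓝 (0 * A)) :=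
        (continuous_id.mul continuous_const).tendsto 0
      rw [zero_mul] at this
      exact this.mono_left nhdsWithin_le_nhds
    refine squeeze_zero' (Filter.Eventually.of_forall fun t => norm_nonneg _) ?_ h3
    have h4 : Ioo (0 : ℝ) (1 / 4) ∈ 𝓝[>] (0 : ℝ) := Ioo_mem_nhdsGT (by norm_num)
    filter_upwards [h4] with t ht
    rw [sub_neg_eq_add, hBr (t : ℂ) (by simpa using ht.1) (by
      simp only [ofReal_re]
      linarith [ht.2])]
    exact hA t ht.1 ht.2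
  have hm0 : m = 0 := by
    have := tendsto_nhds_unique hlim hlim2
    rw [hB0] at this
    exact neg_eq_zero.1 this.symm
  refine ⟨hm0, fun s hs1 hs2 => ?_⟩
  have h1 := hBr s hs1 hs2
  have h2 := hEq (show s.re < 1 / 2 from hs2)
  have hs0 : s ≠ 0 := by
    intro h
    rw [h] at hs1
    simp at hs1
  rw [h2] at h1
  simp only [hm0, sub_zero] at h1
  exact (mul_left_cancel₀ hs0 h1).symm

end

end Pool.Agent.JO
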