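import Pool.Agent.Lib_helper84.JO6.E6B

/-!
# Project JO, part E6: the main identity, end of the proof
-/

set_option autoImplicit false

namespace Pool.Agent.JO

open Complex MeasureTheory Filter Topology Set ModularGroup
open UpperHalfPlane hiding I
open Pool.Agent.Lib_helper37.JO (HJ)
open scoped MatrixGroups ComplexConjugate ContDiff

/-- the transform of `conj α` against `HJ` -/
noncomputable def JC (σ : ℝ) (α : ℝ → ℂ) (κ : ℝ) : ℂ :=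
  ∫ θ in Ioo 0 Real.pi, HJ σ κ (θ : ℂ) * conj (α θ)

theorem jc_ms {σ : ℝ} (hσ : σ ^ 2 = 1) (α : ℝ → ℂ) (κ : ℝ) :
    JC σ α κ = (2 : ℂ) ^ ((1 / 2 : ℂ) + κ * I) *
      MS σ (fun t => conj (α t)) ((1 / 2 : ℂ) + κ * I) := by
  unfold JC MS
  rw [← integral_const_mul]
  refine setIntegral_congr_fun measurableSet_Ioo fun θ hθ => ?_
  rw [fs_hj hσ κ hθ]
  ring

theorem ms_conj {σ : ℝ} (hσ : σ ^ 2 = 1) (α : ℝ → ℂ) (s : ℂ) :
    conj (MS σ α s) = MS σ (fun t => conj (α t)) (conj s) := by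
  unfold MS
  rw [← integral_conj]
  refine setIntegral_congr_fun measurableSet_Ioo fun θ hθ => ?_
  simp only [map_mul]
  rw [fs_conj hσ s hθ]

theorem jc_cont {σ : ℝ} (hσ : σ ^ 2 = 1) {α : ℝ → ℂ} (hα : TB α) : Continuous (JC σ α) := by
  have h1 : Continuous fun κ : ℝ => MS σ (fun t => conj (α t)) ((1 / 2 : ℂ) + κ * I) := by
    rw [continuous_iff_continuousAt]
    intro κ
    have h2 : DifferentiableAt ℂ (MS σ (fun t => conj (α t))) ((1 / 2 : ℂ) + κ * I) := by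
      refine (ms_diff hσ (tb_conj hα).1).differentiableAt (IsOpen.mem_nhds
        (isOpen_lt continuous_const Complex.continuous_re) ?_)
      show 0 < ((1 / 2 : ℂ) + κ * I).re
      simp
    have h3 : ContinuousAt (fun κ : ℝ => (1 / 2 : ℂ) + κ * I) κ := by fun_prop
    exact ContinuousAt.comp (f := fun κ : ℝ => (1 / 2 : ℂ) + κ * I) h2.continuousAt h3
  have h4 : JC σ α = fun κ : ℝ => (2 : ℂ) ^ ((1 / 2 : ℂ) + κ * I) *
      MS σ (fun t => conj (α t)) ((1 / 2 : ℂ) + κ * I) := by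
    funext κ
    exact jc_ms hσ α κ
  rw [h4]
  refine Continuous.mul ?_ h1
  have : Continuous fun κ : ℝ => (1 / 2 : ℂ) + κ * I := by fun_prop
  exact this.const_cpow (Or.inl two_ne_zero)

theorem ms_bd {σ : ℝ} (hσ : σ ^ 2 = 1) {α : ℝ → ℂ} (hα : TB α) :
    ∃ C : ℝ, 0 ≤ C ∧ ∀ κ : ℝ, ‖MS σ α ((1 / 2 : ℂ) + κ * I)‖ ≤ C := by
  obtain ⟨a, a', ha, ha', hs⟩ := hα.supp
  obtain ⟨C, hC⟩ := fs_bd hσ ha ha' (x₀ := 1 / 2) (x₁ := 1 / 2) (by norm_num)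
  have hi : IntegrableOn (fun θ : ℝ => ‖α θ‖ * |C|) (Ioo 0 Real.pi) := by
    have h1 : IntegrableOn (fun θ : ℝ => ‖α θ‖ * |C|) (Icc 0 Real.pi) :=
      ((hα.smooth.continuous.norm).mul continuous_const).continuousOn.integrableOn_Icc
    exact h1.mono_set Ioo_subset_Icc_self
  refine ⟨∫ θ in Ioo 0 Real.pi, ‖α θ‖ * |C|, integral_nonneg fun θ => by positivity, fun κ => ?_⟩
  unfold MS
  refine norm_integral_le_of_norm_le hi (Filter.Eventually.of_forall fun θ => ?_)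
  by_cases h0 : α θ = 0
  · rw [h0, zero_mul, norm_zero, zero_mul]
  · rw [norm_mul]
    refine mul_le_mul_of_nonneg_left ?_ (norm_nonneg _)
    exact (hC θ (hs θ h0) _ (by simp) (by simp)).2.trans (le_abs_self _)

theorem ms_decay {σ : ℝ} (hσ : σ ^ 2 = 1) {α : ℝ → ℂ} (hα : TB α) :
    ∃ C : ℝ, 0 ≤ C ∧ ∀ κ : ℝ, ‖MS σ α ((1 / 2 : ℂ) + κ * I)‖ ≤ C / (1 + κ ^ 2) ^ 2 := by
  obtain ⟨C, hC0, hC⟩ := ms_bd hσ (td_tb (td_tb hα))
  refine ⟨16 * C, by positivity, fun κ => ?_⟩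
  have hre : 0 < ((1 / 2 : ℂ) + κ * I).re := by simp
  have h1 := hC κ
  rw [ms_TD hσ (td_tb hα) hre, ms_TD hσ hα hre] at h1
  have h2 : ((1 / 2 : ℂ) + κ * I) * (1 - ((1 / 2 : ℂ) + κ * I)) = ((1 / 4 + κ ^ 2 : ℝ) : ℂ) := by
    push_cast
    have := Complex.I_sq
    linear_combination (-(κ : ℂ) ^ 2) * this
  rw [h2, norm_mul, norm_mul, norm_neg, Complex.norm_real,
    Real.norm_of_nonneg (by positivity)] at h1
  rw [le_div_iff₀ (by positivity)]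
  have h3 : (1 + κ ^ 2) ≤ 4 * (1 / 4 + κ ^ 2) := by nlinarith [sq_nonneg κ]
  have h4 : 0 ≤ ‖MS σ α ((1 / 2 : ℂ) + κ * I)‖ := norm_nonneg _
  calc ‖MS σ α ((1 / 2 : ℂ) + κ * I)‖ * (1 + κ ^ 2) ^ 2
      ≤ ‖MS σ α ((1 / 2 : ℂ) + κ * I)‖ * (4 * (1 / 4 + κ ^ 2)) ^ 2 := by gcongr
    _ = 16 * ((1 / 4 + κ ^ 2) * ((1 / 4 + κ ^ 2) * ‖MS σ α ((1 / 2 : ℂ) + κ * I)‖)) := by ring
    _ ≤ 16 * C := by linarith

theorem jc_decay {σ : ℝ} (hσ : σ ^ 2 = 1) {α : ℝ → ℂ} (hα : TB α) :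
    ∃ C : ℝ, 0 ≤ C ∧ ∀ κ : ℝ, ‖JC σ α κ‖ ≤ C / (1 + κ ^ 2) ^ 2 := by
  obtain ⟨C, hC0, hC⟩ := ms_decay hσ (tb_conj hα).1
  refine ⟨2 * C, by positivity, fun κ => ?_⟩
  rw [jc_ms hσ, norm_mul]
  have h1 : ‖(2 : ℂ) ^ ((1 / 2 : ℂ) + κ * I)‖ ≤ 2 := by
    have h2 : ‖((2 : ℝ) : ℂ) ^ ((1 / 2 : ℂ) + κ * I)‖ = (2 : ℝ) ^ ((1 / 2 : ℂ) + κ * I).re :=
      Complex.norm_cpow_eq_rpow_re_of_pos two_pos _
    rw [Complex.ofReal_ofNat] at h2
    rw [h2]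
    have h3 : ((1 / 2 : ℂ) + κ * I).re = 1 / 2 := by simp
    rw [h3]
    calc (2 : ℝ) ^ (1 / 2 : ℝ) ≤ 2 ^ (1 : ℝ) :=
          Real.rpow_le_rpow_of_exponent_le one_le_two (by norm_num)
      _ = 2 := Real.rpow_one 2
  calc ‖(2 : ℂ) ^ ((1 / 2 : ℂ) + κ * I)‖ * ‖MS σ (fun t => conj (α t)) ((1 / 2 : ℂ) + κ * I)‖
      ≤ 2 * (C / (1 + κ ^ 2) ^ 2) := mul_le_mul h1 (hC κ) (norm_nonneg _) zero_le_two
    _ = _ := by ring

section

variable {N : ℕ} [NeZero N]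

/-- integrability of one term -/
theorem term_int (hZ : ZfB (Zf N)) {σ : ℝ} (hσ : σ ^ 2 = 1) {α : ℝ → ℂ} (hα : TB α)
    (v : ZMod N × ZMod N) (c : ℝ → ℂ) :
    Integrable fun κ : ℝ => melL2 c κ * Zf N v σ κ * JC σ α κ := by
  obtain ⟨C, hC0, hC⟩ := jc_decay hσ hα
  obtain ⟨D, d, hd, hD⟩ := hZ.sup
  have h1 : Integrable fun κ : ℝ => ‖melL2 c κ‖ ^ 2 := (memLp_melL2 c).integrable_norm_pow (by simp)
  have h2 : Integrable fun κ : ℝ => (|D| * C) ^ 2 * (1 + κ ^ 2)⁻¹ :=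
    integrable_inv_one_add_sq.const_mul _
  refine (h1.add h2).mono' ?_ (Filter.Eventually.of_forall fun κ => ?_)
  · exact (((measurable_melL2 c).mul (hZ.meas v σ)).mul
      (jc_cont hσ hα).measurable).aestronglyMeasurable
  · simp only [Pi.add_apply]
    have h3 : ‖Zf N v σ κ‖ ≤ |D| * (1 + |κ|) := by
      have h5 : (0 : ℝ) < 1 + |κ| := by positivity
      refine (hD v σ κ).trans ?_
      calc D * (1 + |κ|) ^ (1 / 2 - d) ≤ |D| * (1 + |κ|) ^ (1 / 2 - d) :=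
            mul_le_mul_of_nonneg_right (le_abs_self _) (by positivity)
        _ ≤ |D| * (1 + |κ|) := by
          refine mul_le_mul_of_nonneg_left ?_ (abs_nonneg _)
          conv_rhs => rw [← Real.rpow_one (1 + |κ|)]
          exact Real.rpow_le_rpow_of_exponent_le (by linarith [abs_nonneg κ]) (by linarith)
    have h4 : ‖Zf N v σ κ * JC σ α κ‖ ^ 2 ≤ (|D| * C) ^ 2 * 2 * (1 + κ ^ 2)⁻¹ := by
      have h5 : ‖Zf N v σ κ * JC σ α κ‖ ≤ |D| * (1 + |κ|) * (C / (1 + κ ^ 2) ^ 2) := by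
        rw [norm_mul]
        exact mul_le_mul h3 (hC κ) (norm_nonneg _) (by positivity)
      have h6 : (1 + |κ|) ^ 2 ≤ 2 * (1 + κ ^ 2) := by
        rw [← sq_abs κ]
        nlinarith [sq_nonneg (|κ| - 1)]
      have hp : 0 < 1 + κ ^ 2 := by positivity
      calc ‖Zf N v σ κ * JC σ α κ‖ ^ 2 ≤ (|D| * (1 + |κ|) * (C / (1 + κ ^ 2) ^ 2)) ^ 2 :=
            pow_le_pow_left₀ (norm_nonneg _) h5 2
        _ = (|D| * C) ^ 2 * ((1 + |κ|) ^ 2 / (1 + κ ^ 2) ^ 4) := by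
            field_simp
        _ ≤ (|D| * C) ^ 2 * (2 * (1 + κ ^ 2)⁻¹) := by
            refine mul_le_mul_of_nonneg_left ?_ (sq_nonneg _)
            rw [div_le_iff₀ (by positivity)]
            have h7 : (1 + κ ^ 2) ≤ (1 + κ ^ 2) ^ 3 := by nlinarith [sq_nonneg κ, sq_nonneg (κ ^ 2)]
            calc (1 + |κ|) ^ 2 ≤ 2 * (1 + κ ^ 2) := h6
              _ ≤ 2 * (1 + κ ^ 2) ^ 3 := by linarith
              _ = 2 * (1 + κ ^ 2)⁻¹ * (1 + κ ^ 2) ^ 4 := by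
                field_simp
        _ = _ := by ring
    have h5 : ‖melL2 c κ * Zf N v σ κ * JC σ α κ‖ = ‖melL2 c κ‖ * ‖Zf N v σ κ * JC σ α κ‖ := by
      rw [mul_assoc, norm_mul]
    rw [h5]
    nlinarith [sq_nonneg (‖melL2 c κ‖ - ‖Zf N v σ κ * JC σ α κ‖),
      sq_nonneg ‖melL2 c κ‖]

/-- the boundary values -/
theorem gm_bdry {α : ℝ → ℂ} (v : ZMod N × ZMod N) (κ : ℝ) :
    (N / 2 : ℂ) * conj (GM N α v ((1 / 2 : ℝ) + (κ : ℂ) * I)) =
      Zf N v 1 κ * JC 1 α κ + Zf N v (-1) κ * JC (-1) α κ := by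
  have h1 : (1 : ℂ) - ((1 / 2 : ℝ) + (κ : ℂ) * I) = (1 / 2 : ℂ) - κ * I := by
    push_cast
    ring
  have h2 : conj ((1 / 2 : ℂ) - κ * I) = (1 / 2 : ℂ) + κ * I := by
    simp only [map_sub, map_mul, Complex.conj_ofReal, Complex.conj_I, map_div₀, map_one]
    have : conj (2 : ℂ) = 2 := Complex.conj_ofNat 2
    rw [this]
    ring
  have hN : (N : ℂ) ≠ 0 := Nat.cast_ne_zero.2 (NeZero.ne N)
  have h22 : (2 : ℂ) ^ (-((1 / 2 : ℂ) + κ * I)) * (2 : ℂ) ^ ((1 / 2 : ℂ) + κ * I) = 1 := by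
    rw [← Complex.cpow_add _ _ two_ne_zero, neg_add_cancel, Complex.cpow_zero]
  have hZ : ∀ σ : ℝ, σ ^ 2 = 1 → Zf N v σ κ * JC σ α κ = (1 / (8 * Real.pi) : ℝ) *
      (conj (ZN v σ ((1 / 2 : ℂ) - κ * I)) * conj (MS σ α ((1 / 2 : ℂ) - κ * I))) := by
    intro σ hσ
    rw [jc_ms hσ, ms_conj hσ, h2]
    unfold Zf
    linear_combination ((1 / (8 * Real.pi) : ℝ) * conj (ZN v σ ((1 / 2 : ℂ) - κ * I)) *
      MS σ (fun t => conj (α t)) ((1 / 2 : ℂ) + κ * I)) * h22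
  rw [hZ 1 (by norm_num), hZ (-1) (by norm_num)]
  unfold GM
  rw [h1]
  simp only [map_mul, map_add, Complex.conj_ofReal]
  push_cast
  field_simp
  ring

/-- **the main identity**, with `α = TD (TD (TD b))` -/
theorem e6_main_pr (hZ : ZfB (Zf N)) {f : QN N → ℍ → ℂ} (hf : SqH f) (h0 : meanH f = 0) :
    ∃ g : QN N → ℍ → ℂ, SqH g ∧ meanH g = 0 ∧
      (∀ v ∈ PV N, ∀ᵐ y : ℝ ∂(volume.restrict (Ioi 0)), cH g v y = 0) ∧
      ∀ b : ℝ → ℂ, TB b → SqH (PiA N (TD (TD (TD b)))) ∧ meanH (PiA N (TD (TD (TD b)))) = 0 ∧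
        2 * Real.pi * ipH f (PiA N (TD (TD (TD b)))) =
          2 * Real.pi * ipH g (PiA N (TD (TD (TD b)))) +
          ∑ v ∈ PV N, ((∫ κ : ℝ, melL2 (cH f v) κ * Zf N v 1 κ *
              ∫ θ in Ioo 0 Real.pi, HJ 1 κ (θ : ℂ) * conj (TD (TD (TD b)) θ)) +
            ∫ κ : ℝ, melL2 (cH f v) κ * Zf N v (-1) κ *
              ∫ θ in Ioo 0 Real.pi, HJ (-1) κ (θ : ℂ) * conj (TD (TD (TD b)) θ)) := by
  obtain ⟨g, hg, hg0, hgc, hmain⟩ := eis_projH hf h0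
  refine ⟨g, hg, hg0, hgc, fun b hb => ?_⟩
  have hα : TB (TD (TD (TD b))) := td_tb (td_tb (td_tb hb))
  have hi0 : ∫ t in Ioo 0 Real.pi, TD (TD (TD b)) t = 0 := td_int0 (td_tb (td_tb hb))
  have hsq : SqH (PiA N (TD (TD (TD b)))) := pia_sq hα hi0
  obtain ⟨B, hB⟩ := pia_bdd (N := N) hα hi0
  have hmean : meanH (PiA N (TD (TD (TD b)))) = 0 := by
    have hv : bot (1 : QN N) ∈ PV N := Finset.mem_image_of_mem _ (Finset.mem_univ _)
    exact (e6_strip hb hv).1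
  refine ⟨hsq, hmean, ?_⟩
  rw [hmain _ hsq hmean, mul_add, ← mul_assoc, Finset.mul_sum]
  congr 1
  refine Finset.sum_congr rfl fun v hv => ?_
  -- Parseval
  have hm1 : MemLp (fS (1 / 2) (cH f v)) 2 volume := by
    refine memLp_half (ch_meas hf v) ?_
    have := ch_sq hf hv
    simpa only [h0, sub_zero] using this
  have hok : MelOK (cH (PiA N (TD (TD (TD b)))) v) := by
    have := ch_mel hsq ⟨B, hB⟩ hv
    simpa only [hmean, sub_zero] using this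
  have hpar := integral_melL2_mul_conj hm1 hok.memLp
  have hae := melL2_eq_of_continuous hok (GM N (TD (TD (TD b))) v)
    (fun κ => gm_cont hb v κ) (fun s h1 h2 => (e6_strip hb hv).2 s h1 h2)
  have h1 : (2 * Real.pi * (N / 2 : ℂ)) * ∫ y in Ioi (0 : ℝ),
      cH f v y * conj (cH (PiA N (TD (TD (TD b)))) v y) / (y : ℂ) ^ 2 =
      ∫ κ : ℝ, (melL2 (cH f v) κ * Zf N v 1 κ * JC 1 (TD (TD (TD b))) κ +
        melL2 (cH f v) κ * Zf N v (-1) κ * JC (-1) (TD (TD (TD b))) κ) := by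
    calc (2 * Real.pi * (N / 2 : ℂ)) * ∫ y in Ioi (0 : ℝ),
          cH f v y * conj (cH (PiA N (TD (TD (TD b)))) v y) / (y : ℂ) ^ 2
        = (N / 2 : ℂ) * ∫ κ : ℝ, melL2 (cH f v) κ *
            conj (melL2 (cH (PiA N (TD (TD (TD b)))) v) κ) := by
          rw [hpar]
          ring
      _ = ∫ κ : ℝ, (N / 2 : ℂ) * (melL2 (cH f v) κ *
            conj (melL2 (cH (PiA N (TD (TD (TD b)))) v) κ)) := by
          rw [integral_const_mul]
      _ = _ := by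
          refine integral_congr_ae ?_
          filter_upwards [hae] with κ hκ
          rw [hκ]
          have := gm_bdry (α := TD (TD (TD b))) v κ
          linear_combination (melL2 (cH f v) κ) * this
  rw [h1, integral_add (term_int hZ (by norm_num) hα v _) (term_int hZ (by norm_num) hα v _)]
  rfl

end

end Pool.Agent.JO
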