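import Pool.Agent.Lib_helper84.JO6.N0

set_option autoImplicit false

namespace Pool.Agent.JO

open Complex MeasureTheory Filter Topology Set ModularGroup
open UpperHalfPlane hiding I
open Pool.Agent.Lib_helper37.JO (HJ)
open scoped MatrixGroups ComplexConjugate ContDiff

theorem fsb_int_exp {δ : ℝ} (hδ : 0 < δ) : Integrable (fun t : ℝ => Real.exp (-(δ * |t|))) := by
  rw [← integrableOn_univ, ← Iic_union_Ioi (a := (0 : ℝ)), integrableOn_union]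
  constructor
  · have h1 := integrableOn_exp_mul_Iic hδ 0
    refine h1.congr_fun (fun t ht => ?_) measurableSet_Iic
    simp only [mem_Iic] at ht
    simp only [abs_of_nonpos ht]
    congr 1
    ring
  · have h1 := integrableOn_exp_mul_Ioi (a := -δ) (by linarith) 0
    refine h1.congr_fun (fun t ht => ?_) measurableSet_Ioi
    simp only [mem_Ioi] at ht
    simp only [abs_of_pos ht]
    congr 1
    ring

theorem fsb_abs {σ : ℝ} (hσ2 : σ ^ 2 = 1) : |σ| = 1 := by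
  have h := sq_abs σ
  rw [hσ2] at h
  nlinarith [abs_nonneg σ]

theorem fsb_cos {θ : ℝ} : 1 - |Real.cos θ| ≥ Real.sin θ ^ 2 / 2 := by
  have h1 := Real.sin_sq_add_cos_sq θ
  have h2 := sq_abs (Real.cos θ)
  have h3 := Real.abs_cos_le_one θ
  have h4 := abs_nonneg (Real.cos θ)
  nlinarith

theorem fsb_den {σ : ℝ} (hσ2 : σ ^ 2 = 1) (τ θ : ℝ) :
    Real.sin θ ^ 2 / 2 * Real.cosh τ ≤ Real.cosh τ + σ * Real.cos θ ∧
      Real.cosh τ + σ * Real.cos θ ≤ 2 * Real.cosh τ := by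
  have h1 := Real.one_le_cosh τ
  have h2 : |σ * Real.cos θ| = |Real.cos θ| := by rw [abs_mul, fsb_abs hσ2, one_mul]
  have h3 := neg_abs_le (σ * Real.cos θ)
  have h4 := le_abs_self (σ * Real.cos θ)
  have h5 := Real.abs_cos_le_one θ
  have h6 := fsb_cos (θ := θ)
  have h7 := abs_nonneg (Real.cos θ)
  rw [h2] at h3 h4
  constructor
  · have h8 : Real.sin θ ^ 2 / 2 * Real.cosh τ ≤ (1 - |Real.cos θ|) * Real.cosh τ :=
      mul_le_mul_of_nonneg_right h6 (by linarith)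
    nlinarith
  · linarith

theorem fsb_cosh (τ : ℝ) : Real.exp |τ| ≤ 2 * Real.cosh τ ∧ Real.cosh τ ≤ Real.exp |τ| := by
  rw [← Real.cosh_abs, Real.cosh_eq]
  have h1 := Real.exp_pos (-|τ|)
  have h2 : Real.exp (-|τ|) ≤ Real.exp |τ| := Real.exp_le_exp.mpr (by linarith [abs_nonneg τ])
  constructor <;> linarith

/-- `cosh τ + σ cos θ ≥ (1 - |cos θ|) cosh τ` -/
theorem fs_h_pos_pr {σ : ℝ} (hσ2 : σ ^ 2 = 1) (τ : ℝ) {θ : ℝ} (hθ : θ ∈ Ioo 0 Real.pi) :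
    0 < hσ σ τ θ := by
  have hs : 0 < Real.sin θ := Real.sin_pos_of_pos_of_lt_pi hθ.1 hθ.2
  have h1 := (fsb_den hσ2 τ θ).1
  have h2 := Real.cosh_pos τ
  have h3 : 0 < Real.cosh τ + σ * Real.cos θ := lt_of_lt_of_le (by positivity) h1
  unfold hσ
  positivity

theorem fs_h_le_pr {σ : ℝ} (hσ2 : σ ^ 2 = 1) {a a' : ℝ} (ha : 0 < a) (ha' : a' < Real.pi) :
    ∃ C : ℝ, 0 < C ∧ ∀ θ ∈ Icc a a', ∀ τ : ℝ, hσ σ τ θ ≤ C * Real.exp (-|τ|) ∧
      Real.exp (-|τ|) ≤ C * hσ σ τ θ := by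
  by_cases hne : (Icc a a').Nonempty
  · obtain ⟨θ₁, hθ₁, hmin⟩ := isCompact_Icc.exists_isMinOn hne
      (Real.continuous_sin.continuousOn (s := Icc a a'))
    set m := Real.sin θ₁ with hm
    have hm0 : 0 < m := Real.sin_pos_of_pos_of_lt_pi (by linarith [hθ₁.1]) (by linarith [hθ₁.2])
    refine ⟨2 / m ^ 2 + 4 / m, by positivity, fun θ hθ τ => ?_⟩
    have hsm : m ≤ Real.sin θ := hmin hθ
    have hs : 0 < Real.sin θ := hm0.trans_le hsm
    have hs1 := Real.sin_le_one θ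
    obtain ⟨h1, h2⟩ := fsb_den hσ2 τ θ
    obtain ⟨h3, h4⟩ := fsb_cosh τ
    have h5 := Real.cosh_pos τ
    have h6 : 0 < Real.cosh τ + σ * Real.cos θ := lt_of_lt_of_le (by positivity) h1
    have h7 : m ^ 2 / 2 * Real.cosh τ ≤ Real.cosh τ + σ * Real.cos θ := by
      refine le_trans ?_ h1
      gcongr
    have hE := Real.exp_pos |τ|
    have e1 : hσ σ τ θ ≤ 2 / m ^ 2 * Real.exp (-|τ|) := by
      unfold hσ
      rw [Real.exp_neg, div_mul_eq_mul_div, ← div_eq_mul_inv, div_div,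
        div_le_div_iff₀ (by positivity) (by positivity)]
      have h8 : Real.exp |τ| * m ^ 2 ≤ 4 * (Real.cosh τ + σ * Real.cos θ) := by
        nlinarith [mul_le_mul_of_nonneg_right h3 (sq_nonneg m)]
      have h9 : Real.sin θ * (Real.exp |τ| * m ^ 2) ≤ 1 * (Real.exp |τ| * m ^ 2) :=
        mul_le_mul_of_nonneg_right hs1 (by positivity)
      linarith
    have e2 : Real.exp (-|τ|) ≤ 4 / m * hσ σ τ θ := by
      unfold hσ
      rw [Real.exp_neg, inv_eq_one_div, div_mul_div_comm,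
        div_le_div_iff₀ (by positivity) (by positivity)]
      have h8 : Real.cosh τ + σ * Real.cos θ ≤ 2 * Real.exp |τ| := by linarith
      have h9 : m * (Real.cosh τ + σ * Real.cos θ) ≤ Real.sin θ * (2 * Real.exp |τ|) :=
        mul_le_mul hsm h8 h6.le hs.le
      linarith
    have h10 : 0 ≤ hσ σ τ θ := by
      unfold hσ
      positivity
    constructor
    · refine e1.trans (mul_le_mul_of_nonneg_right ?_ (Real.exp_pos _).le)
      have : 0 < 4 / m := by positivity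
      linarith
    · refine e2.trans (mul_le_mul_of_nonneg_right ?_ h10)
      have : 0 < 2 / m ^ 2 := by positivity
      linarith
  · refine ⟨1, one_pos, fun θ hθ => absurd ⟨θ, hθ⟩ hne⟩

theorem fsb_cont_h {σ : ℝ} (hσ2 : σ ^ 2 = 1) {θ : ℝ} (hθ : θ ∈ Ioo 0 Real.pi) :
    Continuous (fun τ => hσ σ τ θ) := by
  have hs : 0 < Real.sin θ := Real.sin_pos_of_pos_of_lt_pi hθ.1 hθ.2
  unfold hσ
  refine continuous_const.div (by fun_prop) (fun τ => ?_)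
  have h1 := (fsb_den hσ2 τ θ).1
  have h2 := Real.cosh_pos τ
  have h3 : 0 < Real.cosh τ + σ * Real.cos θ := lt_of_lt_of_le (by positivity) h1
  positivity

theorem fsb_cont_cpow {σ : ℝ} (hσ2 : σ ^ 2 = 1) {θ : ℝ} (hθ : θ ∈ Ioo 0 Real.pi) (s : ℂ) :
    Continuous (fun τ : ℝ => ((hσ σ τ θ : ℝ) : ℂ) ^ s) := by
  refine Continuous.cpow (Complex.continuous_ofReal.comp (fsb_cont_h hσ2 hθ)) continuous_const
    (fun τ => ?_)
  exact Or.inl (by simpa using fs_h_pos_pr hσ2 τ hθ)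

/-- the pointwise bound on strips -/
theorem fsb_pt {σ : ℝ} (hσ2 : σ ^ 2 = 1) {a a' : ℝ} (ha : 0 < a) (ha' : a' < Real.pi) {x₀ x₁ : ℝ}
    (hx : 0 < x₀) : ∃ C : ℝ, 0 ≤ C ∧ ∀ θ ∈ Icc a a', ∀ s : ℂ, x₀ ≤ s.re → s.re ≤ x₁ → ∀ τ : ℝ,
      ‖((hσ σ τ θ : ℝ) : ℂ) ^ s‖ ≤ C * Real.exp (-(x₀ * |τ|)) := by
  obtain ⟨C, hC, hb⟩ := fs_h_le_pr hσ2 ha ha'
  refine ⟨(max C 1) ^ x₁, by positivity, fun θ hθ s h0 h1 τ => ?_⟩
  have hθ' : θ ∈ Ioo 0 Real.pi := ⟨ha.trans_le hθ.1, hθ.2.trans_lt ha'⟩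
  have hp := fs_h_pos_pr hσ2 τ hθ'
  rw [Complex.norm_cpow_eq_rpow_re_of_pos hp]
  have hs0 : 0 < s.re := hx.trans_le h0
  calc hσ σ τ θ ^ s.re ≤ (max C 1 * Real.exp (-|τ|)) ^ s.re := by
        apply Real.rpow_le_rpow hp.le _ hs0.le
        refine ((hb θ hθ τ).1).trans ?_
        exact mul_le_mul_of_nonneg_right (le_max_left _ _) (Real.exp_pos _).le
    _ = (max C 1) ^ s.re * Real.exp (-(s.re * |τ|)) := by
        rw [Real.mul_rpow (by positivity) (Real.exp_pos _).le, ← Real.exp_mul]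
        congr 2
        ring
    _ ≤ (max C 1) ^ x₁ * Real.exp (-(x₀ * |τ|)) := by
        have e1 : (max C 1) ^ s.re ≤ (max C 1) ^ x₁ :=
          Real.rpow_le_rpow_of_exponent_le (le_max_right _ _) h1
        have e2 : Real.exp (-(s.re * |τ|)) ≤ Real.exp (-(x₀ * |τ|)) := by
          apply Real.exp_le_exp.mpr
          have := mul_le_mul_of_nonneg_right h0 (abs_nonneg τ)
          linarith
        exact mul_le_mul e1 e2 (Real.exp_pos _).le (by positivity)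

/-- bound for `FS` on vertical strips -/
theorem fs_bd_pr {σ : ℝ} (hσ2 : σ ^ 2 = 1) {a a' : ℝ} (ha : 0 < a) (ha' : a' < Real.pi)
    {x₀ x₁ : ℝ} (hx : 0 < x₀) : ∃ C : ℝ, ∀ θ ∈ Icc a a', ∀ s : ℂ, x₀ ≤ s.re → s.re ≤ x₁ →
      Integrable (fun τ : ℝ => ((hσ σ τ θ : ℝ) : ℂ) ^ s) ∧ ‖FS σ s θ‖ ≤ C := by
  obtain ⟨C, hC0, hC⟩ := fsb_pt hσ2 ha ha' (x₁ := x₁) hx
  refine ⟨∫ τ : ℝ, C * Real.exp (-(x₀ * |τ|)), fun θ hθ s h0 h1 => ?_⟩
  have hθ' : θ ∈ Ioo 0 Real.pi := ⟨ha.trans_le hθ.1, hθ.2.trans_lt ha'⟩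
  have hI := (fsb_int_exp hx).const_mul C
  constructor
  · exact hI.mono' (fsb_cont_cpow hσ2 hθ' s).aestronglyMeasurable
      (ae_of_all _ fun τ => hC θ hθ s h0 h1 τ)
  · unfold FS
    exact norm_integral_le_of_norm_le hI (ae_of_all _ fun τ => hC θ hθ s h0 h1 τ)

theorem fs_cont_pr {σ : ℝ} (hσ2 : σ ^ 2 = 1) :
    ContinuousOn (fun p : ℂ × ℝ => FS σ p.1 p.2) ({s : ℂ | 0 < s.re} ×ˢ Ioo 0 Real.pi) := by
  intro p hp
  obtain ⟨hs, hθ⟩ := hp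
  have hs' : 0 < p.1.re := hs
  apply ContinuousAt.continuousWithinAt
  have ha : 0 < p.2 / 2 := by linarith [hθ.1]
  have ha' : (p.2 + Real.pi) / 2 < Real.pi := by linarith [hθ.2]
  obtain ⟨C, hC0, hC⟩ := fsb_pt hσ2 ha ha' (x₀ := p.1.re / 2) (x₁ := p.1.re + 1) (by linarith)
  have hev : ∀ᶠ q : ℂ × ℝ in 𝓝 p, q.2 ∈ Icc (p.2 / 2) ((p.2 + Real.pi) / 2) ∧
      p.1.re / 2 ≤ q.1.re ∧ q.1.re ≤ p.1.re + 1 := by
    have h1 : ∀ᶠ q : ℂ × ℝ in 𝓝 p, q.2 ∈ Ioo (p.2 / 2) ((p.2 + Real.pi) / 2) :=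
      continuous_snd.continuousAt (isOpen_Ioo.mem_nhds
        ⟨by linarith [hθ.1], by linarith [hθ.2]⟩)
    have h2 : ∀ᶠ q : ℂ × ℝ in 𝓝 p, q.1.re ∈ Ioo (p.1.re / 2) (p.1.re + 1) := by
      have hc : ContinuousAt (fun q : ℂ × ℝ => q.1.re) p :=
        (Complex.continuous_re.comp continuous_fst).continuousAt
      exact hc (isOpen_Ioo.mem_nhds ⟨by linarith, by linarith⟩)
    filter_upwards [h1, h2] with q hq1 hq2
    exact ⟨Ioo_subset_Icc_self hq1, hq2.1.le, hq2.2.le⟩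
  unfold FS
  refine MeasureTheory.continuousAt_of_dominated
    (bound := fun τ : ℝ => C * Real.exp (-(p.1.re / 2 * |τ|))) ?_ ?_ ?_ ?_
  · filter_upwards [hev] with q hq
    exact (fsb_cont_cpow hσ2 (σ := σ) (θ := q.2) ⟨ha.trans_le hq.1.1, hq.1.2.trans_lt ha'⟩
      q.1).aestronglyMeasurable
  · filter_upwards [hev] with q hq
    exact ae_of_all _ fun τ => hC q.2 hq.1 q.1 hq.2.1 hq.2.2 τ
  · exact (fsb_int_exp (by linarith)).const_mul C
  · refine ae_of_all _ fun τ => ?_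
    have hh : ContinuousAt (fun q : ℂ × ℝ => hσ σ τ q.2) p := by
      unfold hσ
      have h1 := (fsb_den hσ2 τ p.2).1
      have h2 := Real.cosh_pos τ
      have hsn : 0 < Real.sin p.2 := Real.sin_pos_of_pos_of_lt_pi hθ.1 hθ.2
      have h3 : 0 < Real.cosh τ + σ * Real.cos p.2 := lt_of_lt_of_le (by positivity) h1
      refine ContinuousAt.div (by fun_prop) (by fun_prop) (by positivity)
    refine ContinuousAt.cpow (Complex.continuous_ofReal.continuousAt.comp hh)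
      continuous_fst.continuousAt ?_
    exact Or.inl (by simpa using fs_h_pos_pr hσ2 τ hθ)

theorem fs_hj_pr {σ : ℝ} (hσ2 : σ ^ 2 = 1) (κ : ℝ) {θ : ℝ} (hθ : θ ∈ Ioo 0 Real.pi) :
    HJ σ κ (θ : ℂ) = (2 : ℂ) ^ ((1 / 2 : ℂ) + κ * I) * FS σ ((1 / 2 : ℂ) + κ * I) θ := by
  unfold HJ FS
  rw [← integral_const_mul]
  refine integral_congr_ae (ae_of_all _ fun τ => ?_)
  have h := (fs_h_pos_pr hσ2 τ hθ).le
  have e1 : Complex.sin (θ : ℂ) / ((Real.cosh τ : ℂ) + σ * Complex.cos (θ : ℂ)) =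
      (((2 : ℝ) : ℂ) * ((hσ σ τ θ : ℝ) : ℂ)) := by
    unfold hσ
    rw [← Complex.ofReal_sin, ← Complex.ofReal_cos]
    push_cast
    rw [← mul_div_assoc, mul_div_mul_left _ _ (two_ne_zero' ℂ)]
  show (Complex.sin (θ : ℂ) / ((Real.cosh τ : ℂ) + σ * Complex.cos (θ : ℂ))) ^
      ((1 / 2 : ℂ) + Complex.I * κ) = (2 : ℂ) ^ ((1 / 2 : ℂ) + κ * I) *
        ((hσ σ τ θ : ℝ) : ℂ) ^ ((1 / 2 : ℂ) + κ * I)
  rw [e1, Complex.mul_cpow_ofReal_nonneg (by norm_num) h, mul_comm (I : ℂ) (κ : ℂ)]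
  norm_num

theorem fs_conj_pr {σ : ℝ} (hσ2 : σ ^ 2 = 1) (s : ℂ) {θ : ℝ} (hθ : θ ∈ Ioo 0 Real.pi) :
    conj (FS σ s θ) = FS σ (conj s) θ := by
  unfold FS
  rw [← integral_conj]
  refine integral_congr_ae (ae_of_all _ fun τ => ?_)
  have h := fs_h_pos_pr hσ2 τ hθ
  show conj (((hσ σ τ θ : ℝ) : ℂ) ^ s) = ((hσ σ τ θ : ℝ) : ℂ) ^ (conj s)
  rw [Complex.cpow_conj _ _ (by rw [Complex.arg_ofReal_of_nonneg h.le]; exact Real.pi_pos.ne),
    Complex.conj_ofReal]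

end Pool.Agent.JO
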