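import Pool.Agent.Lib_helper84.JO6.N1

/-!
# Project JO, part E6, block FST: the differential equation of the functions `FS`
-/

set_option autoImplicit false

namespace Pool.Agent.JO

open Complex MeasureTheory Filter Topology Set ModularGroup
open UpperHalfPlane hiding I
open Pool.Agent.Lib_helper37.JO (HJ)
open scoped MatrixGroups ComplexConjugate ContDiff

/-- `∂_θ log h` -/
noncomputable def fst_g (σ τ θ : ℝ) : ℝ :=
  (Real.cos θ * Real.cosh τ + σ) / (Real.sin θ * (Real.cosh τ + σ * Real.cos θ))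

/-- `-∂_τ log h` -/
noncomputable def fst_e (σ τ θ : ℝ) : ℝ := Real.sinh τ / (Real.cosh τ + σ * Real.cos θ)

/-- `∂_τ e` -/
noncomputable def fst_p (σ τ θ : ℝ) : ℝ :=
  (1 + σ * Real.cosh τ * Real.cos θ) / (Real.cosh τ + σ * Real.cos θ) ^ 2

theorem fst_sin {θ : ℝ} (h : θ ∈ Ioo 0 Real.pi) : 0 < Real.sin θ :=
  Real.sin_pos_of_pos_of_lt_pi h.1 h.2

theorem fst_abs {σ : ℝ} (hσ2 : σ ^ 2 = 1) (θ : ℝ) : |σ * Real.cos θ| ≤ 1 := by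
  have h1 : (σ * Real.cos θ) ^ 2 ≤ 1 ^ 2 := by
    rw [mul_pow, hσ2, one_mul, one_pow]
    exact Real.cos_sq_le_one θ
  exact abs_le_of_sq_le_sq h1 one_pos.le

theorem fst_den {σ : ℝ} (hσ2 : σ ^ 2 = 1) {θ : ℝ} (h : θ ∈ Ioo 0 Real.pi) (τ : ℝ) :
    0 < Real.cosh τ + σ * Real.cos θ := by
  have h1 := Real.one_le_cosh τ
  have h2 := fst_abs hσ2 θ
  have h3 : σ * Real.cos θ ≠ -1 := by
    intro h4
    have h5 : (σ * Real.cos θ) ^ 2 = 1 := by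
      rw [h4]
      norm_num
    rw [mul_pow, hσ2, one_mul] at h5
    have h6 := Real.sin_sq_add_cos_sq θ
    have h7 := fst_sin h
    nlinarith
  have h4 : -1 < σ * Real.cos θ := lt_of_le_of_ne (abs_le.1 h2).1 h3.symm
  linarith

theorem fst_dh {σ : ℝ} (hσ2 : σ ^ 2 = 1) {θ : ℝ} (h : θ ∈ Ioo 0 Real.pi) (τ : ℝ) :
    HasDerivAt (fun t => hσ σ τ t) (hσ σ τ θ * fst_g σ τ θ) θ := by
  have hd := fst_den hσ2 h τ
  have hs := fst_sin h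
  have h1 : HasDerivAt (fun t => Real.sin t / (2 * (Real.cosh τ + σ * Real.cos t)))
      ((Real.cos θ * (2 * (Real.cosh τ + σ * Real.cos θ)) -
        Real.sin θ * (2 * (σ * -Real.sin θ))) /
        (2 * (Real.cosh τ + σ * Real.cos θ)) ^ 2) θ := by
    refine (Real.hasDerivAt_sin θ).div ?_ (by positivity)
    exact (((Real.hasDerivAt_cos θ).const_mul σ).const_add (Real.cosh τ)).const_mul 2
  refine HasDerivAt.congr_deriv (f := fun t => hσ σ τ t) h1 ?_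
  have h2 := Real.sin_sq_add_cos_sq θ
  unfold hσ fst_g
  rw [div_mul_div_comm, div_eq_div_iff (by positivity) (by positivity)]
  linear_combination (4 * Real.sin θ * (Real.cosh τ + σ * Real.cos θ) ^ 2 * σ) * h2

theorem fst_dg {σ : ℝ} (hσ2 : σ ^ 2 = 1) {θ : ℝ} (h : θ ∈ Ioo 0 Real.pi) (τ : ℝ) :
    HasDerivAt (fun t => fst_g σ τ t) (fst_p σ τ θ - 1 / Real.sin θ ^ 2) θ := by
  have hd := fst_den hσ2 h τ
  have hs := fst_sin h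
  have h1 : HasDerivAt (fun t => (Real.cos t * Real.cosh τ + σ) /
      (Real.sin t * (Real.cosh τ + σ * Real.cos t)))
      (((-Real.sin θ * Real.cosh τ) * (Real.sin θ * (Real.cosh τ + σ * Real.cos θ))
        - (Real.cos θ * Real.cosh τ + σ) * (Real.cos θ * (Real.cosh τ + σ * Real.cos θ)
          + Real.sin θ * (σ * -Real.sin θ))) /
        (Real.sin θ * (Real.cosh τ + σ * Real.cos θ)) ^ 2) θ := by
    refine HasDerivAt.div ?_ ?_ (by positivity)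
    · exact ((Real.hasDerivAt_cos θ).mul_const _).add_const σ
    · exact (Real.hasDerivAt_sin θ).mul
        (((Real.hasDerivAt_cos θ).const_mul σ).const_add (Real.cosh τ))
  refine HasDerivAt.congr_deriv (f := fun t => fst_g σ τ t) h1 ?_
  have h2 := Real.sin_sq_add_cos_sq θ
  have key : (-Real.sin θ * Real.cosh τ) * (Real.sin θ * (Real.cosh τ + σ * Real.cos θ))
        - (Real.cos θ * Real.cosh τ + σ) * (Real.cos θ * (Real.cosh τ + σ * Real.cos θ)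
          + Real.sin θ * (σ * -Real.sin θ)) =
      (1 + σ * Real.cosh τ * Real.cos θ) * Real.sin θ ^ 2 -
        (Real.cosh τ + σ * Real.cos θ) ^ 2 := by
    linear_combination (-(Real.cosh τ ^ 2 + σ * Real.cos θ * Real.cosh τ)) * h2 +
      Real.sin θ ^ 2 * hσ2
  rw [key]
  unfold fst_p
  rw [div_sub_div _ _ (by positivity) (by positivity)]
  congr 1
  · ring
  · ring

theorem fst_dht {σ : ℝ} (hσ2 : σ ^ 2 = 1) {θ : ℝ} (h : θ ∈ Ioo 0 Real.pi) (τ : ℝ) :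
    HasDerivAt (fun t => hσ σ t θ) (-(hσ σ τ θ * fst_e σ τ θ)) τ := by
  have hd := fst_den hσ2 h τ
  have h1 : HasDerivAt (fun t => Real.sin θ / (2 * (Real.cosh t + σ * Real.cos θ)))
      ((0 * (2 * (Real.cosh τ + σ * Real.cos θ)) - Real.sin θ * (2 * Real.sinh τ)) /
        (2 * (Real.cosh τ + σ * Real.cos θ)) ^ 2) τ := by
    refine (hasDerivAt_const τ (Real.sin θ)).div ?_ (by positivity)
    exact ((Real.hasDerivAt_cosh τ).add_const _).const_mul 2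
  refine HasDerivAt.congr_deriv (f := fun t => hσ σ t θ) h1 ?_
  unfold hσ fst_e
  rw [div_mul_div_comm, ← neg_div, div_eq_div_iff (by positivity) (by positivity)]
  ring

theorem fst_det {σ : ℝ} (hσ2 : σ ^ 2 = 1) {θ : ℝ} (h : θ ∈ Ioo 0 Real.pi) (τ : ℝ) :
    HasDerivAt (fun t => fst_e σ t θ) (fst_p σ τ θ) τ := by
  have hd := (fst_den hσ2 h τ).ne'
  have h1 : HasDerivAt (fun t => Real.sinh t / (Real.cosh t + σ * Real.cos θ))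
      ((Real.cosh τ * (Real.cosh τ + σ * Real.cos θ) - Real.sinh τ * Real.sinh τ) /
        (Real.cosh τ + σ * Real.cos θ) ^ 2) τ := by
    refine (Real.hasDerivAt_sinh τ).div ?_ hd
    exact (Real.hasDerivAt_cosh τ).add_const _
  refine HasDerivAt.congr_deriv (f := fun t => fst_e σ t θ) h1 ?_
  unfold fst_p
  congr 1
  linear_combination Real.cosh_sq τ

theorem fst_id {σ : ℝ} (hσ2 : σ ^ 2 = 1) {θ : ℝ} (h : θ ∈ Ioo 0 Real.pi) (τ : ℝ) :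
    fst_g σ τ θ ^ 2 + fst_e σ τ θ ^ 2 = 1 / Real.sin θ ^ 2 := by
  have hd := fst_den hσ2 h τ
  have hs := fst_sin h
  have h1 := Real.cosh_sq τ
  have h2 := Real.sin_sq_add_cos_sq θ
  unfold fst_g fst_e
  rw [div_pow, div_pow, div_add_div _ _ (by positivity) (by positivity),
    div_eq_div_iff (by positivity) (by positivity)]
  have key : (Real.cos θ * Real.cosh τ + σ) ^ 2 + Real.sin θ ^ 2 * Real.sinh τ ^ 2 =
      (Real.cosh τ + σ * Real.cos θ) ^ 2 := by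
    linear_combination (Real.cosh τ ^ 2 - σ ^ 2) * h2 - Real.sin θ ^ 2 * h1 +
      Real.sin θ ^ 2 * hσ2
  linear_combination ((Real.cosh τ + σ * Real.cos θ) ^ 2 * Real.sin θ ^ 2) * key

theorem fst_gabs {σ : ℝ} (hσ2 : σ ^ 2 = 1) {θ : ℝ} (h : θ ∈ Ioo 0 Real.pi) (τ : ℝ) :
    |fst_g σ τ θ| ≤ 1 / Real.sin θ := by
  have hs := fst_sin h
  refine abs_le_of_sq_le_sq ?_ (by positivity)
  rw [div_pow, one_pow, ← fst_id hσ2 h τ]
  linarith [sq_nonneg (fst_e σ τ θ)]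

theorem fst_eabs {σ : ℝ} (hσ2 : σ ^ 2 = 1) {θ : ℝ} (h : θ ∈ Ioo 0 Real.pi) (τ : ℝ) :
    |fst_e σ τ θ| ≤ 1 / Real.sin θ := by
  have hs := fst_sin h
  refine abs_le_of_sq_le_sq ?_ (by positivity)
  rw [div_pow, one_pow, ← fst_id hσ2 h τ]
  linarith [sq_nonneg (fst_g σ τ θ)]

theorem fst_pabs {σ : ℝ} (hσ2 : σ ^ 2 = 1) {θ : ℝ} (h : θ ∈ Ioo 0 Real.pi) (τ : ℝ) {C : ℝ}
    (hC : hσ σ τ θ ≤ C) : |fst_p σ τ θ| ≤ 1 + 2 * C / Real.sin θ + 1 / Real.sin θ ^ 2 := by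
  have hd := fst_den hσ2 h τ
  have hs := fst_sin h
  have hh := fs_h_pos hσ2 τ h
  have h1 : fst_p σ τ θ = 1 - σ * Real.cos θ * (2 * hσ σ τ θ / Real.sin θ) -
      fst_e σ τ θ ^ 2 := by
    unfold fst_p fst_e hσ
    have h2 := Real.cosh_sq τ
    have h3 : 2 * (Real.sin θ / (2 * (Real.cosh τ + σ * Real.cos θ))) / Real.sin θ =
        1 / (Real.cosh τ + σ * Real.cos θ) := by
      rw [div_eq_div_iff hs.ne' hd.ne']
      have h4 : 2 * (Real.sin θ / (2 * (Real.cosh τ + σ * Real.cos θ))) =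
          Real.sin θ / (Real.cosh τ + σ * Real.cos θ) := by
        rw [mul_div_assoc', mul_div_mul_left _ _ two_ne_zero]
      rw [h4, div_mul_cancel₀ _ hd.ne', one_mul]
    rw [h3, div_pow]
    have h5 : (1 : ℝ) = (Real.cosh τ + σ * Real.cos θ) ^ 2 / (Real.cosh τ + σ * Real.cos θ) ^ 2 :=
      (div_self (by positivity)).symm
    have h6 : σ * Real.cos θ * (1 / (Real.cosh τ + σ * Real.cos θ)) =
        σ * Real.cos θ * (Real.cosh τ + σ * Real.cos θ) /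
          (Real.cosh τ + σ * Real.cos θ) ^ 2 := by
      rw [mul_one_div, div_eq_div_iff hd.ne' (by positivity)]
      ring
    rw [h6]
    nth_rewrite 2 [h5]
    rw [← sub_div, ← sub_div]
    congr 1
    linear_combination -h2
  have h2 : |σ * Real.cos θ * (2 * hσ σ τ θ / Real.sin θ)| ≤ 2 * C / Real.sin θ := by
    rw [abs_mul, abs_of_nonneg (by positivity : (0 : ℝ) ≤ 2 * hσ σ τ θ / Real.sin θ)]
    calc |σ * Real.cos θ| * (2 * hσ σ τ θ / Real.sin θ) ≤ 1 * (2 * hσ σ τ θ / Real.sin θ) :=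
          mul_le_mul_of_nonneg_right (fst_abs hσ2 θ) (by positivity)
      _ ≤ 2 * C / Real.sin θ := by
          rw [one_mul]
          gcongr
  have h3 : fst_e σ τ θ ^ 2 ≤ 1 / Real.sin θ ^ 2 := by
    rw [← fst_id hσ2 h τ]
    linarith [sq_nonneg (fst_g σ τ θ)]
  have h4 := sq_nonneg (fst_e σ τ θ)
  rw [h1]
  have h5 := abs_le.1 h2
  rw [abs_le]
  constructor
  · linarith [h5.1, h5.2]
  · linarith [h5.1, h5.2, (by positivity : (0 : ℝ) ≤ 1 / Real.sin θ ^ 2)]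

theorem fst_nhds {θ : ℝ} (h : θ ∈ Ioo 0 Real.pi) : ∃ a a' δ : ℝ, 0 < a ∧ a' < Real.pi ∧ 0 < δ ∧
    ∀ t ∈ Metric.ball θ δ, t ∈ Ioo 0 Real.pi ∧ t ∈ Icc a a' ∧ Real.sin θ / 2 ≤ Real.sin t := by
  have h1 : ∀ᶠ t in 𝓝 θ, t ∈ Ioo (θ / 2) ((θ + Real.pi) / 2) :=
    isOpen_Ioo.mem_nhds ⟨by linarith [h.1], by linarith [h.2]⟩
  have h2 : ∀ᶠ t in 𝓝 θ, Real.sin θ / 2 < Real.sin t := by
    have h3 : Tendsto Real.sin (𝓝 θ) (𝓝 (Real.sin θ)) := Real.continuous_sin.continuousAt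
    exact h3.eventually_const_lt (by linarith [fst_sin h])
  obtain ⟨δ, hδ, hb⟩ := Metric.eventually_nhds_iff_ball.mp (h1.and h2)
  refine ⟨θ / 2, (θ + Real.pi) / 2, δ, by linarith [h.1], by linarith [h.2], hδ,
    fun t ht => ⟨⟨?_, ?_⟩, ⟨(hb t ht).1.1.le, (hb t ht).1.2.le⟩, (hb t ht).2.le⟩⟩
  · linarith [(hb t ht).1.1, h.1]
  · linarith [(hb t ht).1.2, h.2]

theorem fst_norm {σ : ℝ} (hσ2 : σ ^ 2 = 1) {θ : ℝ} (h : θ ∈ Ioo 0 Real.pi) (τ : ℝ) (s : ℂ) :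
    ‖((hσ σ τ θ : ℝ) : ℂ) ^ s‖ = hσ σ τ θ ^ s.re :=
  Complex.norm_cpow_eq_rpow_re_of_pos (fs_h_pos hσ2 τ h) s

theorem fst_bd {σ : ℝ} (hσ2 : σ ^ 2 = 1) {a a' x : ℝ} (ha : 0 < a) (ha' : a' < Real.pi)
    (hx : 0 < x) : ∃ C B : ℝ, 0 ≤ C ∧ 0 ≤ B ∧ ∀ θ ∈ Icc a a', ∀ τ : ℝ, hσ σ τ θ ≤ C ∧
      hσ σ τ θ ^ x ≤ B * Real.exp (-(x * |τ|)) := by
  obtain ⟨C, hC, hb⟩ := fs_h_le hσ2 ha ha'
  refine ⟨C, C ^ x, hC.le, (Real.rpow_pos_of_pos hC x).le, fun θ hθ τ => ⟨?_, ?_⟩⟩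
  · refine (hb θ hθ τ).1.trans ?_
    have h1 : Real.exp (-|τ|) ≤ 1 := by
      rw [Real.exp_le_one_iff]
      linarith [abs_nonneg τ]
    nlinarith
  · have hθ' : θ ∈ Ioo 0 Real.pi := ⟨lt_of_lt_of_le ha hθ.1, lt_of_le_of_lt hθ.2 ha'⟩
    calc hσ σ τ θ ^ x ≤ (C * Real.exp (-|τ|)) ^ x :=
          Real.rpow_le_rpow (fs_h_pos hσ2 τ hθ').le (hb θ hθ τ).1 hx.le
      _ = C ^ x * Real.exp (-(x * |τ|)) := by
          rw [Real.mul_rpow hC.le (Real.exp_pos _).le, ← Real.exp_mul]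
          congr 2
          ring

theorem fst_ch {σ : ℝ} (hσ2 : σ ^ 2 = 1) {θ : ℝ} (h : θ ∈ Ioo 0 Real.pi) (s : ℂ) :
    Continuous (fun τ => ((hσ σ τ θ : ℝ) : ℂ) ^ s) := by
  have h1 : Continuous (fun τ => hσ σ τ θ) := by
    unfold hσ
    refine continuous_const.div (by fun_prop) (fun τ => ?_)
    have := fst_den hσ2 h τ
    positivity
  refine Continuous.cpow (Complex.continuous_ofReal.comp h1) continuous_const (fun τ => ?_)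
  exact Or.inl (by simpa using fs_h_pos hσ2 τ h)

theorem fst_cg {σ : ℝ} (hσ2 : σ ^ 2 = 1) {θ : ℝ} (h : θ ∈ Ioo 0 Real.pi) :
    Continuous (fun τ => ((fst_g σ τ θ : ℝ) : ℂ)) := by
  refine Complex.continuous_ofReal.comp ?_
  unfold fst_g
  refine Continuous.div (by fun_prop) (by fun_prop) (fun τ => ?_)
  have := fst_den hσ2 h τ
  have := fst_sin h
  positivity

theorem fst_ce {σ : ℝ} (hσ2 : σ ^ 2 = 1) {θ : ℝ} (h : θ ∈ Ioo 0 Real.pi) :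
    Continuous (fun τ => ((fst_e σ τ θ : ℝ) : ℂ)) := by
  refine Complex.continuous_ofReal.comp ?_
  unfold fst_e
  exact Continuous.div (by fun_prop) (by fun_prop) (fun τ => (fst_den hσ2 h τ).ne')

theorem fst_cp {σ : ℝ} (hσ2 : σ ^ 2 = 1) {θ : ℝ} (h : θ ∈ Ioo 0 Real.pi) :
    Continuous (fun τ => fst_p σ τ θ) := by
  unfold fst_p
  refine Continuous.div (by fun_prop) (by fun_prop) (fun τ => ?_)
  have := fst_den hσ2 h τ
  positivity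

theorem fst_dcp {σ : ℝ} (hσ2 : σ ^ 2 = 1) {θ : ℝ} (h : θ ∈ Ioo 0 Real.pi) (τ : ℝ) (s : ℂ) :
    HasDerivAt (fun t => ((hσ σ τ t : ℝ) : ℂ) ^ s)
      (s * (((hσ σ τ θ : ℝ) : ℂ) ^ s * ((fst_g σ τ θ : ℝ) : ℂ))) θ := by
  have h0 : ((hσ σ τ θ : ℝ) : ℂ) ≠ 0 := by exact_mod_cast (fs_h_pos hσ2 τ h).ne'
  have h1 : HasDerivAt (fun t => ((hσ σ τ t : ℝ) : ℂ)) (((hσ σ τ θ * fst_g σ τ θ : ℝ)) : ℂ) θ :=
    (fst_dh hσ2 h τ).ofReal_comp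
  have hslit : ((hσ σ τ θ : ℝ) : ℂ) ∈ Complex.slitPlane :=
    Or.inl (by simpa using fs_h_pos hσ2 τ h)
  have h3 : HasDerivAt (fun z : ℂ => z ^ s) (s * ((hσ σ τ θ : ℝ) : ℂ) ^ (s - 1) * 1)
      ((hσ σ τ θ : ℝ) : ℂ) := (hasDerivAt_id _).cpow_const hslit
  have h2 := h3.scomp θ h1
  refine HasDerivAt.congr_deriv (f := fun t => ((hσ σ τ t : ℝ) : ℂ) ^ s) h2 ?_
  rw [Complex.cpow_sub _ _ h0, Complex.cpow_one, smul_eq_mul]
  push_cast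
  field_simp

theorem fst_dtau {σ : ℝ} (hσ2 : σ ^ 2 = 1) {θ : ℝ} (h : θ ∈ Ioo 0 Real.pi) (τ : ℝ) (s : ℂ) :
    HasDerivAt (fun t => ((hσ σ t θ : ℝ) : ℂ) ^ s * ((fst_e σ t θ : ℝ) : ℂ))
      (((hσ σ τ θ : ℝ) : ℂ) ^ s * ((fst_p σ τ θ : ℝ) : ℂ) -
        s * (((hσ σ τ θ : ℝ) : ℂ) ^ s * ((fst_e σ τ θ : ℝ) : ℂ) ^ 2)) τ := by
  have h0 : ((hσ σ τ θ : ℝ) : ℂ) ≠ 0 := by exact_mod_cast (fs_h_pos hσ2 τ h).ne'
  have h1 : HasDerivAt (fun t => ((hσ σ t θ : ℝ) : ℂ)) (((-(hσ σ τ θ * fst_e σ τ θ) : ℝ)) : ℂ) τ :=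
    (fst_dht hσ2 h τ).ofReal_comp
  have hslit : ((hσ σ τ θ : ℝ) : ℂ) ∈ Complex.slitPlane :=
    Or.inl (by simpa using fs_h_pos hσ2 τ h)
  have h3 : HasDerivAt (fun z : ℂ => z ^ s) (s * ((hσ σ τ θ : ℝ) : ℂ) ^ (s - 1) * 1)
      ((hσ σ τ θ : ℝ) : ℂ) := (hasDerivAt_id _).cpow_const hslit
  have h2 : HasDerivAt (fun t => ((hσ σ t θ : ℝ) : ℂ) ^ s)
      ((((-(hσ σ τ θ * fst_e σ τ θ) : ℝ)) : ℂ) • (s * ((hσ σ τ θ : ℝ) : ℂ) ^ (s - 1) * 1)) τ := by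
    have := h3.scomp τ h1
    exact this
  have h4 : HasDerivAt (fun t => ((fst_e σ t θ : ℝ) : ℂ)) ((fst_p σ τ θ : ℝ) : ℂ) τ :=
    (fst_det hσ2 h τ).ofReal_comp
  refine (h2.mul h4).congr_deriv ?_
  rw [Complex.cpow_sub _ _ h0, Complex.cpow_one, smul_eq_mul]
  push_cast
  field_simp
  ring

theorem fst_ih {σ : ℝ} (hσ2 : σ ^ 2 = 1) {θ : ℝ} (h : θ ∈ Ioo 0 Real.pi) {s : ℂ}
    (hs : 0 < s.re) : Integrable (fun τ => ((hσ σ τ θ : ℝ) : ℂ) ^ s) := by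
  obtain ⟨C, B, hC, hB, hb⟩ := fst_bd hσ2 h.1 h.2 hs
  refine ((Pool.Agent.SP.f2_int hs).const_mul B).mono' (fst_ch hσ2 h s).aestronglyMeasurable
    (ae_of_all _ fun τ => ?_)
  rw [fst_norm hσ2 h]
  exact (hb θ ⟨le_rfl, le_rfl⟩ τ).2

/-- bounded continuous factors -/
theorem fst_imul {σ : ℝ} (hσ2 : σ ^ 2 = 1) {θ : ℝ} (h : θ ∈ Ioo 0 Real.pi) {s : ℂ}
    (hs : 0 < s.re) {f : ℝ → ℂ} (hf : Continuous f) {D : ℝ} (hD : ∀ τ, ‖f τ‖ ≤ D) :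
    Integrable (fun τ => ((hσ σ τ θ : ℝ) : ℂ) ^ s * f τ) := by
  refine ((fst_ih hσ2 h hs).norm.const_mul D).mono'
    ((fst_ch hσ2 h s).mul hf).aestronglyMeasurable (ae_of_all _ fun τ => ?_)
  rw [norm_mul, mul_comm]
  exact mul_le_mul_of_nonneg_right (hD τ) (norm_nonneg _)

theorem fst_iz {σ : ℝ} (hσ2 : σ ^ 2 = 1) {θ : ℝ} (h : θ ∈ Ioo 0 Real.pi) {s : ℂ}
    (hs : 0 < s.re) :
    Integrable (fun τ => ((hσ σ τ θ : ℝ) : ℂ) ^ s * ((fst_p σ τ θ : ℝ) : ℂ) -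
        s * (((hσ σ τ θ : ℝ) : ℂ) ^ s * ((fst_e σ τ θ : ℝ) : ℂ) ^ 2)) ∧
    ∫ τ : ℝ, (((hσ σ τ θ : ℝ) : ℂ) ^ s * ((fst_p σ τ θ : ℝ) : ℂ) -
        s * (((hσ σ τ θ : ℝ) : ℂ) ^ s * ((fst_e σ τ θ : ℝ) : ℂ) ^ 2)) = 0 := by
  obtain ⟨C, B, hC, hB, hb⟩ := fst_bd hσ2 h.1 h.2 hs
  have hi1 := fst_imul hσ2 h hs (f := fun τ => ((fst_p σ τ θ : ℝ) : ℂ))
    (Complex.continuous_ofReal.comp (fst_cp hσ2 h))
    (D := 1 + 2 * C / Real.sin θ + 1 / Real.sin θ ^ 2) (fun τ => by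
      rw [Complex.norm_real, Real.norm_eq_abs]
      exact fst_pabs hσ2 h τ (hb θ ⟨le_rfl, le_rfl⟩ τ).1)
  have hi2 := fst_imul hσ2 h hs (f := fun τ => ((fst_e σ τ θ : ℝ) : ℂ) ^ 2)
    ((fst_ce hσ2 h).pow 2) (D := (1 / Real.sin θ) ^ 2) (fun τ => by
      rw [norm_pow, Complex.norm_real, Real.norm_eq_abs]
      exact pow_le_pow_left₀ (abs_nonneg _) (fst_eabs hσ2 h τ) 2)
  have hi3 := fst_imul hσ2 h hs (f := fun τ => ((fst_e σ τ θ : ℝ) : ℂ))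
    (fst_ce hσ2 h) (D := 1 / Real.sin θ) (fun τ => by
      rw [Complex.norm_real, Real.norm_eq_abs]
      exact fst_eabs hσ2 h τ)
  have hi := hi1.sub (hi2.const_mul s)
  exact ⟨hi, integral_eq_zero_of_hasDerivAt_of_integrable (fun τ => fst_dtau hσ2 h τ s) hi hi3⟩

/-- the first derivative -/
noncomputable def fst_F (σ : ℝ) (s : ℂ) (θ : ℝ) : ℂ :=
  s * ∫ τ : ℝ, ((hσ σ τ θ : ℝ) : ℂ) ^ s * ((fst_g σ τ θ : ℝ) : ℂ)

theorem fst_d1 {σ : ℝ} (hσ2 : σ ^ 2 = 1) {θ : ℝ} (h : θ ∈ Ioo 0 Real.pi) {s : ℂ}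
    (hs : 0 < s.re) : HasDerivAt (FS σ s) (fst_F σ s θ) θ := by
  obtain ⟨a, a', δ, ha, ha', hδ, hb⟩ := fst_nhds h
  obtain ⟨C, B, hC, hB, hbd⟩ := fst_bd hσ2 ha ha' hs
  have hsp := fst_sin h
  have key := hasDerivAt_integral_of_dominated_loc_of_deriv_le (μ := (volume : Measure ℝ)) (𝕜 := ℝ)
    (F := fun (t : ℝ) (τ : ℝ) => ((hσ σ τ t : ℝ) : ℂ) ^ s)
    (F' := fun (t : ℝ) (τ : ℝ) => s * (((hσ σ τ t : ℝ) : ℂ) ^ s * ((fst_g σ τ t : ℝ) : ℂ)))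
    (x₀ := θ) (s := Metric.ball θ δ)
    (bound := fun τ => (‖s‖ * B * (1 / (Real.sin θ / 2))) * Real.exp (-(s.re * |τ|)))
    (Metric.ball_mem_nhds θ hδ)
    (by
      filter_upwards [Metric.ball_mem_nhds θ hδ] with t ht
      exact (fst_ch hσ2 (hb t ht).1 s).aestronglyMeasurable)
    (fst_ih hσ2 h hs)
    ((continuous_const.mul ((fst_ch hσ2 h s).mul (fst_cg hσ2 h))).aestronglyMeasurable)
    (ae_of_all _ fun τ t ht => ?_)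
    ((Pool.Agent.SP.f2_int hs).const_mul _)
    (ae_of_all _ fun τ t ht => fst_dcp hσ2 (hb t ht).1 τ s)
  · refine key.2.congr_deriv ?_
    rw [integral_const_mul]
    rfl
  · obtain ⟨ht1, ht2, ht3⟩ := hb t ht
    rw [norm_mul, norm_mul, fst_norm hσ2 ht1, Complex.norm_real, Real.norm_eq_abs, mul_assoc,
      mul_assoc]
    refine mul_le_mul_of_nonneg_left ?_ (norm_nonneg s)
    have h3 : |fst_g σ τ t| ≤ 1 / (Real.sin θ / 2) := (fst_gabs hσ2 ht1 τ).trans (by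
      refine one_div_le_one_div_of_le (by linarith) ht3)
    calc hσ σ τ t ^ s.re * |fst_g σ τ t| ≤ (B * Real.exp (-(s.re * |τ|))) *
          (1 / (Real.sin θ / 2)) :=
          mul_le_mul (hbd t ht2 τ).2 h3 (abs_nonneg _) (by positivity)
      _ = _ := by ring

theorem fst_d2 {σ : ℝ} (hσ2 : σ ^ 2 = 1) {θ : ℝ} (h : θ ∈ Ioo 0 Real.pi) {s : ℂ}
    (hs : 0 < s.re) : HasDerivAt (fst_F σ s)
      (s * (s - 1) / ((Real.sin θ : ℝ) : ℂ) ^ 2 * FS σ s θ) θ := by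
  obtain ⟨a, a', δ, ha, ha', hδ, hb⟩ := fst_nhds h
  obtain ⟨C, B, hC, hB, hbd⟩ := fst_bd hσ2 ha ha' hs
  have hsp := fst_sin h
  have hderiv : ∀ t ∈ Ioo 0 Real.pi, ∀ τ : ℝ,
      HasDerivAt (fun t => ((hσ σ τ t : ℝ) : ℂ) ^ s * ((fst_g σ τ t : ℝ) : ℂ))
      (s * (((hσ σ τ t : ℝ) : ℂ) ^ s * ((fst_g σ τ t : ℝ) : ℂ) ^ 2)
        + ((hσ σ τ t : ℝ) : ℂ) ^ s * (((fst_p σ τ t - 1 / Real.sin t ^ 2 : ℝ)) : ℂ)) t := by
    intro t ht τ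
    have h1 := fst_dcp hσ2 ht τ s
    have h2 : HasDerivAt (fun t => ((fst_g σ τ t : ℝ) : ℂ))
        (((fst_p σ τ t - 1 / Real.sin t ^ 2 : ℝ)) : ℂ) t := (fst_dg hσ2 ht τ).ofReal_comp
    refine (h1.mul h2).congr_deriv ?_
    ring
  have hcont : ∀ t ∈ Ioo 0 Real.pi,
      Continuous (fun τ => s * (((hσ σ τ t : ℝ) : ℂ) ^ s * ((fst_g σ τ t : ℝ) : ℂ) ^ 2)
        + ((hσ σ τ t : ℝ) : ℂ) ^ s * (((fst_p σ τ t - 1 / Real.sin t ^ 2 : ℝ)) : ℂ)) := by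
    intro t ht
    have h1 := fst_ch hσ2 ht s
    have h2 := fst_cg hσ2 ht
    have h3 : Continuous (fun τ => (((fst_p σ τ t - 1 / Real.sin t ^ 2 : ℝ)) : ℂ)) :=
      Complex.continuous_ofReal.comp ((fst_cp hσ2 ht).sub continuous_const)
    fun_prop
  set S : ℝ := 1 / (Real.sin θ / 2) with hS
  have hS0 : 0 ≤ S := by positivity
  have key := hasDerivAt_integral_of_dominated_loc_of_deriv_le (μ := (volume : Measure ℝ)) (𝕜 := ℝ)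
    (F := fun (t : ℝ) (τ : ℝ) => ((hσ σ τ t : ℝ) : ℂ) ^ s * ((fst_g σ τ t : ℝ) : ℂ))
    (F' := fun (t : ℝ) (τ : ℝ) => s * (((hσ σ τ t : ℝ) : ℂ) ^ s * ((fst_g σ τ t : ℝ) : ℂ) ^ 2)
        + ((hσ σ τ t : ℝ) : ℂ) ^ s * (((fst_p σ τ t - 1 / Real.sin t ^ 2 : ℝ)) : ℂ))
    (x₀ := θ) (s := Metric.ball θ δ)
    (bound := fun τ => (‖s‖ * S ^ 2 + (1 + 2 * C * S + S ^ 2 + S ^ 2)) *
      (B * Real.exp (-(s.re * |τ|))))
    (Metric.ball_mem_nhds θ hδ)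
    (by
      filter_upwards [Metric.ball_mem_nhds θ hδ] with t ht
      exact ((fst_ch hσ2 (hb t ht).1 s).mul (fst_cg hσ2 (hb t ht).1)).aestronglyMeasurable)
    (fst_imul hσ2 h hs (fst_cg hσ2 h) (D := 1 / Real.sin θ) (fun τ => by
      rw [Complex.norm_real, Real.norm_eq_abs]
      exact fst_gabs hσ2 h τ))
    (hcont θ h).aestronglyMeasurable
    (ae_of_all _ fun τ t ht => ?_)
    (((Pool.Agent.SP.f2_int hs).const_mul _).const_mul _)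
    (ae_of_all _ fun τ t ht => hderiv t (hb t ht).1 τ)
  · have h1 : HasDerivAt (fst_F σ s) (s * ∫ τ : ℝ, (s * (((hσ σ τ θ : ℝ) : ℂ) ^ s *
        ((fst_g σ τ θ : ℝ) : ℂ) ^ 2) + ((hσ σ τ θ : ℝ) : ℂ) ^ s *
          (((fst_p σ τ θ - 1 / Real.sin θ ^ 2 : ℝ)) : ℂ))) θ := key.2.const_mul s
    refine h1.congr_deriv ?_
    have hSn : ((Real.sin θ : ℝ) : ℂ) ≠ 0 := by exact_mod_cast hsp.ne'
    have h2 : ∀ τ : ℝ, (s * (((hσ σ τ θ : ℝ) : ℂ) ^ s * ((fst_g σ τ θ : ℝ) : ℂ) ^ 2)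
        + ((hσ σ τ θ : ℝ) : ℂ) ^ s * (((fst_p σ τ θ - 1 / Real.sin θ ^ 2 : ℝ)) : ℂ))
        = (s - 1) / ((Real.sin θ : ℝ) : ℂ) ^ 2 * ((hσ σ τ θ : ℝ) : ℂ) ^ s
          + (((hσ σ τ θ : ℝ) : ℂ) ^ s * ((fst_p σ τ θ : ℝ) : ℂ) -
            s * (((hσ σ τ θ : ℝ) : ℂ) ^ s * ((fst_e σ τ θ : ℝ) : ℂ) ^ 2)) := by
      intro τ
      have h3 : ((fst_g σ τ θ : ℝ) : ℂ) ^ 2 =
          1 / ((Real.sin θ : ℝ) : ℂ) ^ 2 - ((fst_e σ τ θ : ℝ) : ℂ) ^ 2 := by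
        have := fst_id hσ2 h τ
        have h4 : fst_g σ τ θ ^ 2 = 1 / Real.sin θ ^ 2 - fst_e σ τ θ ^ 2 := by linarith
        exact_mod_cast h4
      rw [h3]
      push_cast
      ring
    simp_rw [h2]
    rw [integral_add ((fst_ih hσ2 h hs).const_mul _) (fst_iz hσ2 h hs).1, (fst_iz hσ2 h hs).2,
      add_zero, integral_const_mul]
    unfold FS
    ring
  · obtain ⟨ht1, ht2, ht3⟩ := hb t ht
    have h5 : 0 ≤ hσ σ τ t ^ s.re := (Real.rpow_pos_of_pos (fs_h_pos hσ2 τ ht1) _).le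
    have hst := fst_sin ht1
    have h0 : 1 / Real.sin t ≤ S := one_div_le_one_div_of_le (by linarith) ht3
    have h3 : ‖((fst_g σ τ t : ℝ) : ℂ)‖ ≤ S := by
      rw [Complex.norm_real, Real.norm_eq_abs]
      exact (fst_gabs hσ2 ht1 τ).trans h0
    have h6 : 1 / Real.sin t ^ 2 ≤ S ^ 2 := by
      rw [← one_div_pow]
      exact pow_le_pow_left₀ (by positivity) h0 2
    have h4 : ‖(((fst_p σ τ t - 1 / Real.sin t ^ 2 : ℝ)) : ℂ)‖ ≤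
        1 + 2 * C * S + S ^ 2 + S ^ 2 := by
      rw [Complex.norm_real, Real.norm_eq_abs]
      have h7 := fst_pabs hσ2 ht1 τ (hbd t ht2 τ).1
      have h8 : 2 * C / Real.sin t ≤ 2 * C * S := by
        rw [div_eq_mul_one_div]
        exact mul_le_mul_of_nonneg_left h0 (by positivity)
      have h9 : 0 ≤ 1 / Real.sin t ^ 2 := by positivity
      refine (abs_sub _ _).trans ?_
      rw [abs_of_nonneg h9]
      linarith
    calc _ ≤ ‖s * (((hσ σ τ t : ℝ) : ℂ) ^ s * ((fst_g σ τ t : ℝ) : ℂ) ^ 2)‖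
          + ‖((hσ σ τ t : ℝ) : ℂ) ^ s * (((fst_p σ τ t - 1 / Real.sin t ^ 2 : ℝ)) : ℂ)‖ :=
          norm_add_le _ _
      _ ≤ ‖s‖ * (hσ σ τ t ^ s.re * S ^ 2) +
          hσ σ τ t ^ s.re * (1 + 2 * C * S + S ^ 2 + S ^ 2) := by
          rw [norm_mul, norm_mul, norm_mul, norm_pow, fst_norm hσ2 ht1]
          gcongr
      _ = (‖s‖ * S ^ 2 + (1 + 2 * C * S + S ^ 2 + S ^ 2)) * hσ σ τ t ^ s.re := by ring
      _ ≤ _ := mul_le_mul_of_nonneg_left (hbd t ht2 τ).2 (by positivity)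

/-- `-sin² (∂_θ² + ∂_τ²) h^s = s (1 - s) h^s` -/
theorem fs_td_pr {σ : ℝ} (hσ2 : σ ^ 2 = 1) {b : ℝ → ℂ} (hb : TB b) {s : ℂ} (hs : 0 < s.re) :
    ∫ t in Ioo 0 Real.pi, TD b t * FS σ s t =
      -(s * (1 - s)) * ∫ t in Ioo 0 Real.pi, b t * FS σ s t := by
  have hc : ContinuousOn (fun θ : ℝ => s * (s - 1) / ((Real.sin θ : ℝ) : ℂ) ^ 2 * FS σ s θ)
      (Ioo 0 Real.pi) := by
    refine ContinuousOn.mul ?_ ?_
    · refine ContinuousOn.div continuousOn_const (Continuous.continuousOn (by fun_prop)) ?_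
      intro θ hθ
      have h1 : ((Real.sin θ : ℝ) : ℂ) ≠ 0 := by exact_mod_cast (fst_sin hθ).ne'
      exact pow_ne_zero 2 h1
    · intro θ hθ
      exact (fst_d1 hσ2 hθ hs).continuousAt.continuousWithinAt
  rw [td_move hb (F := FS σ s) (F1 := fst_F σ s) (fun t ht => fst_d1 hσ2 ht hs)
    (fun t ht => fst_d2 hσ2 ht hs) hc, ← integral_const_mul]
  refine setIntegral_congr_fun measurableSet_Ioo fun t ht => ?_
  have h1 : ((Real.sin t : ℝ) : ℂ) ≠ 0 := by exact_mod_cast (fst_sin ht).ne'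
  show b t * (((Real.sin t ^ 2 : ℝ) : ℂ) * (s * (s - 1) / ((Real.sin t : ℝ) : ℂ) ^ 2 * FS σ s t)) =
    -(s * (1 - s)) * (b t * FS σ s t)
  rw [ofReal_pow]
  field_simp
  ring

end Pool.Agent.JO
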