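import Pool.Agent.Lib_helper84.JO6.N0

/-! Project JO, part E6, block JJA (helper34): the horocyclic integral, elementary -/

set_option autoImplicit false

namespace Pool.Agent.JO

open Complex MeasureTheory Filter Topology Set ModularGroup
open UpperHalfPlane hiding I
open Pool.Agent.Lib_helper37.JO (HJ)
open scoped MatrixGroups ComplexConjugate ContDiff

/-- the point `-σ - 1/(t+iy)` -/
noncomputable def jja_w (σ t y : ℝ) : ℂ := -(σ : ℂ) - 1 / ((t : ℂ) + y * I)

theorem jja_re (σ t y : ℝ) : (jja_w σ t y).re = -σ - t / (t ^ 2 + y ^ 2) := by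
  simp [jja_w, Complex.inv_re, Complex.normSq_apply]
  ring

theorem jja_im (σ t y : ℝ) : (jja_w σ t y).im = y / (t ^ 2 + y ^ 2) := by
  simp [jja_w, Complex.inv_im, Complex.normSq_apply]
  ring

theorem jja_im_pos (σ t : ℝ) {y : ℝ} (hy : 0 < y) : 0 < (jja_w σ t y).im := by
  rw [jja_im]; positivity

theorem jja_cont (σ : ℝ) : ContinuousOn (fun p : ℝ × ℝ => thA σ p.2 p.1) (Ioi 0 ×ˢ univ) := by
  rintro ⟨y, t⟩ ⟨hy, -⟩
  have hy0 : 0 < y := hy
  have h1 : ContinuousAt (fun p : ℝ × ℝ => jja_w σ p.2 p.1) (y, t) := by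
    unfold jja_w
    apply ContinuousAt.sub continuousAt_const
    apply ContinuousAt.div continuousAt_const
    · fun_prop
    · intro h
      have := congrArg Complex.im h
      simp at this
      linarith
  have h2 : jja_w σ t y ∈ Complex.slitPlane := Or.inr (jja_im_pos σ t hy0).ne'
  have h3 : ContinuousAt (fun p : ℝ × ℝ => Complex.arg (jja_w σ p.2 p.1)) (y, t) :=
    ContinuousAt.comp (f := fun p : ℝ × ℝ => jja_w σ p.2 p.1) (g := Complex.arg)
      (Complex.continuousAt_arg h2) h1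
  exact h3.continuousWithinAt

theorem jja_sa_cont {α : ℝ → ℂ} (hα : TB α) : Continuous (sa α) := by
  have := hα.smooth.continuous
  unfold sa
  fun_prop

theorem jja_bound {α : ℝ → ℂ} (hα : TB α) : ∃ B : ℝ, 0 ≤ B ∧ ∀ θ, ‖sa α θ‖ ≤ B := by
  obtain ⟨a, a', ha, ha', h⟩ := hα.supp
  obtain ⟨B, hB⟩ := (isCompact_Icc (a := a) (b := a')).exists_bound_of_continuousOn
    (jja_sa_cont hα).continuousOn
  refine ⟨max B 0, le_max_right _ _, ?_⟩
  intro θ
  by_cases hθ : θ ∈ Icc a a'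
  · exact (hB θ hθ).trans (le_max_left _ _)
  · have : α θ = 0 := by
      by_contra h0
      exact hθ (h θ h0)
    rw [sa, this, mul_zero, norm_zero]
    exact le_max_right _ _

/-- the support -/
theorem jja_key {σ : ℝ} (hσ2 : σ ^ 2 = 1) {α : ℝ → ℂ} (hα : TB α) : ∃ C : ℝ, 1 ≤ C ∧
    ∀ t y : ℝ, 0 < y → sa α (thA σ t y) ≠ 0 → |t ^ 2 + y ^ 2 + σ * t| ≤ C * y := by
  obtain ⟨a, a', ha, ha', h⟩ := hα.supp
  obtain ⟨m, hm, hmin⟩ := (isCompact_Icc (a := a) (b := a')).exists_forall_le'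
    Real.continuous_sin.continuousOn (a := 0) (fun θ hθ =>
      Real.sin_pos_of_pos_of_lt_pi (lt_of_lt_of_le ha hθ.1) (lt_of_le_of_lt hθ.2 ha'))
  refine ⟨max 1 (1 / m), le_max_left _ _, ?_⟩
  intro t y hy hne
  have hα0 : α (thA σ t y) ≠ 0 := by
    intro h0
    apply hne
    rw [sa, h0, mul_zero]
  have hθ := h _ hα0
  have hsin := hmin _ hθ
  have hw : jja_w σ t y ≠ 0 := by
    intro h0
    have := jja_im_pos σ t hy
    rw [h0] at this
    simp at this
  have hwn : 0 < ‖jja_w σ t y‖ := norm_pos_iff.2 hw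
  have hc : Real.cos (thA σ t y) = (jja_w σ t y).re / ‖jja_w σ t y‖ := Complex.cos_arg hw
  have hs : Real.sin (thA σ t y) = (jja_w σ t y).im / ‖jja_w σ t y‖ := Complex.sin_arg _
  have hre : |(jja_w σ t y).re| ≤ 1 / m * (jja_w σ t y).im := by
    have h1 := Real.abs_cos_le_one (thA σ t y)
    rw [hc, abs_div, abs_of_pos hwn, div_le_one hwn] at h1
    rw [hs, le_div_iff₀ hwn] at hsin
    rw [one_div, inv_mul_eq_div, le_div_iff₀ hm]
    calc |(jja_w σ t y).re| * m ≤ ‖jja_w σ t y‖ * m := by gcongr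
      _ ≤ (jja_w σ t y).im := by rw [mul_comm]; exact hsin
  rw [jja_re, jja_im] at hre
  have hr : 0 < t ^ 2 + y ^ 2 := by positivity
  have e1 : |t ^ 2 + y ^ 2 + σ * t| = |-σ - t / (t ^ 2 + y ^ 2)| * (t ^ 2 + y ^ 2) := by
    have e2 : t ^ 2 + y ^ 2 + σ * t = -σ * ((-σ - t / (t ^ 2 + y ^ 2)) * (t ^ 2 + y ^ 2)) := by
      have e3 : (-σ - t / (t ^ 2 + y ^ 2)) * (t ^ 2 + y ^ 2) = -σ * (t ^ 2 + y ^ 2) - t := by
        field_simp
      rw [e3]
      linear_combination (-(t ^ 2 + y ^ 2)) * hσ2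
    have e4 : |-σ| = 1 := by
      rw [abs_neg, ← sq_eq_sq₀ (abs_nonneg _) zero_le_one, sq_abs, hσ2, one_pow]
    rw [e2, abs_mul, e4, one_mul, abs_mul, abs_of_pos hr]
  rw [e1]
  have e5 : 1 / m * (y / (t ^ 2 + y ^ 2)) * (t ^ 2 + y ^ 2) = 1 / m * y := by
    field_simp
  calc |-σ - t / (t ^ 2 + y ^ 2)| * (t ^ 2 + y ^ 2)
      ≤ 1 / m * (y / (t ^ 2 + y ^ 2)) * (t ^ 2 + y ^ 2) := by gcongr
    _ = 1 / m * y := e5
    _ ≤ max 1 (1 / m) * y := by
        apply mul_le_mul_of_nonneg_right (le_max_right _ _) hy.le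

theorem jja_set {σ : ℝ} (hσ2 : σ ^ 2 = 1) {α : ℝ → ℂ} (hα : TB α) : ∃ C Y : ℝ, 1 ≤ C ∧ 0 < Y ∧
    ∀ t y : ℝ, 0 < y → sa α (thA σ t y) ≠ 0 → y < Y ∧
      t ∈ Metric.closedBall (0 : ℝ) (C * y) ∪ Metric.closedBall (-σ) (C * y) := by
  obtain ⟨C, hC, h⟩ := jja_key hσ2 hα
  refine ⟨2 * (C + (C + 1)), C + 1, by linarith, by linarith, ?_⟩
  intro t y hy hne
  have h1 := h t y hy hne
  have hlt : y < C + 1 := by
    by_contra hge
    rw [not_lt] at hge
    have h2 := (le_abs_self _).trans h1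
    nlinarith [sq_nonneg (2 * t + σ)]
  refine ⟨hlt, ?_⟩
  have h2 : |t| * |t + σ| ≤ (C + (C + 1)) * y := by
    rw [← abs_mul]
    have e1 : t * (t + σ) = (t ^ 2 + y ^ 2 + σ * t) - y ^ 2 := by ring
    rw [e1]
    refine (abs_sub _ _).trans ?_
    rw [abs_of_nonneg (sq_nonneg y)]
    nlinarith
  have h3 : 1 ≤ |t| + |t + σ| := by
    have e4 : |σ| = 1 := by
      rw [← sq_eq_sq₀ (abs_nonneg _) zero_le_one, sq_abs, hσ2, one_pow]
    have e5 := abs_sub (t + σ) t
    rw [add_sub_cancel_left, e4] at e5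
    linarith
  rcases le_total (1 / 2) |t| with h4 | h4
  · right
    rw [Metric.mem_closedBall, Real.dist_eq, sub_neg_eq_add]
    nlinarith [abs_nonneg (t + σ)]
  · left
    rw [Metric.mem_closedBall, Real.dist_eq, sub_zero]
    nlinarith [abs_nonneg t]

theorem jj_supp_pr {σ : ℝ} (hσ2 : σ ^ 2 = 1) {α : ℝ → ℂ} (hα : TB α) :
    ∃ Y : ℝ, 0 < Y ∧ ∀ y : ℝ, Y ≤ y → jj σ α y = 0 := by
  obtain ⟨C, Y, hC, hY, h⟩ := jja_set hσ2 hα
  refine ⟨Y, hY, ?_⟩
  intro y hy
  have h0 : ∀ t : ℝ, sa α (thA σ t y) = 0 := by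
    intro t
    by_contra hne
    have := (h t y (lt_of_lt_of_le hY hy) hne).1
    linarith
  simp [jj, h0]

theorem jj_bd_pr {σ : ℝ} (hσ2 : σ ^ 2 = 1) {α : ℝ → ℂ} (hα : TB α) :
    ∃ C : ℝ, 0 ≤ C ∧ ∀ y : ℝ, 0 < y → ‖jj σ α y‖ ≤ C * y := by
  obtain ⟨C, Y, hC, hY, h⟩ := jja_set hσ2 hα
  obtain ⟨B, hB, hb⟩ := jja_bound hα
  refine ⟨B * (4 * C), by positivity, ?_⟩
  intro y hy
  set S : Set ℝ := Metric.closedBall (0 : ℝ) (C * y) ∪ Metric.closedBall (-σ) (C * y) with hS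
  have hCy : 0 ≤ C * y := by positivity
  have h1 : jj σ α y = ∫ t in S, sa α (thA σ t y) := by
    rw [jj]
    symm
    apply setIntegral_eq_integral_of_forall_compl_eq_zero
    intro t ht
    by_contra hne
    exact ht (h t y hy hne).2
  have hvol : volume.real S ≤ 4 * C * y := by
    refine (measureReal_union_le _ _).trans ?_
    rw [Measure.real, Measure.real, Real.volume_closedBall, Real.volume_closedBall,
      ENNReal.toReal_ofReal (by positivity)]
    linarith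
  have hfin : volume S < ⊤ := by
    refine lt_of_le_of_lt (measure_union_le _ _) ?_
    rw [Real.volume_closedBall, Real.volume_closedBall]
    exact ENNReal.add_lt_top.2 ⟨ENNReal.ofReal_lt_top, ENNReal.ofReal_lt_top⟩
  rw [h1]
  refine (norm_setIntegral_le_of_norm_le_const hfin (fun t _ => hb _)).trans ?_
  calc B * volume.real S ≤ B * (4 * C * y) := by gcongr
    _ = _ := by ring

theorem jja_joint (σ : ℝ) {α : ℝ → ℂ} (hα : TB α) :
    ContinuousOn (fun p : ℝ × ℝ => sa α (thA σ p.2 p.1)) (Ioi 0 ×ˢ univ) :=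
  (jja_sa_cont hα).comp_continuousOn (jja_cont σ)

theorem jj_cont_pr {σ : ℝ} (hσ2 : σ ^ 2 = 1) {α : ℝ → ℂ} (hα : TB α) :
    ContinuousOn (jj σ α) (Ioi 0) ∧
      ∀ y : ℝ, 0 < y → Integrable (fun t : ℝ => sa α (thA σ t y)) := by
  obtain ⟨C, Y, hC, hY, h⟩ := jja_set hσ2 hα
  constructor
  · intro y₀ hy₀
    have hy₀' : 0 < y₀ := hy₀
    have h1 : ContinuousOn (jj σ α) (Ioo 0 (y₀ + 1)) := by
      unfold jj
      apply continuousOn_integral_of_compact_support
        (k := Metric.closedBall (0 : ℝ) (C * (y₀ + 1)) ∪ Metric.closedBall (-σ) (C * (y₀ + 1)))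
      · exact (isCompact_closedBall _ _).union (isCompact_closedBall _ _)
      · apply (jja_joint σ hα).mono
        exact Set.prod_mono Ioo_subset_Ioi_self (subset_univ _)
      · intro y t hy ht
        by_contra hne
        have h2 := (h t y hy.1 hne).2
        apply ht
        have h3 : C * y ≤ C * (y₀ + 1) := by
          apply mul_le_mul_of_nonneg_left hy.2.le (by linarith)
        exact Set.union_subset_union (Metric.closedBall_subset_closedBall h3)
          (Metric.closedBall_subset_closedBall h3) h2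
    exact (h1.continuousAt (Ioo_mem_nhds hy₀' (by linarith))).continuousWithinAt
  · intro y hy
    apply Continuous.integrable_of_hasCompactSupport
    · have h1 := (jja_joint σ hα).comp_continuous (f := fun t : ℝ => (y, t)) (by fun_prop)
        (fun t => ⟨hy, mem_univ _⟩)
      exact h1
    · apply HasCompactSupport.intro
        ((isCompact_closedBall (0 : ℝ) (C * y)).union (isCompact_closedBall (-σ) (C * y)))
      intro t ht
      by_contra hne
      exact ht (h t y hy hne).2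

end Pool.Agent.JO
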