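import Pool.Agent.Lib_helper84.JO6.N1

/-!
# Project JO, part E6, block JJM: the Mellin transform of the horocyclic integral
-/

set_option autoImplicit false

namespace Pool.Agent.JO

open Complex MeasureTheory Filter Topology Set ModularGroup
open UpperHalfPlane hiding I
open Pool.Agent.Lib_helper37.JO (HJ)
open scoped MatrixGroups ComplexConjugate ContDiff

/-! ## Cartesian coordinates -/

theorem jjm_H (F : ℝ → ℝ → ℂ) : (∫ w : ℍ, F w.re w.im =
    ∫ p in (univ : Set ℝ) ×ˢ Ioi (0 : ℝ), ((1 / p.2 ^ 2 : ℝ) : ℂ) * F p.1 p.2) ∧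
    (Integrable (fun w : ℍ => F w.re w.im) ↔ IntegrableOn (fun p : ℝ × ℝ =>
      ((1 / p.2 ^ 2 : ℝ) : ℂ) * F p.1 p.2) ((univ : Set ℝ) ×ˢ Ioi (0 : ℝ))) := by
  have hrange : Set.range UpperHalfPlane.coe = {z : ℂ | 0 < z.im} := by
    ext z
    constructor
    · rintro ⟨w, rfl⟩
      exact w.im_pos
    · intro hz
      exact ⟨⟨z, hz⟩, rfl⟩
  have h2 : Continuous (fun z : ℍ => (1 / NNReal.mk z.im z.im_pos.le : NNReal) ^ 2) := by
    refine .pow (.div₀ continuous_const ?_ ?_) _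
    · exact continuous_im.subtype_mk _
    · exact fun x ↦ NNReal.ne_iff.mp x.im_ne_zero
  have h4 : Complex.measurableEquivRealProd.symm ⁻¹' {z : ℂ | 0 < z.im} =
      (univ : Set ℝ) ×ˢ Ioi (0 : ℝ) := by
    ext p
    constructor
    · intro h
      exact ⟨mem_univ _, h⟩
    · intro h
      exact h.2
  have hpt : ∀ w : ℍ, ((1 / NNReal.mk w.im w.im_pos.le : NNReal) ^ 2) • F w.re w.im =
      ((1 / (w : ℂ).im ^ 2 : ℝ) : ℂ) * F (w : ℂ).re (w : ℂ).im := by
    intro w
    show ((1 / NNReal.mk w.im w.im_pos.le : NNReal) ^ 2) • F w.re w.im =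
          ((1 / w.im ^ 2 : ℝ) : ℂ) * F w.re w.im
    rw [NNReal.smul_def, Complex.real_smul]
    congr 2
    push_cast
    rw [div_pow, one_pow]
  constructor
  · rw [volume_def, integral_withDensity_eq_integral_smul h2.measurable]
    have h1 := measurableEmbedding_coe.integral_map (μ := volume.comap UpperHalfPlane.coe)
        (fun z : ℂ => ((1 / z.im ^ 2 : ℝ) : ℂ) * F z.re z.im)
    rw [measurableEmbedding_coe.map_comap, hrange] at h1
    have h3 := (Complex.volume_preserving_equiv_real_prod.symm).setIntegral_preimage_emb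
      (Complex.measurableEquivRealProd.symm.measurableEmbedding)
      (fun z : ℂ => ((1 / z.im ^ 2 : ℝ) : ℂ) * F z.re z.im) {z : ℂ | 0 < z.im}
    rw [h4] at h3
    calc _ = ∫ w : ℍ, ((1 / (w : ℂ).im ^ 2 : ℝ) : ℂ) * F (w : ℂ).re (w : ℂ).im
          ∂(volume.comap UpperHalfPlane.coe) :=
          integral_congr_ae (Eventually.of_forall fun w => hpt w)
      _ = _ := h1.symm
      _ = _ := h3.symm
  · rw [volume_def, integrable_withDensity_iff_integrable_smul h2.measurable]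
    have h1 : Integrable (fun w : ℍ => ((1 / (w : ℂ).im ^ 2 : ℝ) : ℂ) * F (w : ℂ).re (w : ℂ).im)
        (volume.comap UpperHalfPlane.coe) ↔
        IntegrableOn (fun z : ℂ => ((1 / z.im ^ 2 : ℝ) : ℂ) * F z.re z.im) {z : ℂ | 0 < z.im} := by
      have h5 := measurableEmbedding_coe.integrable_map_iff (μ := volume.comap UpperHalfPlane.coe)
        (g := fun z : ℂ => ((1 / z.im ^ 2 : ℝ) : ℂ) * F z.re z.im)
      rw [measurableEmbedding_coe.map_comap, hrange] at h5
      exact h5.symm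
    have h3 := (Complex.volume_preserving_equiv_real_prod.symm).integrableOn_comp_preimage
      (Complex.measurableEquivRealProd.symm.measurableEmbedding)
      (f := fun z : ℂ => ((1 / z.im ^ 2 : ℝ) : ℂ) * F z.re z.im) (s := {z : ℂ | 0 < z.im})
    rw [h4] at h3
    have h6 : Integrable (fun w : ℍ => ((1 / NNReal.mk w.im w.im_pos.le : NNReal) ^ 2) •
        F w.re w.im) (volume.comap UpperHalfPlane.coe) ↔
        Integrable (fun w : ℍ => ((1 / (w : ℂ).im ^ 2 : ℝ) : ℂ) * F (w : ℂ).re (w : ℂ).im)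
        (volume.comap UpperHalfPlane.coe) :=
      integrable_congr (Eventually.of_forall fun w => hpt w)
    rw [h6, h1, ← h3]
    rfl

/-! ## The substitution -/

/-- the map `z ↦ -σ - 1/z` -/
noncomputable def jjm_g (σ : ℝ) : SL(2, ℝ) :=
  ⟨!![-σ, -1; 1, 0], by rw [Matrix.det_fin_two_of]; ring⟩

/-- the map `ζ ↦ -1/(ζ + σ)` -/
noncomputable def jjm_k (σ : ℝ) : SL(2, ℝ) :=
  ⟨!![0, 1; -1, -σ], by rw [Matrix.det_fin_two_of]; ring⟩

theorem jjm_g_coe (σ : ℝ) (z : ℍ) : ((jjm_g σ • z : ℍ) : ℂ) = -(σ : ℂ) - 1 / (z : ℂ) := by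
  rw [coe_specialLinearGroup_apply]
  have hz : (z : ℂ) ≠ 0 := z.ne_zero
  simp only [jjm_g, Matrix.of_apply, Matrix.cons_val', Matrix.cons_val_zero, Matrix.cons_val_one,
    Matrix.cons_val_fin_one, Algebra.algebraMap_self, RingHom.id_apply]
  push_cast
  rw [one_mul, add_zero, div_eq_iff hz, sub_mul, one_div, inv_mul_cancel₀ hz]
  ring

theorem jjm_k_coe (σ : ℝ) (z : ℍ) : ((jjm_k σ • z : ℍ) : ℂ) = -((z : ℂ) + σ)⁻¹ := by
  rw [coe_specialLinearGroup_apply]
  simp only [jjm_k, Matrix.of_apply, Matrix.cons_val', Matrix.cons_val_zero, Matrix.cons_val_one,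
    Matrix.cons_val_fin_one, Algebra.algebraMap_self, RingHom.id_apply]
  have e : ((-1 : ℝ) : ℂ) * (z : ℂ) + ((-σ : ℝ) : ℂ) = -((z : ℂ) + σ) := by push_cast; ring
  rw [e]
  push_cast
  rw [zero_mul, zero_add, one_div, inv_neg]

theorem jjm_kg (σ : ℝ) (z : ℍ) : jjm_k σ • (jjm_g σ • z) = z := by
  apply UpperHalfPlane.ext
  rw [jjm_k_coe, jjm_g_coe]
  have hz : (z : ℂ) ≠ 0 := z.ne_zero
  have e : -(σ : ℂ) - 1 / (z : ℂ) + σ = -(1 / (z : ℂ)) := by ring
  rw [e]
  simp

theorem jjm_k_im {σ : ℝ} (hσ2 : σ ^ 2 = 1) (τ : ℝ) {θ : ℝ} (hθ : θ ∈ Ioo 0 Real.pi) :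
    (jjm_k σ • (JOS.pt τ θ) : ℍ).im = hσ σ τ θ := by
  have h1 : ((jjm_k σ • (JOS.pt τ θ) : ℍ)).im = (-(((JOS.pt τ θ : ℍ) : ℂ) + σ)⁻¹).im := by
    rw [← jjm_k_coe]; rfl
  rw [h1, JOS.pt_coe hθ]
  have him : (cexp (τ + θ * Complex.I)).im = Real.exp τ * Real.sin θ := by
    rw [Complex.exp_im]; simp
  have hre : (cexp (τ + θ * Complex.I)).re = Real.exp τ * Real.cos θ := by
    rw [Complex.exp_re]; simp
  rw [Complex.neg_im, Complex.inv_im, Complex.normSq_apply, Complex.add_im, Complex.add_re,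
    him, hre, Complex.ofReal_re, Complex.ofReal_im]
  unfold hσ
  have he := Real.exp_pos τ
  have hs := Real.sin_pos_of_mem_Ioo hθ
  have hpos := fs_h_pos hσ2 τ hθ
  unfold hσ at hpos
  have hden : 0 < 2 * (Real.cosh τ + σ * Real.cos θ) := by
    by_contra hcon
    push Not at hcon
    have := div_nonpos_of_nonneg_of_nonpos hs.le hcon
    linarith
  have e1 : (Real.exp τ * Real.cos θ + σ) * (Real.exp τ * Real.cos θ + σ) +
      (Real.exp τ * Real.sin θ + 0) * (Real.exp τ * Real.sin θ + 0) =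
      Real.exp τ * (2 * (Real.cosh τ + σ * Real.cos θ)) := by
    have h3 : Real.exp τ * Real.exp (-τ) = 1 := by rw [← Real.exp_add]; simp
    rw [Real.cosh_eq]
    linear_combination (Real.exp τ ^ 2) * (Real.sin_sq_add_cos_sq θ) + hσ2 - h3
  rw [e1]
  field_simp
  ring

theorem jjm_mp (g : SL(2, ℝ)) : MeasurePreserving (fun z : ℍ => g • z) volume volume :=
  measurePreserving_smul (g : GL (Fin 2) ℝ) (volume : Measure ℍ)

theorem jjm_emb (g : SL(2, ℝ)) : MeasurableEmbedding (fun z : ℍ => g • z) := by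
  let e : ℍ ≃ᵐ ℍ :=
    { toEquiv := MulAction.toPerm g
      measurable_toFun := (jjm_mp g).measurable
      measurable_invFun := (jjm_mp g⁻¹).measurable }
  exact e.measurableEmbedding

/-! ## Integrability -/

theorem jjm_exp_int {c : ℝ} (hc : 0 < c) : Integrable (fun τ : ℝ => Real.exp (-(c * |τ|))) := by
  have h1 : IntegrableOn (fun τ : ℝ => Real.exp (-(c * |τ|))) (Ioi 0) := by
    have := integrableOn_exp_mul_Ioi (neg_lt_zero.2 hc) 0
    refine this.congr_fun (fun x hx => ?_) measurableSet_Ioi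
    have hx' : (0 : ℝ) < x := hx
    simp only
    rw [abs_of_pos hx', neg_mul]
  have h2 : IntegrableOn (fun τ : ℝ => Real.exp (-(c * |τ|))) (Iic 0) := by
    have := integrableOn_exp_mul_Iic hc 0
    refine this.congr_fun (fun x hx => ?_) measurableSet_Iic
    have hx' : x ≤ (0 : ℝ) := hx
    simp only
    rw [abs_of_nonpos hx']
    congr 1
    ring
  have h3 := h2.union h1
  rwa [Iic_union_Ioi, integrableOn_univ] at h3

theorem jjm_tb_bd {α : ℝ → ℂ} (hα : TB α) : ∃ B : ℝ, 0 ≤ B ∧ ∀ t, ‖α t‖ ≤ B := by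
  obtain ⟨a, a', ha, ha', hs⟩ := hα.supp
  obtain ⟨B, hB⟩ := isCompact_Icc.exists_bound_of_continuousOn (s := Icc a a')
    hα.smooth.continuous.continuousOn
  refine ⟨max B 0, le_max_right _ _, fun t => ?_⟩
  by_cases h : α t = 0
  · rw [h, norm_zero]; exact le_max_right _ _
  · exact (hB t (hs t h)).trans (le_max_left _ _)

theorem jjm_int {σ : ℝ} (hσ2 : σ ^ 2 = 1) {α : ℝ → ℂ} (hα : TB α) {s : ℂ} (hs : 0 < s.re) :
    IntegrableOn (fun p : ℝ × ℝ => α p.2 * ((hσ σ p.1 p.2 : ℝ) : ℂ) ^ s)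
      ((univ : Set ℝ) ×ˢ Ioo 0 Real.pi) := by
  obtain ⟨a, a', ha, ha', hsupp⟩ := hα.supp
  obtain ⟨B, hB0, hB⟩ := jjm_tb_bd hα
  obtain ⟨C, hC0, hC⟩ := fs_h_le hσ2 ha ha'
  have hg : Integrable (fun p : ℝ × ℝ => (B * C ^ s.re) * (Real.exp (-(s.re * |p.1|)) *
      (Icc a a').indicator (fun _ => (1 : ℝ)) p.2)) := by
    apply Integrable.const_mul
    rw [Measure.volume_eq_prod]
    apply Integrable.mul_prod (jjm_exp_int hs)
    rw [integrable_indicator_iff measurableSet_Icc]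
    exact integrableOn_const (by simp)
  have hmeas : Measurable (fun p : ℝ × ℝ => α p.2 * ((hσ σ p.1 p.2 : ℝ) : ℂ) ^ s) := by
    have h1 : Measurable (fun p : ℝ × ℝ => α p.2) :=
      hα.smooth.continuous.measurable.comp measurable_snd
    have h2 : Measurable (fun p : ℝ × ℝ => hσ σ p.1 p.2) := by
      unfold hσ
      fun_prop
    exact h1.mul ((Complex.measurable_ofReal.comp h2).pow_const s)
  apply Integrable.mono' hg.restrict hmeas.aestronglyMeasurable
  refine (ae_restrict_iff' (MeasurableSet.univ.prod measurableSet_Ioo)).2 ?_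
  refine Eventually.of_forall fun p hp => ?_
  by_cases h0 : α p.2 = 0
  · rw [h0, zero_mul, norm_zero]
    have hind : 0 ≤ (Icc a a').indicator (fun _ => (1 : ℝ)) p.2 :=
      indicator_nonneg (fun _ _ => zero_le_one) _
    have := Real.rpow_nonneg hC0.le s.re
    positivity
  · have hm := hsupp _ h0
    rw [indicator_of_mem hm, mul_one, norm_mul]
    have hpos := fs_h_pos hσ2 p.1 hp.2
    rw [Complex.norm_cpow_eq_rpow_re_of_pos hpos]
    have h1 := (hC p.2 hm p.1).1
    have h2 : hσ σ p.1 p.2 ^ s.re ≤ (C * Real.exp (-|p.1|)) ^ s.re :=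
      Real.rpow_le_rpow hpos.le h1 hs.le
    have h3 : (C * Real.exp (-|p.1|)) ^ s.re = C ^ s.re * Real.exp (-(s.re * |p.1|)) := by
      rw [Real.mul_rpow hC0.le (Real.exp_pos _).le, ← Real.exp_mul]
      congr 2
      ring
    rw [h3] at h2
    calc ‖α p.2‖ * hσ σ p.1 p.2 ^ s.re ≤ B * (C ^ s.re * Real.exp (-(s.re * |p.1|))) :=
          mul_le_mul (hB _) h2 (Real.rpow_nonneg hpos.le _) hB0
      _ = _ := by ring

theorem jj_mel_pr {σ : ℝ} (hσ2 : σ ^ 2 = 1) {α : ℝ → ℂ} (hα : TB α) {s : ℂ} (hs : 0 < s.re) :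
    MellinConvergent (jj σ α) (s - 1) ∧
      mellin (jj σ α) (s - 1) = ∫ θ in Ioo 0 Real.pi, α θ * FS σ s θ := by
  constructor
  · obtain ⟨hc, -⟩ := jj_cont hσ2 hα
    obtain ⟨Y, hY, hYs⟩ := jj_supp hσ2 hα
    obtain ⟨C, hC0, hC⟩ := jj_bd hσ2 hα
    apply mellinConvergent_of_isBigO_rpow (a := s.re + 1) (b := -1)
    · exact hc.locallyIntegrableOn measurableSet_Ioi
    · apply Asymptotics.IsBigO.of_bound 1
      filter_upwards [eventually_ge_atTop Y] with y hy
      rw [hYs y hy, norm_zero]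
      positivity
    · simp only [Complex.sub_re, Complex.one_re]; linarith
    · apply Asymptotics.IsBigO.of_bound C
      filter_upwards [self_mem_nhdsWithin] with y hy
      have hy0 : (0 : ℝ) < y := hy
      rw [neg_neg, Real.rpow_one, Real.norm_of_nonneg hy0.le]
      exact hC y hy0
    · simp only [Complex.sub_re, Complex.one_re]; linarith
  · -- the functions on the upper half plane
    obtain ⟨Ψ, hΨ⟩ : ∃ Ψ : ℍ → ℂ, Ψ = fun (ζ : ℍ) =>
      sa α (Complex.arg (ζ : ℂ)) * (((jjm_k σ • ζ : ℍ).im : ℝ) : ℂ) ^ s := ⟨_, rfl⟩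
    obtain ⟨F, hF⟩ : ∃ F : ℝ → ℝ → ℂ, F = fun x y => sa α (thA σ x y) * (y : ℂ) ^ s := ⟨_, rfl⟩
    have hpolar : ∀ p ∈ (univ : Set ℝ) ×ˢ Ioo 0 Real.pi,
        ((1 / Real.sin p.2 ^ 2 : ℝ) : ℂ) * Ψ (JOS.pt p.1 p.2) =
          α p.2 * ((hσ σ p.1 p.2 : ℝ) : ℂ) ^ s := by
      intro p hp
      have hsin := Real.sin_pos_of_mem_Ioo hp.2
      rw [hΨ]
      simp only
      rw [JOS.pt_arg hp.2, jjm_k_im hσ2 p.1 hp.2]
      unfold sa
      rw [← mul_assoc, ← mul_assoc, ← Complex.ofReal_mul, one_div,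
        inv_mul_cancel₀ (pow_ne_zero 2 hsin.ne'), Complex.ofReal_one, one_mul]
    have hms : MeasurableSet ((univ : Set ℝ) ×ˢ Ioo (0 : ℝ) Real.pi) :=
      MeasurableSet.univ.prod measurableSet_Ioo
    have hintP := jjm_int hσ2 hα hs
    have hΨint : Integrable Ψ := by
      rw [JOS.pol_integrable]
      exact hintP.congr_fun (fun p hp => (hpolar p hp).symm) hms
    have hcomp : ∀ w : ℍ, Ψ (jjm_g σ • w) = F w.re w.im := by
      intro w
      rw [hΨ, hF]
      simp only
      rw [jjm_kg]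
      congr 2
      unfold thA
      rw [jjm_g_coe]
      congr 3
      exact (Complex.re_add_im (w : ℂ)).symm
    have hFint : Integrable (fun w : ℍ => F w.re w.im) := by
      have := ((jjm_mp (jjm_g σ)).integrable_comp_emb (jjm_emb (jjm_g σ)) (g := Ψ)).2 hΨint
      exact this.congr (Eventually.of_forall fun w => hcomp w)
    have hval : ∫ w : ℍ, F w.re w.im = ∫ ζ : ℍ, Ψ ζ := by
      rw [← (jjm_mp (jjm_g σ)).integral_comp (jjm_emb (jjm_g σ)) Ψ]
      exact integral_congr_ae (Eventually.of_forall fun w => (hcomp w).symm)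
    have hcart := (jjm_H F).2.1 hFint
    -- the left side
    have hL : mellin (jj σ α) (s - 1) = ∫ w : ℍ, F w.re w.im := by
      rw [(jjm_H F).1]
      have hm1 : (volume : Measure (ℝ × ℝ)).restrict ((univ : Set ℝ) ×ˢ Ioi (0 : ℝ)) =
          (volume : Measure ℝ).prod (volume.restrict (Ioi (0 : ℝ))) := by
        rw [Measure.volume_eq_prod, ← Measure.prod_restrict, Measure.restrict_univ]
      unfold IntegrableOn at hcart
      rw [hm1] at hcart ⊢
      rw [integral_prod_symm _ hcart]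
      unfold mellin
      refine setIntegral_congr_fun measurableSet_Ioi fun y hy => ?_
      have hy0 : (0 : ℝ) < y := hy
      simp only [smul_eq_mul]
      unfold jj
      rw [← integral_const_mul]
      congr 1
      funext t
      rw [hF]
      simp only
      have hyc : (y : ℂ) ≠ 0 := by exact_mod_cast hy0.ne'
      have e1 : (y : ℂ) ^ (s - 1 - 1) = ((1 / y ^ 2 : ℝ) : ℂ) * (y : ℂ) ^ s := by
        rw [show s - 1 - 1 = s - 2 by ring, Complex.cpow_sub _ _ hyc]
        push_cast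
        rw [show ((y : ℂ) ^ (2 : ℂ)) = (y : ℂ) ^ (2 : ℕ) by
          rw [← Complex.cpow_natCast]; norm_num]
        ring
      rw [e1]
      ring
    rw [hL, hval, JOS.pol_int]
    rw [setIntegral_congr_fun hms hpolar]
    have hm2 : (volume : Measure (ℝ × ℝ)).restrict ((univ : Set ℝ) ×ˢ Ioo (0 : ℝ) Real.pi) =
        (volume : Measure ℝ).prod (volume.restrict (Ioo (0 : ℝ) Real.pi)) := by
      rw [Measure.volume_eq_prod, ← Measure.prod_restrict, Measure.restrict_univ]
    unfold IntegrableOn at hintP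
    rw [hm2] at hintP ⊢
    rw [integral_prod_symm _ hintP]
    congr 1
    funext θ
    simp only
    rw [integral_const_mul]
    rfl

theorem jj_mel_diff_pr {σ : ℝ} (hσ2 : σ ^ 2 = 1) {α : ℝ → ℂ} (hα : TB α) :
    DifferentiableOn ℂ (fun s : ℂ => ∫ θ in Ioo 0 Real.pi, α θ * FS σ s θ) {s | 0 < s.re} := by
  obtain ⟨hc, -⟩ := jj_cont hσ2 hα
  obtain ⟨Y, hY, hYs⟩ := jj_supp hσ2 hα
  obtain ⟨C, hC0, hC⟩ := jj_bd hσ2 hα
  have h1 : DifferentiableOn ℂ (fun s : ℂ => mellin (jj σ α) (s - 1)) {s | 0 < s.re} := by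
    intro s hs
    have hs0 : 0 < s.re := hs
    have h2 : DifferentiableAt ℂ (mellin (jj σ α)) (s - 1) := by
      apply mellin_differentiableAt_of_isBigO_rpow (a := s.re + 1) (b := -1)
      · exact hc.locallyIntegrableOn measurableSet_Ioi
      · apply Asymptotics.IsBigO.of_bound 1
        filter_upwards [eventually_ge_atTop Y] with y hy
        rw [hYs y hy, norm_zero]
        positivity
      · simp only [Complex.sub_re, Complex.one_re]; linarith
      · apply Asymptotics.IsBigO.of_bound C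
        filter_upwards [self_mem_nhdsWithin] with y hy
        have hy0 : (0 : ℝ) < y := hy
        rw [neg_neg, Real.rpow_one, Real.norm_of_nonneg hy0.le]
        exact hC y hy0
      · simp only [Complex.sub_re, Complex.one_re]; linarith
    have h3 : DifferentiableAt ℂ (fun s : ℂ => s - 1) s := by fun_prop
    exact (DifferentiableAt.comp s h2 h3).differentiableWithinAt
  exact h1.congr (fun s hs => ((jj_mel_pr hσ2 hα hs).2).symm)

end Pool.Agent.JO
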