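import Pool.Agent.Lib_helper84.JO.E6Defs
import Pool.Agent.Lib_helper84.JO.Mel
import Pool.Agent.Lib_helper63.JO.WO
import Pool.Agent.Lib_helper37.JO.A5
import Pool.Agent.Lib_helper58.JOS.WantedS
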