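import Pool.Agent.Lib_helper84.JO6.N0

set_option autoImplicit false

namespace Pool.Agent.JO

open Complex MeasureTheory Filter Topology Set ModularGroup
open UpperHalfPlane hiding I
open Pool.Agent.Lib_helper37.JO (HJ)
open scoped MatrixGroups ComplexConjugate ContDiff

section

variable {N : ℕ} [NeZero N]

theorem pia_fam_pr (α : ℝ → ℂ) : FamH (PiA N α) := by
  intro γ s z
  unfold PiA
  congr 1
  rw [← (Equiv.mulRight γ).tsum_eq (fun γ' : SL(2, ℤ) => if red N γ' * s = 1 then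
    ((Real.sin (Complex.arg (γ' • z : ℍ)) ^ 2 : ℝ) : ℂ) * α (Complex.arg (γ' • z : ℍ)) else 0)]
  refine tsum_congr fun δ => ?_
  have h1 : red N (δ * γ) = red N δ * red N γ := by
    unfold red
    rw [map_mul]
  simp only [Equiv.coe_mulRight, mul_smul, h1, mul_assoc]

/-- matrices with bounded entries -/
theorem pif_fin (B : ℤ) : {γ : SL(2, ℤ) | ∀ i j, |γ i j| ≤ B}.Finite := by
  have h1 : (Set.pi (Set.univ : Set (Fin 2)) fun _ => Set.pi (Set.univ : Set (Fin 2))
      fun _ => Set.Icc (-B) B).Finite :=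
    Set.Finite.pi fun _ => Set.Finite.pi fun _ => Set.finite_Icc (-B) B
  refine Set.Finite.of_injOn (f := fun γ : SL(2, ℤ) => (fun i j => γ i j : Fin 2 → Fin 2 → ℤ))
    ?_ ?_ h1
  · intro γ hγ i _ j _
    exact abs_le.1 (hγ i j)
  · intro γ _ δ _ h
    apply Subtype.ext
    ext i j
    exact congrFun (congrFun h i) j

theorem pia_fin_pr {α : ℝ → ℂ} (hα : TB α) {K : Set ℍ} (hK : IsCompact K) :
    {γ : SL(2, ℤ) | ∃ z ∈ K, α (Complex.arg ((γ • z : ℍ) : ℂ)) ≠ 0}.Finite := by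
  obtain ⟨a, a', ha, ha', hsupp⟩ := hα.supp
  have hpi := Real.pi_pos
  -- lower bound for the sine
  obtain ⟨s0, hs0, hs⟩ : ∃ s0 : ℝ, 0 < s0 ∧ ∀ t ∈ Set.Icc a a', s0 ≤ Real.sin t := by
    rcases (Set.Icc a a').eq_empty_or_nonempty with he | hne
    · exact ⟨1, one_pos, fun t ht => by rw [he] at ht; exact absurd ht (Set.notMem_empty t)⟩
    · obtain ⟨t0, ht0, hmin⟩ := isCompact_Icc.exists_isMinOn hne
        (Real.continuous_sin.continuousOn (s := Set.Icc a a'))
      exact ⟨Real.sin t0, Real.sin_pos_of_pos_of_lt_pi (by linarith [ht0.1])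
        (by linarith [ht0.2]), fun t ht => hmin ht⟩
  rcases K.eq_empty_or_nonempty with hKe | hKne
  · refine Set.Finite.subset Set.finite_empty ?_
    rintro γ ⟨z, hz, _⟩
    rw [hKe] at hz
    exact absurd hz (Set.notMem_empty z)
  -- bounds on `K`
  obtain ⟨z1, hz1, hmin⟩ := hK.exists_isMinOn hKne (UpperHalfPlane.continuous_im.continuousOn)
  obtain ⟨z2, hz2, hmax⟩ := hK.exists_isMaxOn hKne
    ((UpperHalfPlane.continuous_coe.norm).continuousOn)
  set y0 : ℝ := z1.im with hy0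
  set R : ℝ := ‖(z2 : ℂ)‖ with hR
  have hy0pos : 0 < y0 := z1.im_pos
  have hR0 : 0 ≤ R := norm_nonneg _
  have hlow : ∀ z ∈ K, y0 ≤ z.im := fun z hz => hmin hz
  have hup : ∀ z ∈ K, ‖(z : ℂ)‖ ≤ R := fun z hz => hmax hz
  set δ : ℝ := min y0 1 with hδ
  have hδ0 : 0 < δ := lt_min hy0pos one_pos
  set M : ℝ := R / (s0 * δ) with hM
  have hM0 : 0 ≤ M := by positivity
  -- the linear forms
  have hlin : ∀ z ∈ K, ∀ p q : ℤ, (p ≠ 0 ∨ q ≠ 0) → δ ≤ ‖(p : ℂ) * z + q‖ := by
    intro z hz p q hpq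
    by_cases hp : p = 0
    · have hq : q ≠ 0 := by tauto
      rw [hp]
      simp only [Int.cast_zero, zero_mul, zero_add]
      rw [Complex.norm_intCast]
      have : (1 : ℝ) ≤ |(q : ℝ)| := by exact_mod_cast Int.one_le_abs hq
      exact (min_le_right _ _).trans this
    · have h1 := Complex.abs_im_le_norm ((p : ℂ) * z + q)
      have h2 : ((p : ℂ) * z + q).im = p * z.im := by simp
      rw [h2, abs_mul, abs_of_pos z.im_pos] at h1
      have h3 : (1 : ℝ) ≤ |(p : ℝ)| := by exact_mod_cast Int.one_le_abs hp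
      have h4 := hlow z hz
      calc δ ≤ y0 := min_le_left _ _
        _ ≤ z.im := h4
        _ ≤ |(p : ℝ)| * z.im := le_mul_of_one_le_left z.im_pos.le h3
        _ ≤ _ := h1
  have hbd : ∀ z ∈ K, ∀ p q : ℤ, ‖(p : ℂ) * z + q‖ ≤ M → |(p : ℝ)| ≤ M / y0 ∧
      |(q : ℝ)| ≤ M + M / y0 * R := by
    intro z hz p q h
    have h1 := Complex.abs_im_le_norm ((p : ℂ) * z + q)
    have h2 : ((p : ℂ) * z + q).im = p * z.im := by simp
    rw [h2, abs_mul, abs_of_pos z.im_pos] at h1
    have hp : |(p : ℝ)| ≤ M / y0 := by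
      rw [le_div_iff₀ hy0pos]
      calc |(p : ℝ)| * y0 ≤ |(p : ℝ)| * z.im :=
            mul_le_mul_of_nonneg_left (hlow z hz) (abs_nonneg _)
        _ ≤ M := h1.trans h
    refine ⟨hp, ?_⟩
    have h3 : |(q : ℝ)| = ‖((p : ℂ) * z + q) - (p : ℂ) * z‖ := by
      rw [add_sub_cancel_left, Complex.norm_intCast]
    rw [h3]
    refine (norm_sub_le _ _).trans (add_le_add h ?_)
    rw [norm_mul, Complex.norm_intCast]
    exact mul_le_mul hp (hup z hz) (norm_nonneg _) (by positivity)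
  set B : ℤ := ⌈max (M / y0) (M + M / y0 * R)⌉ with hB
  refine (pif_fin B).subset ?_
  rintro γ ⟨z, hz, hne⟩
  have harg := hsupp _ hne
  set w : ℂ := ((γ • z : ℍ) : ℂ) with hw
  have hwim : 0 < w.im := (γ • z).im_pos
  have hw0 : w ≠ 0 := by
    intro h0
    rw [h0] at hwim
    simp at hwim
  have h1 : ‖w‖ * s0 ≤ w.im := by
    have h2 : w.im = ‖w‖ * Real.sin (Complex.arg w) := by
      rw [Complex.norm_mul_sin_arg]
    rw [h2]
    exact mul_le_mul_of_nonneg_left (hs _ harg) (norm_nonneg _)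
  -- the two linear forms
  set num : ℂ := (γ 0 0 : ℂ) * z + (γ 0 1 : ℂ) with hnum
  set den : ℂ := (γ 1 0 : ℂ) * z + (γ 1 1 : ℂ) with hden
  have hdet : γ 0 0 * γ 1 1 - γ 0 1 * γ 1 0 = 1 := by
    have := γ.det_coe
    rwa [Matrix.det_fin_two] at this
  have hnum0 : δ ≤ ‖num‖ := by
    refine hlin z hz _ _ ?_
    by_contra hcon
    push Not at hcon
    rw [hcon.1, hcon.2] at hdet
    simp at hdet
  have hden0 : δ ≤ ‖den‖ := by
    refine hlin z hz _ _ ?_
    by_contra hcon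
    push Not at hcon
    rw [hcon.1, hcon.2] at hdet
    simp at hdet
  have hwe : w = num / den := by
    rw [hw, UpperHalfPlane.coe_specialLinearGroup_apply]
    simp [hnum, hden]
  have hwi : w.im = z.im / ‖den‖ ^ 2 := by
    have h2 := ModularGroup.im_smul_eq_div_normSq γ z
    have h3 : (denom γ z : ℂ) = den := by
      rw [ModularGroup.denom_apply]
    rw [h3, Complex.normSq_eq_norm_sq] at h2
    exact h2
  have hdpos : 0 < ‖den‖ := lt_of_lt_of_le hδ0 hden0
  have hprod : ‖num‖ * ‖den‖ ≤ R / s0 := by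
    rw [le_div_iff₀ hs0]
    have h4 : ‖num‖ = ‖w‖ * ‖den‖ := by
      rw [hwe, norm_div]; field_simp
    have h5 : z.im ≤ R := (Complex.im_le_norm _).trans (hup z hz)
    calc ‖num‖ * ‖den‖ * s0 = (‖w‖ * s0) * ‖den‖ ^ 2 := by rw [h4]; ring
      _ ≤ w.im * ‖den‖ ^ 2 := mul_le_mul_of_nonneg_right h1 (by positivity)
      _ = z.im := by rw [hwi]; field_simp
      _ ≤ R := h5
  have hn : ‖num‖ ≤ M := by
    rw [hM, ← div_div, le_div_iff₀ hδ0]
    exact (mul_le_mul_of_nonneg_left hden0 (norm_nonneg _)).trans hprod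
  have hd : ‖den‖ ≤ M := by
    rw [hM, ← div_div, le_div_iff₀ hδ0, mul_comm]
    exact (mul_le_mul_of_nonneg_right hnum0 (norm_nonneg _)).trans hprod
  obtain ⟨b00, b01⟩ := hbd z hz _ _ hn
  obtain ⟨b10, b11⟩ := hbd z hz _ _ hd
  have hfin : ∀ m : ℤ, |(m : ℝ)| ≤ max (M / y0) (M + M / y0 * R) → |m| ≤ B := by
    intro m hm
    have h6 : ((|m| : ℤ) : ℝ) ≤ (B : ℝ) := by
      push_cast
      exact hm.trans (Int.le_ceil _)
    exact_mod_cast h6
  intro i j
  fin_cases i <;> fin_cases j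
  · exact hfin _ (b00.trans (le_max_left _ _))
  · exact hfin _ (b01.trans (le_max_right _ _))
  · exact hfin _ (b10.trans (le_max_left _ _))
  · exact hfin _ (b11.trans (le_max_right _ _))

theorem pia_cont_pr {α : ℝ → ℂ} (hα : TB α) (s : QN N) : Continuous (PiA N α s) := by
  rw [continuous_iff_continuousAt]
  intro z0
  obtain ⟨K, hK, hKz⟩ := exists_compact_mem_nhds z0
  set S := (pia_fin_pr hα hK).toFinset with hS
  have h1 : ∀ z ∈ K, PiA N α s z = (1 / (4 * Real.pi)) * ∑ γ ∈ S, if red N γ * s = 1 then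
      ((Real.sin (Complex.arg (γ • z : ℍ)) ^ 2 : ℝ) : ℂ) * α (Complex.arg (γ • z : ℍ)) else 0 := by
    intro z hz
    unfold PiA
    congr 1
    refine tsum_eq_sum fun γ hγ => ?_
    have h2 : α (Complex.arg (γ • z : ℍ)) = 0 := by
      by_contra hne
      exact hγ ((pia_fin_pr hα hK).mem_toFinset.2 ⟨z, hz, hne⟩)
    rw [h2]
    simp
  have h3 : (fun z : ℍ => (1 / (4 * Real.pi) : ℂ) * ∑ γ ∈ S, if red N γ * s = 1 then
      ((Real.sin (Complex.arg (γ • z : ℍ)) ^ 2 : ℝ) : ℂ) * α (Complex.arg (γ • z : ℍ)) else 0)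
      =ᶠ[𝓝 z0] PiA N α s := by
    filter_upwards [hKz] with z hz
    rw [h1 z hz]
  refine ContinuousAt.congr ?_ h3
  refine Continuous.continuousAt ?_
  refine continuous_const.mul (continuous_finsetSum _ fun γ _ => ?_)
  split_ifs
  · have h4 : Continuous fun z : ℍ => Complex.arg (γ • z : ℍ) := by
      rw [continuous_iff_continuousAt]
      intro z
      have h5 : ContinuousAt Complex.arg ((γ • z : ℍ) : ℂ) := by
        refine Complex.continuousAt_arg (Or.inr ?_)
        exact (γ • z).im_pos.ne'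
      have h6 : Continuous fun z : ℍ => ((γ • z : ℍ) : ℂ) := by
        have h7 : Continuous fun z : ℍ => (γ : GL (Fin 2) ℝ) • z := continuous_const_smul _
        exact UpperHalfPlane.continuous_coe.comp h7
      exact ContinuousAt.comp (f := fun z : ℍ => ((γ • z : ℍ) : ℂ)) h5 h6.continuousAt
    refine Continuous.mul ?_ (hα.smooth.continuous.comp h4)
    exact Complex.continuous_ofReal.comp ((Real.continuous_sin.comp h4).pow 2)
  · exact continuous_const

end

end Pool.Agent.JO
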