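import Pool.Agent.Lib_helper84.JO6.N0

/-!
# Block ZAN (project JO, part E6): analytic properties of `ZN`
-/

set_option autoImplicit false

namespace Pool.Agent.JO

open Complex MeasureTheory Filter Topology Set ModularGroup
open UpperHalfPlane hiding I
open scoped MatrixGroups ComplexConjugate ContDiff

section

variable {N : ℕ} [NeZero N]

theorem zan_hz_diff (r : ZMod N) {s : ℂ} (hs : s ≠ 1) : DifferentiableAt ℂ (Hz r) s :=
  ZMod.differentiableAt_LFunction _ s (Or.inl hs)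

theorem zan_hz_lim (r : ZMod N) : ∃ l : ℂ, Tendsto (fun s : ℂ => (s - 1) * Hz r s) (𝓝[≠] 1) (𝓝 l) :=
  ⟨_, ZMod.LFunction_residue_one _⟩

theorem zan_triv_ne {u : ℂ} (hu : 1 ≤ u.re) : DirichletCharacter.LFunctionTrivChar₁ N u ≠ 0 := by
  rcases eq_or_ne u 1 with rfl | h1
  · exact DirichletCharacter.LFunctionTrivChar₁_apply_one_ne_zero N
  · rw [DirichletCharacter.LFunctionTrivChar₁, Function.update_of_ne h1]
    exact mul_ne_zero (sub_ne_zero.2 h1)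
      (DirichletCharacter.LFunction_ne_zero_of_one_le_re _ (Or.inr h1) hu)

theorem zan_iL_diff (χ : DirichletCharacter ℂ N) {u : ℂ} (hu : 1 ≤ u.re) :
    DifferentiableAt ℂ (iL χ) u := by
  by_cases h : χ = 1
  · have h1 : iL χ = fun u => (u - 1) / DirichletCharacter.LFunctionTrivChar₁ N u := by
      funext u
      simp only [iL, if_pos h]
    rw [h1]
    exact (differentiableAt_id.sub_const 1).div
      ((DirichletCharacter.differentiable_LFunctionTrivChar₁ N) u) (zan_triv_ne hu)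
  · have h1 : iL χ = fun u => (DirichletCharacter.LFunction χ u)⁻¹ := by
      funext u
      simp only [iL, if_neg h]
    rw [h1]
    exact ((DirichletCharacter.differentiable_LFunction h) u).inv
      (DirichletCharacter.LFunction_ne_zero_of_one_le_re _ (Or.inl h) hu)

theorem zan_mz_diff (δ : (ZMod N)ˣ) {u : ℂ} (hu : 1 ≤ u.re) : DifferentiableAt ℂ (Mz δ) u := by
  have h1 : Mz δ = fun u => (N.totient : ℂ)⁻¹ *
      ∑ χ : DirichletCharacter ℂ N, χ ((δ⁻¹ : (ZMod N)ˣ) : ZMod N) * iL χ u := by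
    funext u; rfl
  rw [h1]
  exact (DifferentiableAt.fun_sum fun χ _ => (zan_iL_diff χ hu).const_mul _).const_mul _

theorem zan_mz_diff2 (δ : (ZMod N)ˣ) {s : ℂ} (hs : 1 / 2 ≤ s.re) :
    DifferentiableAt ℂ (fun s => Mz δ (2 * s)) s := by
  have h1 : (1 : ℝ) ≤ (2 * s).re := by
    simp only [mul_re, re_ofNat, im_ofNat, zero_mul, sub_zero]
    linarith
  exact DifferentiableAt.comp (g := Mz δ) (f := fun s : ℂ => 2 * s) s (zan_mz_diff δ h1)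
    (differentiableAt_id.const_mul (2 : ℂ))

theorem zan_diffAt (v : ZMod N × ZMod N) (σ : ℝ) {s : ℂ} (hs : 1 / 2 ≤ s.re) (h1 : s ≠ 1) :
    DifferentiableAt ℂ (ZN (N := N) v σ) s := by
  have h2 : ZN (N := N) v σ = fun s => ∑ δ : (ZMod N)ˣ, Mz δ (2 * s) *
    (Hz (((δ⁻¹ : (ZMod N)ˣ) : ZMod N) * v.2) s *
        Hz (if σ = 1 then ((δ⁻¹ : (ZMod N)ˣ) : ZMod N) * v.1 else
          -(((δ⁻¹ : (ZMod N)ˣ) : ZMod N) * v.1)) s +
      Hz (-(((δ⁻¹ : (ZMod N)ˣ) : ZMod N) * v.2)) s *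
        Hz (if σ = 1 then -(((δ⁻¹ : (ZMod N)ˣ) : ZMod N) * v.1) else
          ((δ⁻¹ : (ZMod N)ˣ) : ZMod N) * v.1) s) := by
    funext s; rfl
  rw [h2]
  exact DifferentiableAt.fun_sum fun δ _ => (zan_mz_diff2 δ hs).mul
    (((zan_hz_diff _ h1).mul (zan_hz_diff _ h1)).add ((zan_hz_diff _ h1).mul (zan_hz_diff _ h1)))

theorem zan_diff_pr (v : ZMod N × ZMod N) (σ : ℝ) :
    DifferentiableOn ℂ (ZN (N := N) v σ) {s : ℂ | 1 / 2 < s.re ∧ s ≠ 1} := fun _ hs =>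
  (zan_diffAt v σ hs.1.le hs.2).differentiableWithinAt

theorem zan_pole_pr (v : ZMod N × ZMod N) (σ : ℝ) : ∃ C r : ℝ, 0 < r ∧ ∀ s : ℂ, s ≠ 1 →
    ‖s - 1‖ < r → ‖ZN (N := N) v σ s‖ ≤ C / ‖s - 1‖ ^ 2 := by
  obtain ⟨L, hL⟩ : ∃ L : ℂ, Tendsto (fun s : ℂ => (s - 1) ^ 2 * ZN (N := N) v σ s) (𝓝[≠] 1)
      (𝓝 L) := by
    choose l hl using zan_hz_lim (N := N)
    refine ⟨∑ δ : (ZMod N)ˣ, Mz δ (2 * 1) *
      (l (((δ⁻¹ : (ZMod N)ˣ) : ZMod N) * v.2) *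
        l (if σ = 1 then ((δ⁻¹ : (ZMod N)ˣ) : ZMod N) * v.1 else
          -(((δ⁻¹ : (ZMod N)ˣ) : ZMod N) * v.1)) +
      l (-(((δ⁻¹ : (ZMod N)ˣ) : ZMod N) * v.2)) *
        l (if σ = 1 then -(((δ⁻¹ : (ZMod N)ˣ) : ZMod N) * v.1) else
          ((δ⁻¹ : (ZMod N)ˣ) : ZMod N) * v.1)), ?_⟩
    have h3 : (fun s : ℂ => (s - 1) ^ 2 * ZN (N := N) v σ s) = fun s : ℂ =>
        ∑ δ : (ZMod N)ˣ, Mz δ (2 * s) *
      ((s - 1) * Hz (((δ⁻¹ : (ZMod N)ˣ) : ZMod N) * v.2) s *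
        ((s - 1) * Hz (if σ = 1 then ((δ⁻¹ : (ZMod N)ˣ) : ZMod N) * v.1 else
          -(((δ⁻¹ : (ZMod N)ˣ) : ZMod N) * v.1)) s) +
      (s - 1) * Hz (-(((δ⁻¹ : (ZMod N)ˣ) : ZMod N) * v.2)) s *
        ((s - 1) * Hz (if σ = 1 then -(((δ⁻¹ : (ZMod N)ˣ) : ZMod N) * v.1) else
          ((δ⁻¹ : (ZMod N)ˣ) : ZMod N) * v.1) s)) := by
      funext s
      rw [ZN, Finset.mul_sum]
      refine Finset.sum_congr rfl fun δ _ => ?_
      ring
    rw [h3]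
    refine tendsto_finsetSum _ fun δ _ => ?_
    have h4 : Tendsto (fun s : ℂ => Mz δ (2 * s)) (𝓝[≠] 1) (𝓝 (Mz δ (2 * 1))) :=
      (zan_mz_diff2 δ (s := 1) (by norm_num)).continuousAt.tendsto.mono_left nhdsWithin_le_nhds
    exact h4.mul (((hl _).mul (hl _)).add ((hl _).mul (hl _)))
  have h5 : ∀ᶠ s in 𝓝[≠] (1 : ℂ), ‖(s - 1) ^ 2 * ZN (N := N) v σ s‖ < ‖L‖ + 1 :=
    (hL.norm).eventually_lt_const (lt_add_one _)
  rw [eventually_nhdsWithin_iff, Metric.eventually_nhds_iff] at h5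
  obtain ⟨r, hr, h6⟩ := h5
  refine ⟨‖L‖ + 1, r, hr, fun s hs1 hs => ?_⟩
  have h7 := h6 (by rw [dist_eq_norm]; exact hs) hs1
  have h8 : 0 < ‖s - 1‖ := norm_pos_iff.2 (sub_ne_zero.2 hs1)
  rw [le_div_iff₀ (by positivity)]
  rw [norm_mul, norm_pow] at h7
  linarith

theorem zan_bd_pr (v : ZMod N × ZMod N) (σ κ : ℝ) :
    ContinuousWithinAt (fun w : ℂ => ZN (N := N) v σ (1 - w)) {s : ℂ | 0 < s.re ∧ s.re < 1 / 2}
      ((1 / 2 : ℝ) + (κ : ℂ) * I) := by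
  have h1 : (1 : ℂ) - ((1 / 2 : ℝ) + (κ : ℂ) * I) ≠ 1 := by
    intro h
    have h2 := congrArg Complex.re h
    simp at h2
  have h2 : (1 : ℝ) / 2 ≤ ((1 : ℂ) - ((1 / 2 : ℝ) + (κ : ℂ) * I)).re := by
    simp
    norm_num
  have h3 : ContinuousAt (fun w : ℂ => ZN (N := N) v σ (1 - w)) ((1 / 2 : ℝ) + (κ : ℂ) * I) :=
    ContinuousAt.comp (f := fun w : ℂ => 1 - w) (zan_diffAt v σ h2 h1).continuousAt
      (continuousAt_const.sub continuousAt_id)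
  exact h3.continuousWithinAt

theorem zan_cont_pr (v : ZMod N × ZMod N) (σ : ℝ) :
    Continuous fun κ : ℝ => ZN (N := N) v σ ((1 / 2 : ℂ) + κ * I) := by
  rw [continuous_iff_continuousAt]
  intro κ
  have h1 : (1 / 2 : ℂ) + κ * I ≠ 1 := by
    intro h
    have h2 := congrArg Complex.re h
    simp at h2
  have h2 : (1 : ℝ) / 2 ≤ ((1 / 2 : ℂ) + κ * I).re := by
    simp
  exact ContinuousAt.comp (f := fun κ : ℝ => (1 / 2 : ℂ) + κ * I) (zan_diffAt v σ h2 h1).continuousAt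
    (by fun_prop)

end

end Pool.Agent.JO
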