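import Pool.Agent.Lib_helper84.JO6.N0

/-!
# Project JO, part E6, block ZMO: Möbius sums in residue classes
-/

set_option autoImplicit false

namespace Pool.Agent.JO

open Complex MeasureTheory Filter Topology Set ModularGroup
open UpperHalfPlane hiding I
open scoped MatrixGroups ComplexConjugate ContDiff

section

variable {N : ℕ} [NeZero N]

theorem zmo_term (u : ℂ) (f : ℕ → ℂ) (h0 : f 0 = 0) (d : ℕ) :
    LSeries.term f u d = f d * (d : ℂ) ^ (-u) := by
  rcases eq_or_ne d 0 with rfl | hd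
  · simp [h0]
  · rw [LSeries.term_of_ne_zero hd, cpow_neg, div_eq_mul_inv]

theorem zmo_char {u : ℂ} (hu : 1 < u.re) (χ : DirichletCharacter ℂ N) :
    HasSum (fun d : ℕ => χ (d : ZMod N) *
      (((ArithmeticFunction.moebius d : ℤ) : ℂ) * (d : ℂ) ^ (-u))) (iL χ u) := by
  have hs : LSeriesSummable ((fun n : ℕ => χ (n : ZMod N)) *
      (fun n : ℕ => ((ArithmeticFunction.moebius n : ℤ) : ℂ))) u :=
    DirichletCharacter.LSeriesSummable_mul χ (ArithmeticFunction.LSeriesSummable_moebius_iff.mpr hu)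
  have h1 : LSeries (fun n : ℕ => χ (n : ZMod N)) u *
      LSeries ((fun n : ℕ => χ (n : ZMod N)) *
        (fun n : ℕ => ((ArithmeticFunction.moebius n : ℤ) : ℂ))) u = 1 :=
    DirichletCharacter.LSeries.mul_mu_eq_one χ hu
  have h2 : DirichletCharacter.LFunction χ u = LSeries (fun n : ℕ => χ (n : ZMod N)) u :=
    DirichletCharacter.LFunction_eq_LSeries χ hu
  have h3 : iL χ u = LSeries ((fun n : ℕ => χ (n : ZMod N)) *
        (fun n : ℕ => ((ArithmeticFunction.moebius n : ℤ) : ℂ))) u := by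
    have h4 : (DirichletCharacter.LFunction χ u)⁻¹ = LSeries ((fun n : ℕ => χ (n : ZMod N)) *
        (fun n : ℕ => ((ArithmeticFunction.moebius n : ℤ) : ℂ))) u := by
      rw [h2]
      exact inv_eq_of_mul_eq_one_right h1
    have hu1 : u ≠ 1 := by
      rintro rfl
      simp at hu
    have hne : u - 1 ≠ 0 := sub_ne_zero.2 hu1
    unfold iL
    split_ifs with hχ
    · rw [← h4, DirichletCharacter.LFunctionTrivChar₁, Function.update_of_ne hu1, hχ,
        DirichletCharacter.LFunctionTrivChar]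
      rw [div_eq_mul_inv, mul_inv, ← mul_assoc, mul_inv_cancel₀ hne, one_mul]
    · exact h4
  rw [h3]
  have h5 := hs.LSeriesHasSum
  unfold LSeriesHasSum at h5
  have h6 : (LSeries.term ((fun n : ℕ => χ (n : ZMod N)) *
      (fun n : ℕ => ((ArithmeticFunction.moebius n : ℤ) : ℂ))) u) = fun d : ℕ => χ (d : ZMod N) *
      (((ArithmeticFunction.moebius d : ℤ) : ℂ) * (d : ℂ) ^ (-u)) := by
    funext d
    rw [zmo_term _ _ (by simp), Pi.mul_apply, mul_assoc]
  rw [h6] at h5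
  exact h5

theorem zmo_ind (δ : (ZMod N)ˣ) (b : ZMod N) (z : ℂ) : (if b = (δ : ZMod N) then z else 0) =
    (N.totient : ℂ)⁻¹ * ∑ χ : DirichletCharacter ℂ N, χ ((δ⁻¹ : (ZMod N)ˣ) : ZMod N) *
      (χ b * z) := by
  have h := DirichletCharacter.sum_char_inv_mul_char_eq ℂ δ.isUnit b
  rw [ZMod.inv_coe_unit] at h
  have h1 : ∑ χ : DirichletCharacter ℂ N, χ ((δ⁻¹ : (ZMod N)ˣ) : ZMod N) * (χ b * z) =
      (if (δ : ZMod N) = b then (N.totient : ℂ) else 0) * z := by
    rw [← h, Finset.sum_mul]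
    refine Finset.sum_congr rfl fun χ _ => ?_
    rw [mul_assoc]
  rw [h1]
  have h2 : (N.totient : ℂ) ≠ 0 :=
    Nat.cast_ne_zero.2 (Nat.totient_pos.2 (Nat.pos_of_ne_zero (NeZero.ne N))).ne'
  by_cases hb : (δ : ZMod N) = b
  · rw [if_pos hb.symm, if_pos hb, ← mul_assoc, inv_mul_cancel₀ h2, one_mul]
  · rw [if_neg (fun h => hb h.symm), if_neg hb, zero_mul, mul_zero]

theorem zmo_pr {u : ℂ} (hu : 1 < u.re) (δ : (ZMod N)ˣ) :
    Summable (fun d : ℕ => ‖if (d : ZMod N) = δ then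
      ((ArithmeticFunction.moebius d : ℤ) : ℂ) * (d : ℂ) ^ (-u) else 0‖) ∧
    ∑' d : ℕ, (if (d : ZMod N) = δ then
      ((ArithmeticFunction.moebius d : ℤ) : ℂ) * (d : ℂ) ^ (-u) else 0) = Mz δ u := by
  have h : HasSum (fun d : ℕ => if (d : ZMod N) = δ then
      ((ArithmeticFunction.moebius d : ℤ) : ℂ) * (d : ℂ) ^ (-u) else 0) (Mz δ u) := by
    simp_rw [zmo_ind]
    unfold Mz
    refine HasSum.mul_left _ (hasSum_sum fun χ _ => ?_)
    exact (zmo_char hu χ).mul_left _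
  exact ⟨h.summable.norm, h.tsum_eq⟩

theorem zhr_pr {s : ℂ} (hs : 1 < s.re) (r : ZMod N) :
    Summable (fun n : ℕ => ‖if 0 < n ∧ (n : ZMod N) = r then (n : ℂ) ^ (-s) else 0‖) ∧
    ∑' n : ℕ, (if 0 < n ∧ (n : ZMod N) = r then (n : ℂ) ^ (-s) else 0) = Hz r s := by
  have h : HasSum (fun n : ℕ => if 0 < n ∧ (n : ZMod N) = r then (n : ℂ) ^ (-s) else 0)
      (Hz r s) := by
    unfold Hz
    rw [ZMod.LFunction_eq_LSeries _ hs]
    have h1 := (ZMod.LSeriesSummable_of_one_lt_re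
      (fun x : ZMod N => if x = r then (1 : ℂ) else 0) hs).LSeriesHasSum
    unfold LSeriesHasSum at h1
    have h2 : (LSeries.term (fun n : ℕ => if (n : ZMod N) = r then (1 : ℂ) else 0) s) =
        fun n : ℕ => if 0 < n ∧ (n : ZMod N) = r then (n : ℂ) ^ (-s) else 0 := by
      funext n
      rcases eq_or_ne n 0 with rfl | hn
      · simp
      · rw [LSeries.term_of_ne_zero hn]
        by_cases hr : (n : ZMod N) = r
        · rw [if_pos hr, if_pos ⟨Nat.pos_of_ne_zero hn, hr⟩, cpow_neg, one_div]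
        · rw [if_neg hr, if_neg (fun h => hr h.2), zero_div]
    rw [h2] at h1
    exact h1
  exact ⟨h.summable.norm, h.tsum_eq⟩

end

end Pool.Agent.JO
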