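import Pool.Agent.Lib_helper84.JO6.TDB
import Pool.Agent.Lib_helper84.JO6.FSB
import Pool.Agent.Lib_helper84.JO6.JJA
import Pool.Agent.Lib_helper84.JO6.PIF
import Pool.Agent.Lib_helper84.JO6.ZMO
import Pool.Agent.Lib_helper84.JO6.ZAN
import Pool.Agent.Lib_helper84.JO6.CHM

/-! # JO, part E6: collected statements -/

namespace Pool.Agent.JO

theorem td_tb : type_of% @td_tb_pr := @td_tb_pr

theorem td_int0 : type_of% @td_int0_pr := @td_int0_pr

theorem td_move : type_of% @td_move_pr := @td_move_pr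

theorem tb_conj : type_of% @tb_conj_pr := @tb_conj_pr

theorem fs_h_pos : type_of% @fs_h_pos_pr := @fs_h_pos_pr

theorem fs_h_le : type_of% @fs_h_le_pr := @fs_h_le_pr

theorem fs_bd : type_of% @fs_bd_pr := @fs_bd_pr

theorem fs_cont : type_of% @fs_cont_pr := @fs_cont_pr

theorem fs_hj : type_of% @fs_hj_pr := @fs_hj_pr

theorem fs_conj : type_of% @fs_conj_pr := @fs_conj_pr

theorem jj_cont : type_of% @jj_cont_pr := @jj_cont_pr

theorem jj_supp : type_of% @jj_supp_pr := @jj_supp_pr

theorem jj_bd : type_of% @jj_bd_pr := @jj_bd_pr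

theorem pia_fam : type_of% @pia_fam_pr := @pia_fam_pr

theorem pia_fin : type_of% @pia_fin_pr := @pia_fin_pr

theorem pia_cont : type_of% @pia_cont_pr := @pia_cont_pr

theorem zmo : type_of% @zmo_pr := @zmo_pr

theorem zhr : type_of% @zhr_pr := @zhr_pr

theorem zan_diff : type_of% @zan_diff_pr := @zan_diff_pr

theorem zan_pole : type_of% @zan_pole_pr := @zan_pole_pr

theorem zan_bd : type_of% @zan_bd_pr := @zan_bd_pr

theorem zan_cont : type_of% @zan_cont_pr := @zan_cont_pr

theorem ch_meas : type_of% @ch_meas_pr := @ch_meas_pr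

theorem ch_one : type_of% @ch_one_pr := @ch_one_pr

theorem ch_sq : type_of% @ch_sq_pr := @ch_sq_pr

theorem ch_mel : type_of% @ch_mel_pr := @ch_mel_pr

end Pool.Agent.JO
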