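import Pool.Agent.Lib_helper84.JO6.N1

/-!
# Project JO, part E6, block PIG: boundedness of the dual family
-/

set_option autoImplicit false

namespace Pool.Agent.JO

open Complex MeasureTheory Filter Topology Set ModularGroup
open UpperHalfPlane hiding I
open Pool.Agent.Lib_helper37.JO (HJ)
open scoped MatrixGroups ComplexConjugate ContDiff

/-! ### Riemann sums -/

/-- the difference of a sum and an integral is at most the total variation -/
theorem pig_sum {g g' : ℝ → ℂ} (hd : ∀ t, HasDerivAt g (g' t) t) (hc : Continuous g')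
    (hg : Integrable g) (hg' : Integrable g') :
    Summable (fun k : ℤ => g k) ∧ ‖∑' k : ℤ, g k - ∫ t, g t‖ ≤ ∫ t, ‖g' t‖ := by
  have h1 := hg.hasSum_intervalIntegral 0
  have h2 := hg'.norm.hasSum_intervalIntegral 0
  have hgc : Continuous g := continuous_iff_continuousAt.2 fun t => (hd t).continuousAt
  have h3 : ∀ k : ℤ, ‖g k - ∫ t in (0 : ℝ) + k..(0 : ℝ) + k + 1, g t‖ ≤
      ∫ t in (0 : ℝ) + k..(0 : ℝ) + k + 1, ‖g' t‖ := by
    intro k
    simp only [zero_add]
    have h4 : g k - ∫ t in (k : ℝ)..k + 1, g t = ∫ t in (k : ℝ)..k + 1, (g k - g t) := by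
      rw [intervalIntegral.integral_sub (continuous_const.intervalIntegrable _ _)
        (hgc.intervalIntegrable _ _)]
      simp
    have h5 : ∀ t ∈ Set.uIoc (k : ℝ) (k + 1), ‖g k - g t‖ ≤
        ∫ u in (k : ℝ)..k + 1, ‖g' u‖ := by
      intro t ht
      rw [Set.uIoc_of_le (by linarith)] at ht
      have h6 : g t - g k = ∫ u in (k : ℝ)..t, g' u :=
        (intervalIntegral.integral_eq_sub_of_hasDerivAt (fun u _ => hd u)
          (hc.intervalIntegrable _ _)).symm
      rw [norm_sub_rev, h6]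
      refine (intervalIntegral.norm_integral_le_integral_norm ht.1.le).trans ?_
      refine intervalIntegral.integral_mono_interval le_rfl ht.1.le ht.2
        (ae_of_all _ fun u => norm_nonneg _) (hc.norm.intervalIntegrable _ _)
    rw [h4]
    have h7 := intervalIntegral.norm_integral_le_of_norm_le_const h5
    simpa using h7
  have h4 : Summable (fun k : ℤ => g k - ∫ t in (0 : ℝ) + k..(0 : ℝ) + k + 1, g t) :=
    Summable.of_norm_bounded h2.summable h3
  have h5 : ∀ k : ℤ, g k = (g k - ∫ t in (0 : ℝ) + k..(0 : ℝ) + k + 1, g t) +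
      ∫ t in (0 : ℝ) + k..(0 : ℝ) + k + 1, g t := fun k => by ring
  have h6 : HasSum (fun k : ℤ => g k)
      ((∑' k : ℤ, (g k - ∫ t in (0 : ℝ) + k..(0 : ℝ) + k + 1, g t)) + ∫ t, g t) := by
    have h7 := h4.hasSum.add h1
    simpa using h7
  refine ⟨h6.summable, ?_⟩
  rw [h6.tsum_eq, add_sub_cancel_right]
  rw [← h2.tsum_eq]
  exact tsum_of_norm_bounded h2.summable.hasSum h3

/-- sums over arithmetic progressions of functions with mean zero -/
theorem pig_sum2 {G : ℝ → ℂ} (hG : ContDiff ℝ 1 G) (hs : HasCompactSupport G)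
    (h0 : ∫ u, G u = 0) (x : ℝ) {h : ℝ} (hh : 0 < h) :
    Summable (fun k : ℤ => G (x + h * k)) ∧ ‖∑' k : ℤ, G (x + h * k)‖ ≤ ∫ u, ‖deriv G u‖ := by
  have hc : Continuous (deriv G) := hG.continuous_deriv le_rfl
  have hi : Integrable G := hG.continuous.integrable_of_hasCompactSupport hs
  have hi' : Integrable (deriv G) := hc.integrable_of_hasCompactSupport hs.deriv
  have hmap : ∀ F : ℝ → ℂ, ∫ t, F (x + h * t) = |h⁻¹| • ∫ t, F t := by
    intro F
    rw [Measure.integral_comp_mul_left (fun t => F (x + t)) h, integral_add_left_eq_self]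
  have hmap' : ∀ F : ℝ → ℝ, ∫ t, F (x + h * t) = |h⁻¹| • ∫ t, F t := by
    intro F
    rw [Measure.integral_comp_mul_left (fun t => F (x + t)) h, integral_add_left_eq_self]
  have hmi : ∀ F : ℝ → ℂ, Integrable F → Integrable (fun t => F (x + h * t)) := by
    intro F hF
    exact ((hF.comp_add_left x).comp_mul_left' hh.ne')
  have hd : ∀ t, HasDerivAt (fun t => G (x + h * t)) ((h : ℂ) * deriv G (x + h * t)) t := by
    intro t
    have h1 : HasDerivAt (fun t : ℝ => x + h * t) h t := by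
      simpa using ((hasDerivAt_id t).const_mul h).const_add x
    have h2 : HasDerivAt (fun t => G (x + h * t)) (h • deriv G (x + h * t)) t :=
      HasDerivAt.scomp (g₁ := G) (h := fun t : ℝ => x + h * t) t
        ((hG.differentiable one_ne_zero) (x + h * t)).hasDerivAt h1
    rwa [real_smul] at h2
  have h1 := pig_sum (g := fun t => G (x + h * t)) (g' := fun t => (h : ℂ) * deriv G (x + h * t))
    hd (by fun_prop) (hmi _ hi) ((hmi _ hi').const_mul _)
  refine ⟨h1.1, ?_⟩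
  have h2 := h1.2
  rw [hmap, h0, smul_zero, sub_zero] at h2
  refine h2.trans_eq ?_
  have h3 : ∀ t : ℝ, ‖(h : ℂ) * deriv G (x + h * t)‖ = h * ‖deriv G (x + h * t)‖ := by
    intro t
    rw [norm_mul, Complex.norm_real, Real.norm_of_nonneg hh.le]
  simp_rw [h3]
  rw [integral_const_mul, hmap' (fun t => ‖deriv G t‖), abs_of_pos (by positivity), smul_eq_mul,
    ← mul_assoc, mul_inv_cancel₀ hh.ne', one_mul]

/-! ### The angle -/

/-- the argument of `u + i` -/
noncomputable def pig_th (u : ℝ) : ℝ := Real.pi / 2 - Real.arctan u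

theorem pig_th_mem (u : ℝ) : pig_th u ∈ Ioo 0 Real.pi := by
  have h1 := Real.arctan_lt_pi_div_two u
  have h2 := Real.neg_pi_div_two_lt_arctan u
  unfold pig_th
  constructor
  · linarith
  · linarith

theorem pig_arg_I (u : ℝ) : Complex.arg ((u : ℂ) + I) = pig_th u := by
  have h1 : (0 : ℝ) < √(1 + u ^ 2) := Real.sqrt_pos.2 (by positivity)
  have hm := pig_th_mem u
  have h2 : (u : ℂ) + I = ((√(1 + u ^ 2) : ℝ) : ℂ) *
      (Complex.cos (pig_th u) + Complex.sin (pig_th u) * I) := by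
    have hc : Real.cos (pig_th u) = u / √(1 + u ^ 2) := by
      unfold pig_th
      rw [Real.cos_pi_div_two_sub, Real.sin_arctan]
    have hs : Real.sin (pig_th u) = 1 / √(1 + u ^ 2) := by
      unfold pig_th
      rw [Real.sin_pi_div_two_sub, Real.cos_arctan]
    rw [← Complex.ofReal_cos, ← Complex.ofReal_sin, hc, hs]
    have h3 : ((√(1 + u ^ 2) : ℝ) : ℂ) ≠ 0 := by exact_mod_cast h1.ne'
    push_cast
    field_simp
  rw [h2, Complex.arg_mul_cos_add_sin_mul_I h1]
  have h3 := Real.pi_pos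
  exact ⟨by linarith [hm.1], hm.2.le⟩

/-- the argument of a point of the upper half plane -/
theorem pig_arg (z : ℂ) (hz : 0 < z.im) : Complex.arg z = pig_th (z.re / z.im) := by
  rw [← pig_arg_I]
  have h1 : z = (z.im : ℂ) * (((z.re / z.im : ℝ) : ℂ) + I) := by
    have h2 : (z.im : ℂ) ≠ 0 := by exact_mod_cast hz.ne'
    push_cast
    field_simp
    exact (Complex.re_add_im z).symm
  conv_lhs => rw [h1]
  rw [Complex.arg_real_mul _ hz]

theorem pig_arg_inv (z : ℂ) (hz : 0 < z.im) : Complex.arg (-z⁻¹) = Real.pi - Complex.arg z := by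
  have h1 : (z⁻¹).im < 0 := by
    rw [Complex.inv_im]
    have h2 : 0 < Complex.normSq z := Complex.normSq_pos.2 (by
      rintro rfl
      simp at hz)
    exact div_neg_of_neg_of_pos (by linarith) h2
  have h2 : Complex.arg z ≠ Real.pi := by
    intro h
    rw [Complex.arg_eq_pi_iff] at h
    linarith [h.2]
  rw [Complex.arg_neg_eq_arg_add_pi_of_im_neg h1, Complex.arg_inv, if_neg h2]
  ring

/-- `G(u) = sin² α (arg (u + i))` -/
noncomputable def pig_G (α : ℝ → ℂ) (u : ℝ) : ℂ := sa α (pig_th u)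

theorem pig_G_smooth {α : ℝ → ℂ} (hα : TB α) : ContDiff ℝ 1 (pig_G α) := by
  have h1 : ContDiff ℝ 1 (sa α) := by
    unfold sa
    refine ContDiff.mul ?_ (hα.smooth.of_le (by simp))
    exact Complex.ofRealCLM.contDiff.comp (Real.contDiff_sin.pow 2)
  have h2 : ContDiff ℝ 1 pig_th := contDiff_const.sub Real.contDiff_arctan
  exact h1.comp h2

theorem pig_G_supp {α : ℝ → ℂ} (hα : TB α) : HasCompactSupport (pig_G α) := by
  obtain ⟨a, a', ha, ha', hs⟩ := hα.supp
  refine HasCompactSupport.intro (K := Icc (Real.tan (Real.pi / 2 - a'))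
    (Real.tan (Real.pi / 2 - a))) isCompact_Icc fun u hu => ?_
  by_contra h1
  apply hu
  have h2 : α (pig_th u) ≠ 0 := by
    intro h3
    apply h1
    unfold pig_G sa
    rw [h3, mul_zero]
  obtain ⟨h3, h4⟩ := hs _ h2
  have h5 := pig_th_mem u
  have h6 : a < Real.pi := lt_of_le_of_lt h3 h5.2
  have h7 : 0 < a' := lt_of_lt_of_le h5.1 h4
  unfold pig_th at h3 h4
  constructor
  · rw [← Real.tan_arctan u]
    refine Real.strictMonoOn_tan.monotoneOn ⟨by linarith, by linarith⟩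
      ⟨Real.neg_pi_div_two_lt_arctan u, Real.arctan_lt_pi_div_two u⟩ (by linarith)
  · rw [← Real.tan_arctan u]
    refine Real.strictMonoOn_tan.monotoneOn ⟨Real.neg_pi_div_two_lt_arctan u,
      Real.arctan_lt_pi_div_two u⟩ ⟨by linarith, by linarith⟩ (by linarith)

theorem pig_th_image : pig_th '' Set.univ = Ioo 0 Real.pi := by
  ext t
  constructor
  · rintro ⟨u, _, rfl⟩
    exact pig_th_mem u
  · intro ht
    have h1 : Real.pi / 2 - t ∈ range Real.arctan := by
      rw [Real.range_arctan]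
      exact ⟨by linarith [ht.2], by linarith [ht.1]⟩
    obtain ⟨u, hu⟩ := h1
    refine ⟨u, mem_univ _, ?_⟩
    unfold pig_th
    rw [hu]
    ring

theorem pig_G_int {α : ℝ → ℂ} : ∫ u, pig_G α u = ∫ t in Ioo 0 Real.pi, α t := by
  have h1 : ∀ u ∈ (Set.univ : Set ℝ), HasDerivWithinAt pig_th (-(1 / (1 + u ^ 2))) Set.univ u := by
    intro u _
    exact ((Real.hasDerivAt_arctan u).const_sub (Real.pi / 2)).hasDerivWithinAt
  have h2 : InjOn pig_th Set.univ := by
    intro u _ v _ h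
    unfold pig_th at h
    exact Real.arctan_injective (by linarith)
  have h3 := integral_image_eq_integral_abs_deriv_smul MeasurableSet.univ h1 h2 α
  rw [pig_th_image] at h3
  rw [h3, setIntegral_univ]
  refine integral_congr_ae (ae_of_all _ fun u => ?_)
  have h4 : Real.sin (pig_th u) ^ 2 = 1 / (1 + u ^ 2) := by
    unfold pig_th
    rw [Real.sin_pi_div_two_sub, Real.cos_sq_arctan]
  show pig_G α u = |(-(1 / (1 + u ^ 2)))| • α (pig_th u)
  rw [abs_neg, abs_of_pos (by positivity), real_smul]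
  unfold pig_G sa
  rw [h4]

/-! ### The reflected test function -/

theorem pig_refl {α : ℝ → ℂ} (hα : TB α) : TB (fun θ => α (Real.pi - θ)) := by
  refine ⟨hα.smooth.comp (contDiff_const.sub contDiff_id), ?_⟩
  obtain ⟨a, a', ha, ha', hs⟩ := hα.supp
  refine ⟨Real.pi - a', Real.pi - a, by linarith, by linarith, fun t ht => ?_⟩
  obtain ⟨h1, h2⟩ := hs _ ht
  exact ⟨by linarith, by linarith⟩

theorem pig_refl_int {α : ℝ → ℂ} (h0 : ∫ t in Ioo 0 Real.pi, α t = 0) :
    ∫ t in Ioo 0 Real.pi, α (Real.pi - t) = 0 := by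
  have h1 : ∀ f : ℝ → ℂ, ∫ t in Ioo 0 Real.pi, f t = ∫ t in (0 : ℝ)..Real.pi, f t := by
    intro f
    rw [intervalIntegral.integral_of_le Real.pi_pos.le, integral_Ioc_eq_integral_Ioo]
  rw [h1, intervalIntegral.integral_comp_sub_left (fun t => α t)]
  rw [h1] at h0
  simpa using h0

/-! ### The action on the angle -/

theorem pig_T (α : ℝ → ℂ) (z : ℍ) (n : ℤ) :
    sa α (Complex.arg ((T ^ n • z : ℍ) : ℂ)) = pig_G α ((z.re + n) / z.im) := by
  have h1 : 0 < ((T ^ n • z : ℍ) : ℂ).im := (T ^ n • z : ℍ).im_pos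
  rw [pig_arg _ h1]
  unfold pig_G
  rw [UpperHalfPlane.coe_re, UpperHalfPlane.coe_im, re_T_zpow_smul, im_T_zpow_smul]

theorem pig_S (α : ℝ → ℂ) (z : ℍ) :
    sa α (Complex.arg ((S • z : ℍ) : ℂ)) =
      sa (fun θ => α (Real.pi - θ)) (Complex.arg ((z : ℍ) : ℂ)) := by
  have h1 : ((S • z : ℍ) : ℂ) = -((z : ℂ)⁻¹) := by
    rw [UpperHalfPlane.modular_S_smul]
    show (-(z : ℂ))⁻¹ = _
    rw [inv_neg]
  rw [h1, pig_arg_inv _ z.im_pos]
  unfold sa
  rw [Real.sin_pi_sub]

theorem pig_redT {N : ℕ} (m n : ℤ) :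
    red N (T ^ m) = red N (T ^ n) ↔ ((m : ℤ) : ZMod N) = ((n : ℤ) : ZMod N) := by
  constructor
  · intro h
    have h1 := congrArg (fun x : QN N => x 0 1) h
    simpa [red, coe_T_zpow, -map_zpow] using h1
  · intro h
    ext i j
    fin_cases i <;> fin_cases j <;> simp [red, coe_T_zpow, h, -map_zpow]

theorem pig_red_mul {N : ℕ} (γ δ : SL(2, ℤ)) : red N (γ * δ) = red N γ * red N δ := by
  unfold red
  exact map_mul _ _ _

/-- sums over the translations with a congruence condition -/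
theorem pig_res {N : ℕ} [NeZero N] (s s' : QN N) (F : ℤ → ℂ) {V : ℝ} (hV : 0 ≤ V)
    (hF : ∀ n₀ : ℤ, ‖∑' k : ℤ, F (n₀ + N * k)‖ ≤ V) [DecidableEq (QN N)] :
    ‖∑' n : ℤ, (if red N (T ^ n) * s = s' then F n else 0)‖ ≤ V := by
  by_cases h : ∃ n₀ : ℤ, red N (T ^ n₀) * s = s'
  · obtain ⟨n₀, hn₀⟩ := h
    have hN : (N : ℤ) ≠ 0 := by exact_mod_cast NeZero.ne N
    have hinj : Function.Injective (fun k : ℤ => n₀ + N * k) := by
      intro k l hkl
      have h1 : (N : ℤ) * k = N * l := by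
        have h2 : n₀ + (N : ℤ) * k = n₀ + N * l := hkl
        linarith
      exact mul_left_cancel₀ hN h1
    have h1 := hinj.tsum_eq (f := fun n : ℤ => if red N (T ^ n) * s = s' then F n else 0) (by
      intro n hn
      rw [Function.mem_support] at hn
      have h2 : red N (T ^ n) * s = s' := by
        by_contra h3
        exact hn (if_neg h3)
      have h3 : red N (T ^ n) = red N (T ^ n₀) := by
        rw [← hn₀] at h2
        exact mul_right_cancel h2
      rw [pig_redT, ZMod.intCast_eq_intCast_iff_dvd_sub] at h3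
      obtain ⟨c, hc⟩ := h3
      refine ⟨-c, ?_⟩
      show n₀ + N * -c = n
      linarith)
    rw [← h1]
    have h2 : ∀ k : ℤ, (if red N (T ^ (n₀ + N * k)) * s = s' then F (n₀ + N * k) else 0) =
        F (n₀ + N * k) := by
      intro k
      have h3 : red N (T ^ (n₀ + N * k)) = red N (T ^ n₀) := by
        rw [pig_redT]
        push_cast
        simp
      rw [h3, if_pos hn₀]
    simp_rw [h2]
    exact hF n₀
  · push Not at h
    simp only [h, if_false, tsum_zero, norm_zero]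
    exact hV

/-! ### The elements with `a = 0` or `c = 0` -/

/-- `±1, ±S` -/
noncomputable def pig_h : Bool → Bool → SL(2, ℤ)
  | false, false => 1
  | true, false => -1
  | false, true => S
  | true, true => -S

/-- `±T^n, ±S T^n` -/
noncomputable def pig_g (p : Bool × Bool × ℤ) : SL(2, ℤ) := pig_h p.1 p.2.1 * T ^ p.2.2

theorem pig_g_inj : Function.Injective pig_g := by
  rintro ⟨e, j, n⟩ ⟨e', j', n'⟩ h
  have h00 := congrArg (fun x : SL(2, ℤ) => x 0 0) h
  have h01 := congrArg (fun x : SL(2, ℤ) => x 0 1) h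
  have h10 := congrArg (fun x : SL(2, ℤ) => x 1 0) h
  have h11 := congrArg (fun x : SL(2, ℤ) => x 1 1) h
  cases e <;> cases j <;> cases e' <;> cases j' <;>
    simp [pig_g, pig_h, coe_T_zpow, coe_S, Matrix.mul_apply, Fin.sum_univ_two, -map_zpow]
      at h00 h01 h10 h11 <;>
    simp_all

theorem pig_g_surj {γ : SL(2, ℤ)} (h : γ 1 0 = 0 ∨ γ 0 0 = 0) : γ ∈ range pig_g := by
  have hd := γ.det_coe
  rw [Matrix.det_fin_two] at hd
  rcases h with h | h
  · rw [h, mul_zero, sub_zero] at hd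
    rcases Int.eq_one_or_neg_one_of_mul_eq_one' hd with ⟨h1, h2⟩ | ⟨h1, h2⟩
    · refine ⟨(false, false, γ 0 1), ?_⟩
      ext i j
      fin_cases i <;> fin_cases j <;>
        simp [pig_g, pig_h, coe_T_zpow, h, h1, h2, -map_zpow]
    · refine ⟨(true, false, -γ 0 1), ?_⟩
      ext i j
      fin_cases i <;> fin_cases j <;>
        simp [pig_g, pig_h, coe_T_zpow, h, h1, h2, -map_zpow]
  · rw [h, zero_mul, zero_sub] at hd
    have hd' : γ 0 1 * -γ 1 0 = 1 := by linarith
    rcases Int.eq_one_or_neg_one_of_mul_eq_one' hd' with ⟨h1, h2⟩ | ⟨h1, h2⟩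
    · have h3 : γ 1 0 = -1 := by linarith
      refine ⟨(true, true, -γ 1 1), ?_⟩
      ext i j
      fin_cases i <;> fin_cases j <;>
        simp [pig_g, pig_h, coe_T_zpow, coe_S, h, h1, h3, Matrix.mul_apply,
          Fin.sum_univ_two, -map_zpow]
    · have h3 : γ 1 0 = 1 := by linarith
      refine ⟨(false, true, γ 1 1), ?_⟩
      ext i j
      fin_cases i <;> fin_cases j <;>
        simp [pig_g, pig_h, coe_T_zpow, coe_S, h, h1, h3, Matrix.mul_apply,
          Fin.sum_univ_two, -map_zpow]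

/-- the test function on the four families -/
theorem pig_val (α : ℝ → ℂ) (e j : Bool) (n : ℤ) (z : ℍ) :
    sa α (Complex.arg ((pig_g (e, j, n) • z : ℍ) : ℂ)) =
      pig_G (if j then fun θ => α (Real.pi - θ) else α) ((z.re + n) / z.im) := by
  cases e <;> cases j
  · simp only [pig_g, pig_h, one_mul, Bool.false_eq_true, if_false]
    exact pig_T α z n
  · simp only [pig_g, pig_h, if_true, mul_smul]
    rw [pig_S, pig_T]
  · simp only [pig_g, pig_h, neg_mul, one_mul, Bool.false_eq_true, if_false, SL_neg_smul]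
    exact pig_T α z n
  · simp only [pig_g, pig_h, if_true, neg_mul, SL_neg_smul, mul_smul]
    rw [pig_S, pig_T]

/-! ### High points: only `a = 0` or `c = 0` -/

theorem pig_high {α : ℝ → ℂ} (hα : TB α) : ∃ Y : ℝ, ∀ (γ : SL(2, ℤ)) (z : ℍ), Y < z.im →
    sa α (Complex.arg ((γ • z : ℍ) : ℂ)) ≠ 0 → γ 1 0 = 0 ∨ γ 0 0 = 0 := by
  obtain ⟨a, a', ha, ha', hs⟩ := hα.supp
  obtain ⟨κ, hκ, hb⟩ := (isCompact_Icc (a := a) (b := a')).exists_forall_le' (f := Real.sin)
    Real.continuous_sin.continuousOn (a := 0) (fun t ht =>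
      Real.sin_pos_of_pos_of_lt_pi (lt_of_lt_of_le ha ht.1) (lt_of_le_of_lt ht.2 ha'))
  refine ⟨1 / κ, fun γ z hz hne => ?_⟩
  by_contra hno
  push Not at hno
  obtain ⟨hc, ha0⟩ := hno
  have h1 : α (Complex.arg ((γ • z : ℍ) : ℂ)) ≠ 0 := by
    intro h2
    apply hne
    unfold sa
    rw [h2, mul_zero]
  have h2 := hb _ (hs _ h1)
  rw [Complex.sin_arg] at h2
  set w : ℂ := ((γ • z : ℍ) : ℂ) with hw
  have hwp : 0 < w.im := (γ • z : ℍ).im_pos
  have hw0 : 0 < ‖w‖ := norm_pos_iff.2 (by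
    rintro h
    rw [h] at hwp
    simp at hwp)
  rw [le_div_iff₀ hw0] at h2
  have h3 : w = ((γ 0 0 : ℂ) * z + (γ 0 1 : ℂ)) / ((γ 1 0 : ℂ) * z + (γ 1 1 : ℂ)) := by
    rw [hw]
    exact UpperHalfPlane.coe_specialLinearGroup_apply γ z
  have h4 : w.im = z.im / Complex.normSq ((γ 1 0 : ℂ) * z + (γ 1 1 : ℂ)) := by
    have h5 := ModularGroup.im_smul_eq_div_normSq γ z
    rw [ModularGroup.denom_apply] at h5
    rw [hw, UpperHalfPlane.coe_im]
    exact h5
  set p : ℂ := (γ 0 0 : ℂ) * z + (γ 0 1 : ℂ) with hp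
  set q : ℂ := (γ 1 0 : ℂ) * z + (γ 1 1 : ℂ) with hq
  have hzp := z.im_pos
  have habs : ∀ m : ℤ, m ≠ 0 → (1 : ℝ) ≤ |(m : ℝ)| := by
    intro m hm
    have := Int.one_le_abs hm
    exact_mod_cast this
  have h5 : z.im ≤ ‖p‖ := by
    have h6 : p.im = (γ 0 0 : ℝ) * z.im := by
      rw [hp]
      simp
    calc z.im ≤ |(γ 0 0 : ℝ)| * z.im := le_mul_of_one_le_left hzp.le (habs _ ha0)
      _ = |p.im| := by rw [h6, abs_mul, abs_of_pos hzp]
      _ ≤ ‖p‖ := Complex.abs_im_le_norm p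
  have h6 : z.im ≤ ‖q‖ := by
    have h6 : q.im = (γ 1 0 : ℝ) * z.im := by
      rw [hq]
      simp
    calc z.im ≤ |(γ 1 0 : ℝ)| * z.im := le_mul_of_one_le_left hzp.le (habs _ hc)
      _ = |q.im| := by rw [h6, abs_mul, abs_of_pos hzp]
      _ ≤ ‖q‖ := Complex.abs_im_le_norm q
  have hq0 : 0 < ‖q‖ := lt_of_lt_of_le hzp h6
  rw [h4, Complex.normSq_eq_norm_sq, h3, norm_div, mul_div_assoc', div_le_div_iff₀ hq0
    (by positivity)] at h2
  have h7 : κ * ‖p‖ * ‖q‖ ≤ z.im := by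
    have h8 : (κ * ‖p‖ * ‖q‖) * ‖q‖ ≤ z.im * ‖q‖ := by nlinarith
    exact le_of_mul_le_mul_right h8 hq0
  have h8 : κ * z.im * z.im ≤ κ * ‖p‖ * ‖q‖ := by
    have h9 : κ * z.im ≤ κ * ‖p‖ := mul_le_mul_of_nonneg_left h5 hκ.le
    exact mul_le_mul h9 h6 hzp.le (by positivity)
  rw [div_lt_iff₀ hκ] at hz
  nlinarith

/-- one of the four families -/
theorem pig_part {N : ℕ} [NeZero N] {β : ℝ → ℂ} (hβ : TB β)
    (h0 : ∫ t in Ioo 0 Real.pi, β t = 0) (s s' : QN N) (z : ℍ) [DecidableEq (QN N)] :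
    ‖∑' n : ℤ, (if red N (T ^ n) * s = s' then pig_G β ((z.re + n) / z.im) else 0)‖ ≤
      ∫ u, ‖deriv (pig_G β) u‖ := by
  refine pig_res s s' (fun n : ℤ => pig_G β ((z.re + n) / z.im))
    (integral_nonneg fun u => norm_nonneg _) fun n₀ => ?_
  have hN : (0 : ℝ) < N := by exact_mod_cast Nat.pos_of_ne_zero (NeZero.ne N)
  have h1 := (pig_sum2 (pig_G_smooth hβ) (pig_G_supp hβ) (pig_G_int.trans h0)
    ((z.re + n₀) / z.im) (h := N / z.im) (div_pos hN z.im_pos)).2
  have h2 : ∀ k : ℤ, (z.re + ((n₀ + N * k : ℤ) : ℝ)) / z.im =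
      (z.re + n₀) / z.im + N / z.im * k := by
    intro k
    push_cast
    ring
  simp_rw [h2]
  exact h1

/-- high points -/
theorem pig_top {N : ℕ} [NeZero N] {α : ℝ → ℂ} (hα : TB α)
    (h0 : ∫ t in Ioo 0 Real.pi, α t = 0) : ∃ Y B : ℝ, ∀ (s : QN N) (z : ℍ), Y < z.im →
      ‖PiA N α s z‖ ≤ B := by
  obtain ⟨Y, hY⟩ := pig_high hα
  set V : ℝ := (∫ u, ‖deriv (pig_G α) u‖) +
    ∫ u, ‖deriv (pig_G (fun θ => α (Real.pi - θ))) u‖ with hV
  have hV1 : 0 ≤ ∫ u, ‖deriv (pig_G α) u‖ := integral_nonneg fun u => norm_nonneg _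
  have hV2 : 0 ≤ ∫ u, ‖deriv (pig_G (fun θ => α (Real.pi - θ))) u‖ :=
    integral_nonneg fun u => norm_nonneg _
  refine ⟨Y, ‖(1 / (4 * Real.pi) : ℂ)‖ * (V + V + (V + V)), fun s z hz => ?_⟩
  set f : SL(2, ℤ) → ℂ := fun γ =>
    if red N γ * s = 1 then sa α (Complex.arg ((γ • z : ℍ) : ℂ)) else 0 with hf
  have h1 : PiA N α s z = (1 / (4 * Real.pi)) * ∑' γ : SL(2, ℤ), f γ := rfl
  have hne : ∀ γ, f γ ≠ 0 → sa α (Complex.arg ((γ • z : ℍ) : ℂ)) ≠ 0 := by
    intro γ hγ h2
    apply hγ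
    rw [hf]
    simp only [h2, ite_self]
  have h2 : ∑' γ : SL(2, ℤ), f γ = ∑' p : Bool × Bool × ℤ, f (pig_g p) :=
    (pig_g_inj.tsum_eq fun γ hγ => pig_g_surj (hY γ z hz (hne γ hγ))).symm
  have hfin : {γ : SL(2, ℤ) | ∃ w ∈ ({z} : Set ℍ), α (Complex.arg ((γ • w : ℍ) : ℂ)) ≠ 0}.Finite :=
    pia_fin hα isCompact_singleton
  have hsum : Summable (fun p : Bool × Bool × ℤ => f (pig_g p)) := by
    refine summable_of_finite_support ((hfin.preimage pig_g_inj.injOn).subset fun p hp => ?_)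
    refine ⟨z, rfl, fun h3 => hne (pig_g p) hp ?_⟩
    unfold sa
    rw [h3, mul_zero]
  have hpart : ∀ e j : Bool, ‖∑' n : ℤ, f (pig_g (e, j, n))‖ ≤ V := by
    intro e j
    have h3 : ∀ n : ℤ, f (pig_g (e, j, n)) =
        if red N (T ^ n) * s = (red N (pig_h e j))⁻¹ then
          pig_G (if j then fun θ => α (Real.pi - θ) else α) ((z.re + n) / z.im) else 0 := by
      intro n
      rw [hf]
      simp only [pig_val]
      refine if_congr ?_ rfl rfl
      rw [pig_g, pig_red_mul, mul_assoc, mul_eq_one_iff_inv_eq]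
      exact eq_comm
    simp_rw [h3]
    cases j
    · simp only [Bool.false_eq_true, if_false]
      refine (pig_part hα h0 s _ z).trans ?_
      linarith
    · simp only [if_true]
      refine (pig_part (pig_refl hα) (pig_refl_int h0) s _ z).trans ?_
      linarith
  rw [h1, norm_mul]
  refine mul_le_mul_of_nonneg_left ?_ (norm_nonneg _)
  rw [h2, hsum.tsum_prod, tsum_bool, (hsum.prod_factor false).tsum_prod,
    (hsum.prod_factor true).tsum_prod, tsum_bool, tsum_bool]
  refine (norm_add_le _ _).trans (add_le_add ((norm_add_le _ _).trans ?_)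
    ((norm_add_le _ _).trans ?_))
  · exact add_le_add (hpart false false) (hpart false true)
  · exact add_le_add (hpart true false) (hpart true true)

/-- the vertical geodesics: Riemann sums and total variation; the others: finitely many near the
fundamental domain -/
theorem pia_bdd_pr {N : ℕ} [NeZero N] {α : ℝ → ℂ} (hα : TB α)
    (h0 : ∫ t in Ioo 0 Real.pi, α t = 0) :
    ∃ B : ℝ, ∀ (s : QN N) (z : ℍ), ‖PiA N α s z‖ ≤ B := by
  obtain ⟨Y, B, hB⟩ := pig_top (N := N) hα h0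
  have h1 : ∀ s : QN N, ∃ C : ℝ, ∀ z ∈ truncatedFundamentalDomain Y, ‖PiA N α s z‖ ≤ C :=
    fun s => (isCompact_truncatedFundamentalDomain Y).exists_bound_of_continuousOn
      (pia_cont hα s).continuousOn
  choose C hC using h1
  refine ⟨(∑ s : QN N, |C s|) + |B|, fun s z => ?_⟩
  obtain ⟨γ, hγ⟩ := exists_smul_mem_fd z
  rw [← pia_fam (N := N) α γ s z]
  have h2 : |C (red N γ * s)| ≤ ∑ s : QN N, |C s| :=
    Finset.single_le_sum (f := fun s : QN N => |C s|) (fun s _ => abs_nonneg _)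
      (Finset.mem_univ _)
  rcases le_or_gt (γ • z).im Y with h3 | h3
  · have h4 := hC (red N γ * s) (γ • z) ⟨hγ, h3⟩
    linarith [le_abs_self (C (red N γ * s)), abs_nonneg B]
  · have h4 := hB (red N γ * s) (γ • z) h3
    have h5 : 0 ≤ ∑ s : QN N, |C s| := Finset.sum_nonneg fun s _ => abs_nonneg _
    linarith [le_abs_self B]

theorem pia_sq_pr {N : ℕ} [NeZero N] {α : ℝ → ℂ} (hα : TB α)
    (h0 : ∫ t in Ioo 0 Real.pi, α t = 0) : SqH (PiA N α) := by
  obtain ⟨B, hB⟩ := pia_bdd_pr (N := N) hα h0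
  refine ⟨pia_fam α, fun s => (pia_cont hα s).measurable, fun s => ?_⟩
  have hfm : IsFiniteMeasure ((volume : Measure ℍ).restrict ModularGroup.fdo) :=
    ⟨by
      rw [Measure.restrict_apply_univ]
      exact Pool.Agent.JOS.vol_fdo⟩
  refine Integrable.of_bound
    ((pia_cont hα s).norm.pow 2).aestronglyMeasurable (B ^ 2) (ae_of_all _ fun z => ?_)
  rw [norm_pow, norm_norm]
  exact pow_le_pow_left₀ (norm_nonneg _) (hB s z) 2

section

variable {N : ℕ} [NeZero N]

example {α : ℝ → ℂ} (hα : TB α) (h0 : ∫ t in Ioo 0 Real.pi, α t = 0) :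
    ∃ B : ℝ, ∀ (s : QN N) (z : ℍ), ‖PiA N α s z‖ ≤ B := pia_bdd_pr hα h0

example {α : ℝ → ℂ} (hα : TB α) (h0 : ∫ t in Ioo 0 Real.pi, α t = 0) :
    SqH (PiA N α) := pia_sq_pr hα h0



end

end Pool.Agent.JO
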