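import Pool.Agent.Lib_helper84.JO6.N1

/-!
# Block ZSR (project JO, part E6): the sum over primitive pairs
-/

set_option autoImplicit false

namespace Pool.Agent.JO

open Complex MeasureTheory Filter Topology Set ModularGroup
open UpperHalfPlane hiding I
open scoped MatrixGroups ComplexConjugate ContDiff

section

variable {N : ℕ} [NeZero N]

open scoped Classical in
/-- a term of `H(r; s)` -/
noncomputable def zsr_f (s : ℂ) (r : ZMod N) (n : ℕ) : ℂ :=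
  if 0 < n ∧ (n : ZMod N) = r then (n : ℂ) ^ (-s) else 0

open scoped Classical in
/-- a term of `M_δ` -/
noncomputable def zsr_m (u : ℂ) (δ : (ZMod N)ˣ) (d : ℕ) : ℂ :=
  if (d : ZMod N) = δ then ((ArithmeticFunction.moebius d : ℤ) : ℂ) * (d : ℂ) ^ (-u) else 0

theorem zsr_f_sum {s : ℂ} (hs : 1 < s.re) (r : ZMod N) :
    Summable (fun n => ‖zsr_f s r n‖) ∧ HasSum (zsr_f s r) (Hz r s) := by
  obtain ⟨h1, h2⟩ := zhr hs r
  have h3 : Summable (fun n => ‖zsr_f s r n‖) := by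
    refine h1.congr fun n => ?_
    unfold zsr_f
    congr
  refine ⟨h3, ?_⟩
  have h4 : ∑' n, zsr_f s r n = Hz r s := by
    rw [← h2]
    refine tsum_congr fun n => ?_
    unfold zsr_f
    congr
  rw [← h4]
  exact h3.of_norm.hasSum

theorem zsr_m_sum {u : ℂ} (hu : 1 < u.re) (δ : (ZMod N)ˣ) :
    Summable (fun n => ‖zsr_m u δ n‖) ∧ HasSum (zsr_m u δ) (Mz δ u) := by
  obtain ⟨h1, h2⟩ := zmo hu δ
  have h3 : Summable (fun n => ‖zsr_m u δ n‖) := by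
    refine h1.congr fun n => ?_
    unfold zsr_m
    congr
  refine ⟨h3, ?_⟩
  have h4 : ∑' n, zsr_m u δ n = Mz δ u := by
    rw [← h2]
    refine tsum_congr fun n => ?_
    unfold zsr_m
    congr
  rw [← h4]
  exact h3.of_norm.hasSum

omit [NeZero N] in
theorem zsr_f_mul {s : ℂ} {r : ZMod N} {d m : ℕ} (hd : 0 < d) {δ : (ZMod N)ˣ}
    (h : (d : ZMod N) = δ) :
    zsr_f s r (d * m) = (d : ℂ) ^ (-s) * zsr_f s (((δ⁻¹ : (ZMod N)ˣ) : ZMod N) * r) m := by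
  unfold zsr_f
  by_cases hm : 0 < m
  · have h1 : ((d * m : ℕ) : ZMod N) = r ↔
        (m : ZMod N) = ((δ⁻¹ : (ZMod N)ˣ) : ZMod N) * r := by
      rw [Nat.cast_mul, h, Units.eq_inv_mul_iff_mul_eq]
    by_cases h2 : (m : ZMod N) = ((δ⁻¹ : (ZMod N)ˣ) : ZMod N) * r
    · rw [if_pos ⟨Nat.mul_pos hd hm, h1.2 h2⟩, if_pos ⟨hm, h2⟩, Nat.cast_mul,
        natCast_mul_natCast_cpow]
    · rw [if_neg (fun h3 => h2 (h1.1 h3.2)), if_neg (fun h3 => h2 h3.2), mul_zero]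
  · have hm0 : m = 0 := by omega
    subst hm0
    simp

/-- the sum over the divisors of `m` and `n` -/
noncomputable def zsr_p (s : ℂ) (r₁ r₂ : ZMod N) (x : ℕ × (ℕ × ℕ)) : ℂ :=
  if 0 < x.1 ∧ x.1 ∣ x.2.1 ∧ x.1 ∣ x.2.2 then
    ((ArithmeticFunction.moebius x.1 : ℤ) : ℂ) * (zsr_f s r₁ x.2.1 * zsr_f s r₂ x.2.2) else 0

/-- the sum over the classes -/
noncomputable def zsr_g (s : ℂ) (r₁ r₂ : ZMod N) (x : ℕ × (ℕ × ℕ)) : ℂ :=
  ∑ δ : (ZMod N)ˣ, zsr_m (2 * s) δ x.1 * (zsr_f s (((δ⁻¹ : (ZMod N)ˣ) : ZMod N) * r₁) x.2.1 *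
    zsr_f s (((δ⁻¹ : (ZMod N)ˣ) : ZMod N) * r₂) x.2.2)

theorem zsr_prod3 {f g h : ℕ → ℂ} {a b c : ℂ} (hf : Summable (fun n => ‖f n‖)) (hf' : HasSum f a)
    (hg : Summable (fun n => ‖g n‖)) (hg' : HasSum g b)
    (hh : Summable (fun n => ‖h n‖)) (hh' : HasSum h c) :
    HasSum (fun x : ℕ × (ℕ × ℕ) => f x.1 * (g x.2.1 * h x.2.2)) (a * (b * c)) := by
  have h7 : HasSum (fun x : ℕ × ℕ => g x.1 * h x.2) (b * c) :=
    hg'.mul hh' (summable_mul_of_summable_norm hg hh)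
  have h8 : Summable (fun x : ℕ × ℕ => ‖g x.1 * h x.2‖) := hg.mul_norm hh
  exact hf'.mul h7 (summable_mul_of_summable_norm (f := f) (g := fun x : ℕ × ℕ => g x.1 * h x.2)
    hf h8)

theorem zsr_g_sum {s : ℂ} (hs : 1 < s.re) (r₁ r₂ : ZMod N) :
    HasSum (zsr_g s r₁ r₂) (∑ δ : (ZMod N)ˣ, Mz δ (2 * s) *
      (Hz (((δ⁻¹ : (ZMod N)ˣ) : ZMod N) * r₁) s * Hz (((δ⁻¹ : (ZMod N)ˣ) : ZMod N) * r₂) s)) := by
  have hu : 1 < (2 * s).re := by
    simp only [mul_re, re_ofNat, im_ofNat, zero_mul, sub_zero]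
    linarith
  have h0 : zsr_g s r₁ r₂ = fun x => ∑ δ : (ZMod N)ˣ,
      (fun (δ : (ZMod N)ˣ) (x : ℕ × (ℕ × ℕ)) => zsr_m (2 * s) δ x.1 *
        (zsr_f s (((δ⁻¹ : (ZMod N)ˣ) : ZMod N) * r₁) x.2.1 *
          zsr_f s (((δ⁻¹ : (ZMod N)ˣ) : ZMod N) * r₂) x.2.2)) δ x := rfl
  rw [h0]
  refine hasSum_sum fun δ _ => ?_
  exact zsr_prod3 (zsr_m_sum hu δ).1 (zsr_m_sum hu δ).2 (zsr_f_sum hs _).1 (zsr_f_sum hs _).2
    (zsr_f_sum hs _).1 (zsr_f_sum hs _).2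

theorem zsr_pg {s : ℂ} {r₁ r₂ : ZMod N} (hr : IsCoprime r₁ r₂) (d m n : ℕ) :
    zsr_p s r₁ r₂ (d, (d * m, d * n)) = zsr_g s r₁ r₂ (d, (m, n)) := by
  unfold zsr_p zsr_g
  rcases Nat.eq_zero_or_pos d with rfl | hd
  · simp only [lt_irrefl, false_and, if_false]
    symm
    refine Finset.sum_eq_zero fun δ _ => ?_
    have : zsr_m (2 * s) δ 0 = 0 := by
      unfold zsr_m
      simp
    rw [this, zero_mul]
  · rw [if_pos ⟨hd, Dvd.intro _ rfl, Dvd.intro _ rfl⟩]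
    by_cases hu : IsUnit (d : ZMod N)
    · obtain ⟨δ₀, hδ₀⟩ := hu
      rw [Finset.sum_eq_single δ₀]
      · simp only
        rw [zsr_f_mul hd hδ₀.symm, zsr_f_mul hd hδ₀.symm]
        have h1 : zsr_m (2 * s) δ₀ d =
            ((ArithmeticFunction.moebius d : ℤ) : ℂ) * ((d : ℂ) ^ (-s) * (d : ℂ) ^ (-s)) := by
          unfold zsr_m
          rw [if_pos hδ₀.symm, ← cpow_add _ _ (by exact_mod_cast hd.ne')]
          congr 2
          ring
        rw [h1]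
        ring
      · intro δ _ hδ
        have : zsr_m (2 * s) δ d = 0 := by
          unfold zsr_m
          rw [if_neg]
          intro h
          exact hδ (Units.ext (by rw [← h, hδ₀]))
        simp only
        rw [this, zero_mul]
      · intro h
        exact absurd (Finset.mem_univ _) h
    · rw [Finset.sum_eq_zero]
      · have : zsr_f s r₁ (d * m) * zsr_f s r₂ (d * n) = 0 := by
          by_contra hne
          have h1 : zsr_f s r₁ (d * m) ≠ 0 := left_ne_zero_of_mul hne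
          have h2 : zsr_f s r₂ (d * n) ≠ 0 := right_ne_zero_of_mul hne
          have h3 : ((d * m : ℕ) : ZMod N) = r₁ := by
            by_contra h
            exact h1 (if_neg (fun h' => h h'.2))
          have h4 : ((d * n : ℕ) : ZMod N) = r₂ := by
            by_contra h
            exact h2 (if_neg (fun h' => h h'.2))
          apply hu
          obtain ⟨a, b, hab⟩ := hr
          rw [← h3, ← h4] at hab
          refine IsUnit.of_mul_eq_one (a * m + b * n) ?_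
          rw [← hab]
          push_cast
          ring
        simp only
        rw [this, mul_zero]
      · intro δ _
        have : zsr_m (2 * s) δ d = 0 := by
          unfold zsr_m
          rw [if_neg]
          intro h
          exact hu (h ▸ δ.isUnit)
        simp only
        rw [this, zero_mul]

theorem zsr_p_sum {s : ℂ} (hs : 1 < s.re) {r₁ r₂ : ZMod N} (hr : IsCoprime r₁ r₂) :
    HasSum (zsr_p s r₁ r₂) (∑ δ : (ZMod N)ˣ, Mz δ (2 * s) *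
      (Hz (((δ⁻¹ : (ZMod N)ˣ) : ZMod N) * r₁) s * Hz (((δ⁻¹ : (ZMod N)ˣ) : ZMod N) * r₂) s)) := by
  rw [hasSum_iff_hasSum_of_ne_zero_bij (g := zsr_g s r₁ r₂)
    (fun x => ((x : ℕ × (ℕ × ℕ)).1, ((x : ℕ × (ℕ × ℕ)).1 * (x : ℕ × (ℕ × ℕ)).2.1,
      (x : ℕ × (ℕ × ℕ)).1 * (x : ℕ × (ℕ × ℕ)).2.2)))]
  · exact zsr_g_sum hs r₁ r₂
  · rintro ⟨⟨d, m, n⟩, hx⟩ ⟨⟨d', m', n'⟩, hx'⟩ h
    simp only [Prod.mk.injEq] at h
    obtain ⟨rfl, h2, h3⟩ := h
    have hd : 0 < d := by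
      rcases Nat.eq_zero_or_pos d with rfl | hd
      · exact absurd (by rw [← zsr_pg hr]; simp [zsr_p]) hx
      · exact hd
    have h4 := Nat.eq_of_mul_eq_mul_left hd h2
    have h5 := Nat.eq_of_mul_eq_mul_left hd h3
    subst h4 h5
    rfl
  · rintro ⟨d, m, n⟩ hx
    have h1 : 0 < d ∧ d ∣ m ∧ d ∣ n := by
      by_contra h
      exact hx (if_neg h)
    obtain ⟨hd, ⟨m', rfl⟩, ⟨n', rfl⟩⟩ := h1
    refine ⟨⟨(d, m', n'), ?_⟩, rfl⟩
    rw [Function.mem_support, ← zsr_pg hr]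
    exact hx
  · rintro ⟨⟨d, m, n⟩, hx⟩
    exact zsr_pg hr d m n

theorem zsr_core {s : ℂ} (hs : 1 < s.re) {r₁ r₂ : ZMod N} (hr : IsCoprime r₁ r₂) :
    HasSum (fun p : ℕ × ℕ => if Nat.gcd p.1 p.2 = 1 then zsr_f s r₁ p.1 * zsr_f s r₂ p.2 else 0)
      (∑ δ : (ZMod N)ˣ, Mz δ (2 * s) *
      (Hz (((δ⁻¹ : (ZMod N)ˣ) : ZMod N) * r₁) s * Hz (((δ⁻¹ : (ZMod N)ˣ) : ZMod N) * r₂) s)) := by
  have h1 := (Equiv.prodComm (ℕ × ℕ) ℕ).hasSum_iff.2 (zsr_p_sum hs hr)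
  refine h1.prod_fiberwise ?_
  rintro ⟨m, n⟩
  simp only [Function.comp_apply, Equiv.prodComm_apply, Prod.swap_prod_mk]
  by_cases h0 : zsr_f s r₁ m * zsr_f s r₂ n = 0
  · rw [h0, ite_self]
    have : (fun c => zsr_p s r₁ r₂ (c, m, n)) = fun _ => 0 := by
      funext c
      unfold zsr_p
      simp only
      rw [h0, mul_zero, ite_self]
    rw [this]
    exact hasSum_zero
  · have hm : 0 < m := by
      by_contra h
      exact (left_ne_zero_of_mul h0) (if_neg (fun h' => h h'.1))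
    have hg : Nat.gcd m n ≠ 0 := (Nat.gcd_pos_of_pos_left n hm).ne'
    have h2 : HasSum (fun c => zsr_p s r₁ r₂ (c, m, n))
        (∑ c ∈ (Nat.gcd m n).divisors, zsr_p s r₁ r₂ (c, m, n)) := by
      refine hasSum_sum_of_ne_finset_zero fun c hc => ?_
      unfold zsr_p
      rw [if_neg]
      rintro ⟨h3, h4, h5⟩
      exact hc (Nat.mem_divisors.2 ⟨Nat.dvd_gcd h4 h5, hg⟩)
    convert h2 using 1
    have h3 : ∑ c ∈ (Nat.gcd m n).divisors, zsr_p s r₁ r₂ (c, m, n) =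
        ((∑ c ∈ (Nat.gcd m n).divisors, ArithmeticFunction.moebius c : ℤ) : ℂ) *
          (zsr_f s r₁ m * zsr_f s r₂ n) := by
      rw [Int.cast_sum, Finset.sum_mul]
      refine Finset.sum_congr rfl fun c hc => ?_
      have h4 := (Nat.mem_divisors.1 hc).1
      unfold zsr_p
      rw [if_pos ⟨Nat.pos_of_mem_divisors hc, h4.trans (Nat.gcd_dvd_left _ _),
        h4.trans (Nat.gcd_dvd_right _ _)⟩]
    rw [h3, ← ArithmeticFunction.coe_mul_zeta_apply, ArithmeticFunction.moebius_mul_coe_zeta,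
      ArithmeticFunction.one_apply]
    by_cases h5 : Nat.gcd m n = 1
    · rw [if_pos h5, if_pos h5]; simp
    · rw [if_neg h5, if_neg h5]; simp

open scoped Classical in
theorem zsr_quad {s : ℂ} (hs : 1 < s.re) {r₁ r₂ : ZMod N} (hr : IsCoprime r₁ r₂) {ε₁ ε₂ : ℤ}
    (h1 : ε₁ * ε₁ = 1) (h2 : ε₂ * ε₂ = 1) :
    HasSum (fun p : ℤ × ℤ => if IsCoprime p.1 p.2 ∧ (p.1 : ZMod N) = r₁ ∧ (p.2 : ZMod N) = r₂ ∧
        0 < ε₁ * p.1 ∧ 0 < ε₂ * p.2 then ((|(p.1 * p.2 : ℝ)| : ℝ) : ℂ) ^ (-s) else 0)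
      (∑ δ : (ZMod N)ˣ, Mz δ (2 * s) *
      (Hz (((δ⁻¹ : (ZMod N)ˣ) : ZMod N) * ((ε₁ : ZMod N) * r₁)) s *
        Hz (((δ⁻¹ : (ZMod N)ˣ) : ZMod N) * ((ε₂ : ZMod N) * r₂)) s)) := by
  have e1 : (ε₁ : ZMod N) * (ε₁ : ZMod N) = 1 := by rw [← Int.cast_mul, h1, Int.cast_one]
  have e2 : (ε₂ : ZMod N) * (ε₂ : ZMod N) = 1 := by rw [← Int.cast_mul, h2, Int.cast_one]
  have u1 : IsUnit ε₁ := IsUnit.of_mul_eq_one _ h1
  have u2 : IsUnit ε₂ := IsUnit.of_mul_eq_one _ h2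
  have hr' : IsCoprime ((ε₁ : ZMod N) * r₁) ((ε₂ : ZMod N) * r₂) := by
    obtain ⟨a, b, hab⟩ := hr
    refine ⟨a * ε₁, b * ε₂, ?_⟩
    calc a * (ε₁ : ZMod N) * (ε₁ * r₁) + b * (ε₂ : ZMod N) * (ε₂ * r₂) =
        a * r₁ * ((ε₁ : ZMod N) * ε₁) + b * r₂ * ((ε₂ : ZMod N) * ε₂) := by ring
      _ = 1 := by rw [e1, e2, mul_one, mul_one, hab]
  have h3 := zsr_core hs hr'
  have hinj : Function.Injective (fun p : ℕ × ℕ => ((ε₁ * (p.1 : ℤ), ε₂ * (p.2 : ℤ)) : ℤ × ℤ)) := by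
    rintro ⟨m, n⟩ ⟨m', n'⟩ h
    simp only [Prod.mk.injEq] at h
    have a1 := u1.mul_left_cancel h.1
    have a2 := u2.mul_left_cancel h.2
    simp only [Prod.mk.injEq]
    exact ⟨by exact_mod_cast a1, by exact_mod_cast a2⟩
  rw [← hinj.hasSum_iff]
  · convert h3 using 1
    funext p
    obtain ⟨m, n⟩ := p
    simp only [Function.comp_apply]
    have c1 : IsCoprime (ε₁ * (m : ℤ)) (ε₂ * (n : ℤ)) ↔ Nat.gcd m n = 1 := by
      rw [isCoprime_mul_unit_left_left u1, isCoprime_mul_unit_left_right u2,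
        Nat.isCoprime_iff_coprime, Nat.Coprime]
    have c2 : ((ε₁ * (m : ℤ) : ℤ) : ZMod N) = r₁ ↔ (m : ZMod N) = (ε₁ : ZMod N) * r₁ := by
      push_cast
      constructor
      · intro h; rw [← h, ← mul_assoc, e1, one_mul]
      · intro h; rw [h, ← mul_assoc, e1, one_mul]
    have c3 : ((ε₂ * (n : ℤ) : ℤ) : ZMod N) = r₂ ↔ (n : ZMod N) = (ε₂ : ZMod N) * r₂ := by
      push_cast
      constructor
      · intro h; rw [← h, ← mul_assoc, e2, one_mul]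
      · intro h; rw [h, ← mul_assoc, e2, one_mul]
    have c4 : 0 < ε₁ * (ε₁ * (m : ℤ)) ↔ 0 < m := by
      rw [← mul_assoc, h1, one_mul]; exact_mod_cast Iff.rfl
    have c5 : 0 < ε₂ * (ε₂ * (n : ℤ)) ↔ 0 < n := by
      rw [← mul_assoc, h2, one_mul]; exact_mod_cast Iff.rfl
    have c6 : (|(((ε₁ * (m : ℤ) : ℤ) : ℝ) * ((ε₂ * (n : ℤ) : ℤ) : ℝ))| : ℝ) = (m : ℝ) * n := by
      push_cast
      have f1 : |(ε₁ : ℝ)| = 1 := by
        have : |ε₁| = 1 := Int.isUnit_iff_abs_eq.1 u1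
        exact_mod_cast this
      have f2 : |(ε₂ : ℝ)| = 1 := by
        have : |ε₂| = 1 := Int.isUnit_iff_abs_eq.1 u2
        exact_mod_cast this
      rw [abs_mul, abs_mul, abs_mul, f1, f2, one_mul, one_mul, Nat.abs_cast, Nat.abs_cast]
    by_cases hg : Nat.gcd m n = 1
    · rw [if_pos hg]
      unfold zsr_f
      by_cases ha : 0 < m ∧ (m : ZMod N) = (ε₁ : ZMod N) * r₁
      · by_cases hb : 0 < n ∧ (n : ZMod N) = (ε₂ : ZMod N) * r₂
        · rw [if_pos ⟨c1.2 hg, c2.2 ha.2, c3.2 hb.2, c4.2 ha.1, c5.2 hb.1⟩, if_pos ha, if_pos hb, c6]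
          push_cast
          rw [natCast_mul_natCast_cpow]
        · rw [if_neg (fun h => hb ⟨c5.1 h.2.2.2.2, c3.1 h.2.2.1⟩), if_neg hb, mul_zero]
      · rw [if_neg (fun h => ha ⟨c4.1 h.2.2.2.1, c2.1 h.2.1⟩), if_neg ha, zero_mul]
    · rw [if_neg hg, if_neg (fun h => hg (c1.1 h.1))]
  · rintro ⟨a, c⟩ hx
    rw [if_neg]
    rintro ⟨-, -, -, h4, h5⟩
    apply hx
    refine ⟨((ε₁ * a).toNat, (ε₂ * c).toNat), ?_⟩
    simp only
    rw [Int.toNat_of_nonneg h4.le, Int.toNat_of_nonneg h5.le, ← mul_assoc, ← mul_assoc, h1, h2,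
      one_mul, one_mul]

open scoped Classical in
theorem zsr_pr {s : ℂ} (hs : 1 < s.re) {v : ZMod N × ZMod N} (hv : v ∈ PV N) {σ : ℝ}
    (hσ2 : σ ^ 2 = 1) :
    Summable (fun p : ℤ × ℤ => ‖if IsCoprime p.1 p.2 ∧ (p.1 : ZMod N) = v.2 ∧
        (p.2 : ZMod N) = -v.1 ∧ σ * (p.1 * p.2 : ℝ) < 0 then
      ((|(p.1 * p.2 : ℝ)| : ℝ) : ℂ) ^ (-s) else 0‖) ∧
    ∑' p : ℤ × ℤ, (if IsCoprime p.1 p.2 ∧ (p.1 : ZMod N) = v.2 ∧
        (p.2 : ZMod N) = -v.1 ∧ σ * (p.1 * p.2 : ℝ) < 0 then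
      ((|(p.1 * p.2 : ℝ)| : ℝ) : ℂ) ^ (-s) else 0) = ZN v σ s := by
  have hr : IsCoprime v.2 (-v.1) := by
    unfold PV at hv
    obtain ⟨g, -, hg⟩ := Finset.mem_image.1 hv
    have h1 : g 1 0 = v.1 := congrArg Prod.fst hg
    have h2 : g 1 1 = v.2 := congrArg Prod.snd hg
    have h3 := g.det_coe
    rw [Matrix.det_fin_two] at h3
    refine ⟨g 0 0, g 0 1, ?_⟩
    rw [← h1, ← h2]
    linear_combination h3
  have gen : ∀ e : ℤ, e * e = 1 → σ = -(e : ℝ) →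
      HasSum (fun p : ℤ × ℤ => if IsCoprime p.1 p.2 ∧ (p.1 : ZMod N) = v.2 ∧
        (p.2 : ZMod N) = -v.1 ∧ σ * (p.1 * p.2 : ℝ) < 0 then
      ((|(p.1 * p.2 : ℝ)| : ℝ) : ℂ) ^ (-s) else 0)
      (∑ δ : (ZMod N)ˣ, Mz δ (2 * s) *
      (Hz (((δ⁻¹ : (ZMod N)ˣ) : ZMod N) * (((1 : ℤ) : ZMod N) * v.2)) s *
        Hz (((δ⁻¹ : (ZMod N)ˣ) : ZMod N) * ((e : ZMod N) * -v.1)) s) +
        ∑ δ : (ZMod N)ˣ, Mz δ (2 * s) *
      (Hz (((δ⁻¹ : (ZMod N)ˣ) : ZMod N) * (((-1 : ℤ) : ZMod N) * v.2)) s *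
        Hz (((δ⁻¹ : (ZMod N)ˣ) : ZMod N) * (((-e : ℤ) : ZMod N) * -v.1)) s)) := by
    intro e he hσe
    have h4 := (zsr_quad hs hr (ε₁ := 1) (ε₂ := e) (by norm_num) he).add
        (zsr_quad hs hr (ε₁ := -1) (ε₂ := -e) (by norm_num) (by rw [neg_mul_neg, he]))
    convert h4 using 1
    funext p
    obtain ⟨a, c⟩ := p
    simp only
    have h5 : σ * ((a : ℝ) * c) < 0 ↔ (0 < 1 * a ∧ 0 < e * c) ∨ (0 < -1 * a ∧ 0 < -e * c) := by
      rw [hσe]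
      have h6 : -(e : ℝ) * ((a : ℝ) * c) < 0 ↔ 0 < a * (e * c) := by
        have h7 : -(e : ℝ) * ((a : ℝ) * c) = -((a * (e * c) : ℤ) : ℝ) := by push_cast; ring
        rw [h7, neg_lt_zero, Int.cast_pos]
      rw [h6, mul_pos_iff]
      constructor
      · rintro (⟨h, h'⟩ | ⟨h, h'⟩)
        · left; exact ⟨by linarith, h'⟩
        · right; exact ⟨by linarith, by linarith⟩
      · rintro (⟨h, h'⟩ | ⟨h, h'⟩)
        · left; exact ⟨by linarith, h'⟩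
        · right; exact ⟨by linarith, by linarith⟩
    by_cases hP : IsCoprime a c ∧ (a : ZMod N) = v.2 ∧ (c : ZMod N) = -v.1
    · obtain ⟨p1, p2, p3⟩ := hP
      by_cases q1 : 0 < 1 * a ∧ 0 < e * c
      · rw [if_pos ⟨p1, p2, p3, h5.2 (Or.inl q1)⟩, if_pos ⟨p1, p2, p3, q1⟩, if_neg, add_zero]
        rintro ⟨-, -, -, h6, -⟩
        linarith [q1.1]
      · by_cases q2 : 0 < -1 * a ∧ 0 < -e * c
        · rw [if_pos ⟨p1, p2, p3, h5.2 (Or.inr q2)⟩, if_neg (fun h => q1 h.2.2.2),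
            if_pos ⟨p1, p2, p3, q2⟩, zero_add]
        · rw [if_neg, if_neg, if_neg, add_zero]
          · rintro ⟨-, -, -, h6⟩
            exact q2 h6
          · rintro ⟨-, -, -, h6⟩
            exact q1 h6
          · rintro ⟨-, -, -, h6⟩
            exact (h5.1 h6).elim q1 q2
    · rw [if_neg, if_neg, if_neg, add_zero]
      all_goals
        rintro ⟨p1, p2, p3, -⟩
        exact hP ⟨p1, p2, p3⟩
  have key : HasSum (fun p : ℤ × ℤ => if IsCoprime p.1 p.2 ∧ (p.1 : ZMod N) = v.2 ∧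
        (p.2 : ZMod N) = -v.1 ∧ σ * (p.1 * p.2 : ℝ) < 0 then
      ((|(p.1 * p.2 : ℝ)| : ℝ) : ℂ) ^ (-s) else 0) (ZN v σ s) := by
    have hσ : σ = 1 ∨ σ = -1 := mul_self_eq_one_iff.1 (by rw [← sq]; exact hσ2)
    rcases hσ with rfl | rfl
    · have h4 := gen (-1) (by norm_num) (by norm_num)
      convert h4 using 1
      rw [ZN, ← Finset.sum_add_distrib]
      refine Finset.sum_congr rfl fun δ _ => ?_
      rw [if_pos rfl, if_pos rfl]
      have a1 : (((-1 : ℤ) : ZMod N) * -v.1) = v.1 := by push_cast; ring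
      have a2 : (((1 : ℤ) : ZMod N) * v.2) = v.2 := by push_cast; ring
      have a3 : (((-1 : ℤ) : ZMod N) * v.2) = -v.2 := by push_cast; ring
      have a4 : (((-(-1) : ℤ) : ZMod N) * -v.1) = -v.1 := by push_cast; ring
      rw [a1, a2, a3, a4, mul_neg, mul_neg]
      ring
    · have h4 := gen 1 (by norm_num) (by norm_num)
      convert h4 using 1
      rw [ZN, ← Finset.sum_add_distrib]
      refine Finset.sum_congr rfl fun δ _ => ?_
      have hne : ¬ ((-1 : ℝ) = 1) := by norm_num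
      rw [if_neg hne, if_neg hne]
      have a1 : (((1 : ℤ) : ZMod N) * -v.1) = -v.1 := by push_cast; ring
      have a2 : (((1 : ℤ) : ZMod N) * v.2) = v.2 := by push_cast; ring
      have a3 : (((-1 : ℤ) : ZMod N) * v.2) = -v.2 := by push_cast; ring
      have a4 : (((-1 : ℤ) : ZMod N) * -v.1) = v.1 := by push_cast; ring
      rw [a1, a2, a3, a4, mul_neg, mul_neg]
      ring
  exact ⟨key.summable.norm, key.tsum_eq⟩

end

end Pool.Agent.JO
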