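import Pool.Agent.Lib_helper84.JO6.FST
import Pool.Agent.Lib_helper84.JO6.JJM
import Pool.Agent.Lib_helper84.JO6.PIG
import Pool.Agent.Lib_helper84.JO6.CPI
import Pool.Agent.Lib_helper84.JO6.ZSR

/-! # JO, part E6: collected statements -/

namespace Pool.Agent.JO

theorem fs_td : type_of% @fs_td_pr := @fs_td_pr

theorem jj_mel : type_of% @jj_mel_pr := @jj_mel_pr

theorem jj_mel_diff : type_of% @jj_mel_diff_pr := @jj_mel_diff_pr

theorem pia_bdd : type_of% @pia_bdd_pr := @pia_bdd_pr

theorem pia_sq : type_of% @pia_sq_pr := @pia_sq_pr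

theorem cpi : type_of% @cpi_pr := @cpi_pr

theorem zsr : type_of% @zsr_pr := @zsr_pr

end Pool.Agent.JO
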