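import Pool.Agent.Lib_helper84.JO6.N0

set_option autoImplicit false

namespace Pool.Agent.JO

open Complex MeasureTheory Filter Topology Set ModularGroup
open UpperHalfPlane hiding I
open Pool.Agent.Lib_helper37.JO (HJ)
open scoped MatrixGroups ComplexConjugate ContDiff

/-- `sin² b` -/
noncomputable def tdbB (b : ℝ → ℂ) (x : ℝ) : ℂ := ((Real.sin x ^ 2 : ℝ) : ℂ) * b x

theorem tdb_supp {b : ℝ → ℂ} (hb : TB b) : ∃ a a' : ℝ, 0 < a ∧ a ≤ a' ∧ a' < Real.pi ∧
    ∀ t, b t ≠ 0 → t ∈ Set.Icc a a' := by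
  obtain ⟨a, a', ha, ha', h⟩ := hb.supp
  have hpi := Real.pi_pos
  refine ⟨min a (Real.pi / 2), max a' (Real.pi / 2), lt_min ha (by linarith),
    (min_le_right _ _).trans (le_max_right _ _), max_lt ha' (by linarith), fun t ht => ?_⟩
  exact ⟨(min_le_left _ _).trans (h t ht).1, (h t ht).2.trans (le_max_left _ _)⟩

theorem tdb_smooth {b : ℝ → ℂ} (hb : TB b) : ContDiff ℝ ∞ (tdbB b) := by
  unfold tdbB
  refine ContDiff.mul ?_ hb.smooth
  exact Complex.ofRealCLM.contDiff.comp (Real.contDiff_sin.pow 2)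

theorem tdb_deriv_supp {g : ℝ → ℂ} {a a' : ℝ} (h : ∀ t, g t ≠ 0 → t ∈ Set.Icc a a') :
    ∀ t, deriv g t ≠ 0 → t ∈ Set.Icc a a' := by
  intro t ht
  by_contra hn
  apply ht
  have h1 : ∀ᶠ x in 𝓝 t, x ∉ Set.Icc a a' := isClosed_Icc.isOpen_compl.mem_nhds hn
  have h2 : g =ᶠ[𝓝 t] fun _ => 0 := by
    filter_upwards [h1] with x hx
    by_contra hne
    exact hx (h x hne)
  rw [h2.deriv_eq]
  simp

theorem tdb_B_supp {b : ℝ → ℂ} {a a' : ℝ} (h : ∀ t, b t ≠ 0 → t ∈ Set.Icc a a') :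
    ∀ t, tdbB b t ≠ 0 → t ∈ Set.Icc a a' := by
  intro t ht
  exact h t (right_ne_zero_of_mul ht)

theorem tdb_TD (b : ℝ → ℂ) : TD b = deriv (deriv (tdbB b)) := rfl

theorem tdb_sm1 {b : ℝ → ℂ} (hb : TB b) : ContDiff ℝ ∞ (deriv (tdbB b)) :=
  (contDiff_infty_iff_deriv.1 (tdb_smooth hb)).2

theorem tdb_sm2 {b : ℝ → ℂ} (hb : TB b) : ContDiff ℝ ∞ (deriv (deriv (tdbB b))) :=
  (contDiff_infty_iff_deriv.1 (tdb_sm1 hb)).2

theorem td_tb_pr {b : ℝ → ℂ} (hb : TB b) : TB (TD b) := by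
  obtain ⟨a, a', ha, _, ha', h⟩ := tdb_supp hb
  rw [tdb_TD]
  exact ⟨tdb_sm2 hb, a, a', ha, ha', tdb_deriv_supp (tdb_deriv_supp (tdb_B_supp h))⟩

theorem td_int0_pr {b : ℝ → ℂ} (hb : TB b) : ∫ t in Ioo 0 Real.pi, TD b t = 0 := by
  obtain ⟨a, a', ha, _, ha', h⟩ := tdb_supp hb
  have h1 := tdb_deriv_supp (tdb_B_supp h)
  have hd : ∀ t ∈ uIcc 0 Real.pi, HasDerivAt (deriv (tdbB b)) (TD b t) t := by
    intro t _
    exact ((tdb_sm1 hb).differentiable (by simp) t).hasDerivAt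
  have hc : Continuous (TD b) := by
    rw [tdb_TD]; exact (tdb_sm2 hb).continuous
  rw [← integral_Ioc_eq_integral_Ioo, ← intervalIntegral.integral_of_le Real.pi_pos.le,
    intervalIntegral.integral_eq_sub_of_hasDerivAt hd (hc.intervalIntegrable _ _)]
  have e1 : deriv (tdbB b) Real.pi = 0 := by
    by_contra hne
    have := (h1 _ hne).2
    linarith
  have e2 : deriv (tdbB b) 0 = 0 := by
    by_contra hne
    have := (h1 _ hne).1
    linarith
  rw [e1, e2, sub_zero]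

theorem tdb_restrict {a a' : ℝ} (ha : 0 < a) (haa : a ≤ a') (ha' : a' < Real.pi) {G : ℝ → ℂ}
    (h : ∀ t, G t ≠ 0 → t ∈ Set.Icc a a') :
    ∫ t in Ioo 0 Real.pi, G t = ∫ t in (a / 2)..((a' + Real.pi) / 2), G t := by
  rw [intervalIntegral.integral_of_le (by linarith)]
  refine setIntegral_eq_of_subset_of_forall_sdiff_eq_zero measurableSet_Ioo ?_ ?_
  · intro t ht
    exact ⟨by linarith [ht.1], by linarith [ht.2]⟩
  · intro t ht
    by_contra hne
    have := h t hne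
    exact ht.2 ⟨by linarith [this.1], by linarith [this.2]⟩

/-- integration by parts, twice -/
theorem td_move_pr {b : ℝ → ℂ} (hb : TB b) {F F1 F2 : ℝ → ℂ}
    (h1 : ∀ t ∈ Ioo 0 Real.pi, HasDerivAt F (F1 t) t)
    (h2 : ∀ t ∈ Ioo 0 Real.pi, HasDerivAt F1 (F2 t) t) (h3 : ContinuousOn F2 (Ioo 0 Real.pi)) :
    ∫ t in Ioo 0 Real.pi, TD b t * F t =
      ∫ t in Ioo 0 Real.pi, b t * (((Real.sin t ^ 2 : ℝ) : ℂ) * F2 t) := by
  obtain ⟨a, a', ha, haa, ha', h⟩ := tdb_supp hb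
  have hB := tdb_B_supp h
  have hB1 := tdb_deriv_supp hB
  have hB2 := tdb_deriv_supp hB1
  set c : ℝ := a / 2 with hc
  set c' : ℝ := (a' + Real.pi) / 2 with hc'
  have hcc : c ≤ c' := by rw [hc, hc']; linarith
  have hsub : uIcc c c' ⊆ Ioo 0 Real.pi := by
    rw [uIcc_of_le hcc]
    intro t ht
    exact ⟨by linarith [ht.1], by linarith [ht.2]⟩
  have hz : ∀ {g : ℝ → ℂ}, (∀ t, g t ≠ 0 → t ∈ Set.Icc a a') → g c = 0 ∧ g c' = 0 := by
    intro g hg
    refine ⟨?_, ?_⟩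
    · by_contra hne
      have := (hg _ hne).1
      linarith
    · by_contra hne
      have := (hg _ hne).2
      linarith
  have hd0 : ∀ t, HasDerivAt (tdbB b) (deriv (tdbB b) t) t := fun t =>
    ((tdb_smooth hb).differentiable (by simp) t).hasDerivAt
  have hd1 : ∀ t, HasDerivAt (deriv (tdbB b)) (deriv (deriv (tdbB b)) t) t := fun t =>
    ((tdb_sm1 hb).differentiable (by simp) t).hasDerivAt
  have hF1c : ContinuousOn F1 (uIcc c c') := fun t ht =>
    (h2 t (hsub ht)).continuousAt.continuousWithinAt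
  have hF2c : ContinuousOn F2 (uIcc c c') := h3.mono hsub
  have hi1 : IntervalIntegrable (deriv (tdbB b)) volume c c' :=
    (tdb_sm1 hb).continuous.intervalIntegrable _ _
  have hi2 : IntervalIntegrable (deriv (deriv (tdbB b))) volume c c' :=
    (tdb_sm2 hb).continuous.intervalIntegrable _ _
  have p1 := intervalIntegral.integral_mul_deriv_eq_deriv_mul (u := F) (v := deriv (tdbB b))
    (u' := F1) (v' := deriv (deriv (tdbB b))) (a := c) (b := c')
    (fun t ht => h1 t (hsub ht)) (fun t _ => hd1 t) hF1c.intervalIntegrable hi2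
  have p2 := intervalIntegral.integral_mul_deriv_eq_deriv_mul (u := F1) (v := tdbB b)
    (u' := F2) (v' := deriv (tdbB b)) (a := c) (b := c')
    (fun t ht => h2 t (hsub ht)) (fun t _ => hd0 t) hF2c.intervalIntegrable hi1
  rw [(hz hB1).1, (hz hB1).2, p2, (hz hB).1, (hz hB).2] at p1
  simp only [mul_zero, sub_zero, zero_sub, neg_neg] at p1
  rw [tdb_TD, tdb_restrict ha haa ha' (G := fun t => deriv (deriv (tdbB b)) t * F t)
      (fun t ht => hB2 t (left_ne_zero_of_mul ht)),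
    tdb_restrict ha haa ha' (G := fun t => b t * (((Real.sin t ^ 2 : ℝ) : ℂ) * F2 t))
      (fun t ht => h t (left_ne_zero_of_mul ht))]
  rw [← hc, ← hc']
  calc ∫ t in c..c', deriv (deriv (tdbB b)) t * F t
      = ∫ t in c..c', F t * deriv (deriv (tdbB b)) t := by simp_rw [mul_comm]
    _ = ∫ t in c..c', F2 t * tdbB b t := p1
    _ = _ := by
      refine intervalIntegral.integral_congr fun t _ => ?_
      simp only [tdbB]
      ring

theorem tb_conj_pr {b : ℝ → ℂ} (hb : TB b) : TB (fun t => conj (b t)) ∧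
    TD (fun t => conj (b t)) = fun t => conj (TD b t) := by
  refine ⟨⟨?_, ?_⟩, ?_⟩
  · exact Complex.conjCLE.contDiff.comp hb.smooth
  · obtain ⟨a, a', ha, ha', h⟩ := hb.supp
    refine ⟨a, a', ha, ha', fun t ht => h t fun h0 => ht ?_⟩
    rw [h0, map_zero]
  · have h1 : tdbB (fun t => conj (b t)) = fun x => star (tdbB b x) := by
      ext x
      simp only [tdbB, star_mul', RCLike.star_def, Complex.conj_ofReal]
    have h2 : deriv (fun x => star (tdbB b x)) = fun x => star (deriv (tdbB b) x) := by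
      ext x
      exact deriv.star
    have h3 : deriv (fun x => star (deriv (tdbB b) x)) =
        fun x => star (deriv (deriv (tdbB b)) x) := by
      ext x
      exact deriv.star
    rw [tdb_TD, h1, h2, h3, tdb_TD]
    rfl

end Pool.Agent.JO
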