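import Pool.Agent.Lib_helper84.JO6.E6C
import Pool.Agent.Lib_helper50.ZP.ZfB

/-! # JO, part E6: top module, all statements proved -/

set_option autoImplicit false

namespace Pool.Agent.JO

open Complex MeasureTheory Filter Topology Set ModularGroup
open UpperHalfPlane hiding I
open Pool.Agent.Lib_helper37.JO (HJ)
open scoped MatrixGroups ComplexConjugate ContDiff

theorem mlp_left : type_of% @mlp_left_pr := @mlp_left_pr

/-- **the main identity**, with `α = TD (TD (TD b))` -/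
theorem e6_main {N : ℕ} [NeZero N] {f : QN N → ℍ → ℂ} (hf : SqH f) (h0 : meanH f = 0) :
    ∃ g : QN N → ℍ → ℂ, SqH g ∧ meanH g = 0 ∧
      (∀ v ∈ PV N, ∀ᵐ y : ℝ ∂(volume.restrict (Ioi 0)), cH g v y = 0) ∧
      ∀ b : ℝ → ℂ, TB b → SqH (PiA N (TD (TD (TD b)))) ∧ meanH (PiA N (TD (TD (TD b)))) = 0 ∧
        2 * Real.pi * ipH f (PiA N (TD (TD (TD b)))) =
          2 * Real.pi * ipH g (PiA N (TD (TD (TD b)))) +
          ∑ v ∈ PV N, ((∫ κ : ℝ, melL2 (cH f v) κ * Zf N v 1 κ *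
              ∫ θ in Ioo 0 Real.pi, HJ 1 κ (θ : ℂ) * conj (TD (TD (TD b)) θ)) +
            ∫ κ : ℝ, melL2 (cH f v) κ * Zf N v (-1) κ *
              ∫ θ in Ioo 0 Real.pi, HJ (-1) κ (θ : ℂ) * conj (TD (TD (TD b)) θ)) :=
  e6_main_pr (Pool.Agent.ZP.zfB N) hf h0

end Pool.Agent.JO
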